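import Pool.Agent.H82.SC.Indep

set_option linter.unusedSimpArgs false
set_option linter.unusedVariables false

namespace Pool.H82.SC

open Finset

/-- multigraph from lists -/
def ofList (n : ℕ) (S T W : List ℕ) (hS : ∀ e < S.length, S.getD e 0 < n)
    (hT : ∀ e < S.length, T.getD e 0 < n) : MG where
  V := range n
  E := range S.length
  s := fun e => S.getD e 0
  t := fun e => T.getD e 0
  w := fun e => W.getD e 0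
  hs := fun e he => mem_range.2 (hS e (mem_range.1 he))
  ht := fun e he => mem_range.2 (hT e (mem_range.1 he))

/-- the weighted `K4` -/
def K4 (a b c : ℕ) : MG :=
  ofList 4 [0, 2, 0, 1, 0, 1] [1, 3, 2, 3, 3, 2] [a, a, b, b, c, c] (by decide) (by decide)

/-- the weighted eight-vertex graph -/
def G8 (w0 w1 w2 w3 w4 w5 w6 w7 : ℕ) : MG :=
  ofList 8 [0, 2, 4, 4, 5, 5, 4, 6, 6, 7, 6, 7] [1, 3, 0, 1, 2, 3, 5, 7, 0, 1, 2, 3]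
    [w0, w1, w2, w3, w4, w5, w6, w7, 1, 1, 1, 1] (by decide) (by decide)

lemma z2_iff {z : Finset ℕ} {a b c : ℕ}
    (h : (if a ∈ z then (1 : ZMod 2) else 0) + (if b ∈ z then 1 else 0) +
      (if c ∈ z then 1 else 0) = 0) : c ∈ z ↔ ¬ (a ∈ z ↔ b ∈ z) := by
  by_cases ha : a ∈ z <;> by_cases hb : b ∈ z <;> by_cases hc : c ∈ z <;>
    simp [ha, hb, hc] at h ⊢ <;> revert h <;> decide

lemma sum_sub_range {z : Finset ℕ} {n : ℕ} (hz : z ⊆ range n) {M : Type*} [AddCommMonoid M]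
    (f : ℕ → M) : ∑ e ∈ z, f e = ∑ e ∈ range n, if e ∈ z then f e else 0 := by
  rw [← sum_filter]
  apply sum_congr _ (fun _ _ => rfl)
  ext x
  rw [mem_filter]
  exact ⟨fun h => ⟨hz h, h⟩, fun h => h.2⟩

theorem K4_Cyc {a b c n : ℕ} (h1 : n ≤ a + b + c) (h2 : n ≤ 2 * (a + b)) (h3 : n ≤ 2 * (a + c))
    (h4 : n ≤ 2 * (b + c)) : (K4 a b c).Cyc n := by
  intro z hz hne
  have hzE : z ⊆ range 6 := hz.1
  have hb : ∀ v, ∑ e ∈ range 6, (if e ∈ z then (K4 a b c).inc e v else 0) = 0 := by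
    intro v
    rw [← sum_sub_range hzE]
    exact hz.2 v
  have hw : (K4 a b c).wt z = ∑ e ∈ range 6, if e ∈ z then (K4 a b c).w e else 0 :=
    sum_sub_range hzE _
  rw [hw]
  have b0 := hb 0
  have b1 := hb 1
  have b2 := hb 2
  simp only [sum_range_succ, range_zero, sum_empty, MG.inc, K4, ofList] at b0 b1 b2 ⊢
  simp at b0 b1 b2
  have e0 : 4 ∈ z ↔ ¬ (0 ∈ z ↔ 2 ∈ z) := z2_iff b0
  have e1 : 5 ∈ z ↔ ¬ (0 ∈ z ↔ 3 ∈ z) := z2_iff b1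
  have e2 : 5 ∈ z ↔ ¬ (1 ∈ z ↔ 2 ∈ z) := z2_iff b2
  have hne' : 0 ∈ z ∨ 1 ∈ z ∨ 2 ∈ z ∨ 3 ∈ z ∨ 4 ∈ z ∨ 5 ∈ z := by
    obtain ⟨e, he⟩ := hne
    have := mem_range.1 (hzE he)
    interval_cases e <;> tauto
  by_cases m0 : 0 ∈ z <;> by_cases m2 : 2 ∈ z <;> by_cases m3 : 3 ∈ z <;>
    by_cases m1 : 1 ∈ z <;> simp [m0, m1, m2, m3] at e0 e1 e2 hne' ⊢ <;>
    simp [e0, e1, e2] at hne' ⊢ <;> first | omega | (exfalso; tauto)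

theorem K4_D {a b c : ℕ} (ha : Odd a) (hb : Odd b) (hc : Odd c) :
    ∀ X ⊆ (K4 a b c).V, (2 : ℤ) ≤ (K4 a b c).D X := by
  intro X hX
  have hXV : X ⊆ range 4 := hX
  rw [← Nat.not_even_iff_odd] at ha hb hc
  have hcard : (#X : ℤ) = ∑ v ∈ range 4, if v ∈ X then 1 else 0 := by
    rw [← sum_sub_range hXV, sum_const, nsmul_eq_mul, mul_one]
  have hD : (K4 a b c).D X = (4 : ℤ) - 2 * #X + ∑ e ∈ range 6, (K4 a b c).phi X e := by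
    simp [MG.D, K4, ofList]
  rw [hD, hcard]
  simp only [sum_range_succ, range_zero, sum_empty, MG.phi, K4, ofList]
  simp [ha, hb, hc]
  have key : ∀ p0 p1 p2 p3 : Bool, (2 : ℤ) ≤ 4 - 2 * ((if p0 then 1 else 0) +
      (if p1 then 1 else 0) + (if p2 then 1 else 0) + (if p3 then 1 else 0)) +
      ((if p0 ∧ p1 then 2 else 0) + (if p2 ∧ p3 then 2 else 0) + (if p0 ∧ p2 then 2 else 0) +
      (if p1 ∧ p3 then 2 else 0) + (if p0 ∧ p3 then 2 else 0) + (if p1 ∧ p2 then 2 else 0)) := by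
    decide
  have := key (decide (0 ∈ X)) (decide (1 ∈ X)) (decide (2 ∈ X)) (decide (3 ∈ X))
  simpa using this

theorem G8_Cyc {w0 w1 w2 w3 w4 w5 w6 w7 n : ℕ}
    (H : ∀ m0 m1 m2 m3 m4 : Bool, (m0 || m1 || m2 || m3 || m4) = true →
      n ≤ (if m0 then w0 else 0) + (if m1 then w1 else 0) + (if m2 then w2 else 0) +
        (if m3 then w3 else 0) + (if m4 then w4 else 0) +
        (if (m4 ^^ (m2 ^^ m3)) then w5 else 0) + (if (m2 ^^ m3) then w6 else 0) +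
        (if ((m0 ^^ m2) ^^ (m1 ^^ m4)) then w7 else 0) + (if (m0 ^^ m2) then 1 else 0) +
        (if (m0 ^^ m3) then 1 else 0) + (if (m1 ^^ m4) then 1 else 0) +
        (if (m1 ^^ (m4 ^^ (m2 ^^ m3))) then 1 else 0)) :
    (G8 w0 w1 w2 w3 w4 w5 w6 w7).Cyc n := by
  intro z hz hne
  have hzE : z ⊆ range 12 := hz.1
  have hb : ∀ v, ∑ e ∈ range 12, (if e ∈ z then (G8 w0 w1 w2 w3 w4 w5 w6 w7).inc e v else 0) =
      0 := by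
    intro v
    rw [← sum_sub_range hzE]
    exact hz.2 v
  have hw : (G8 w0 w1 w2 w3 w4 w5 w6 w7).wt z =
      ∑ e ∈ range 12, if e ∈ z then (G8 w0 w1 w2 w3 w4 w5 w6 w7).w e else 0 :=
    sum_sub_range hzE _
  rw [hw]
  have b0 := hb 0
  have b1 := hb 1
  have b2 := hb 2
  have b3 := hb 3
  have b4 := hb 4
  have b5 := hb 5
  have b6 := hb 6
  simp only [sum_range_succ, range_zero, sum_empty, MG.inc, G8, ofList] at b0 b1 b2 b3 b4 b5 b6 ⊢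
  simp at b0 b1 b2 b3 b4 b5 b6
  have e8 : 8 ∈ z ↔ ¬ (0 ∈ z ↔ 2 ∈ z) := z2_iff b0
  have e9 : 9 ∈ z ↔ ¬ (0 ∈ z ↔ 3 ∈ z) := z2_iff b1
  have e10 : 10 ∈ z ↔ ¬ (1 ∈ z ↔ 4 ∈ z) := z2_iff b2
  have e11 : 11 ∈ z ↔ ¬ (1 ∈ z ↔ 5 ∈ z) := z2_iff b3
  have e6 : 6 ∈ z ↔ ¬ (2 ∈ z ↔ 3 ∈ z) := z2_iff b4
  have e5 : 6 ∈ z ↔ ¬ (4 ∈ z ↔ 5 ∈ z) := z2_iff b5
  have e7 : 10 ∈ z ↔ ¬ (7 ∈ z ↔ 8 ∈ z) := z2_iff b6
  have hne' : 0 ∈ z ∨ 1 ∈ z ∨ 2 ∈ z ∨ 3 ∈ z ∨ 4 ∈ z ∨ 5 ∈ z ∨ 6 ∈ z ∨ 7 ∈ z ∨ 8 ∈ z ∨ 9 ∈ z ∨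
      10 ∈ z ∨ 11 ∈ z := by
    obtain ⟨e, he⟩ := hne
    have := mem_range.1 (hzE he)
    clear e5 e6 e7 e8 e9 e10 e11 b0 b1 b2 b3 b4 b5 b6 hb hw H
    interval_cases e <;> simp [he]
  have f6 : 6 ∈ z ↔ (decide (2 ∈ z) ^^ decide (3 ∈ z)) = true := by
    rw [e6]
    by_cases a : 2 ∈ z <;> by_cases b : 3 ∈ z <;> simp [a, b]
  have f8 : 8 ∈ z ↔ (decide (0 ∈ z) ^^ decide (2 ∈ z)) = true := by
    rw [e8]
    by_cases a : 0 ∈ z <;> by_cases b : 2 ∈ z <;> simp [a, b]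
  have f9 : 9 ∈ z ↔ (decide (0 ∈ z) ^^ decide (3 ∈ z)) = true := by
    rw [e9]
    by_cases a : 0 ∈ z <;> by_cases b : 3 ∈ z <;> simp [a, b]
  have f10 : 10 ∈ z ↔ (decide (1 ∈ z) ^^ decide (4 ∈ z)) = true := by
    rw [e10]
    by_cases a : 1 ∈ z <;> by_cases b : 4 ∈ z <;> simp [a, b]
  have f5 : 5 ∈ z ↔ (decide (4 ∈ z) ^^ (decide (2 ∈ z) ^^ decide (3 ∈ z))) = true := by
    rw [e6] at e5
    by_cases a : 2 ∈ z <;> by_cases b : 3 ∈ z <;> by_cases c : 4 ∈ z <;>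
      by_cases d : 5 ∈ z <;> simp [a, b, c, d] at e5 ⊢
  have f7 : 7 ∈ z ↔ ((decide (0 ∈ z) ^^ decide (2 ∈ z)) ^^ (decide (1 ∈ z) ^^ decide (4 ∈ z))) =
      true := by
    rw [e8, e10] at e7
    by_cases a : 2 ∈ z <;> by_cases b : 0 ∈ z <;> by_cases c : 4 ∈ z <;>
      by_cases d : 1 ∈ z <;> by_cases k : 7 ∈ z <;> simp [a, b, c, d, k] at e7 ⊢
  have f11 : 11 ∈ z ↔ (decide (1 ∈ z) ^^ (decide (4 ∈ z) ^^ (decide (2 ∈ z) ^^ decide (3 ∈ z)))) =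
      true := by
    rw [e11, f5]
    by_cases a : 2 ∈ z <;> by_cases b : 3 ∈ z <;> by_cases c : 4 ∈ z <;>
      by_cases d : 1 ∈ z <;> simp [a, b, c, d]
  have hsome : 0 ∈ z ∨ 1 ∈ z ∨ 2 ∈ z ∨ 3 ∈ z ∨ 4 ∈ z := by
    by_contra hcon
    push Not at hcon
    obtain ⟨c0, c1, c2, c3, c4⟩ := hcon
    simp [c0, c1, c2, c3, c4] at f5 f6 f7 f8 f9 f10 f11
    simp [c0, c1, c2, c3, c4, f5, f6, f7, f8, f9, f10, f11] at hne'
  have hH := H (decide (0 ∈ z)) (decide (1 ∈ z)) (decide (2 ∈ z)) (decide (3 ∈ z))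
    (decide (4 ∈ z)) (by simpa [or_assoc] using hsome)
  clear H b0 b1 b2 b3 b4 b5 b6 e5 e6 e7 e8 e9 e10 e11 hb hw hne' hsome
  simp only [decide_eq_true_eq] at hH
  simp only [f5, f6, f7, f8, f9, f10, f11, List.getD_cons_succ, List.getD_cons_zero, List.length]
  refine hH.trans (le_of_eq ?_)
  simp

theorem G8_D {w0 w1 w2 w3 w4 w5 w6 w7 : ℕ} (h0 : Odd w0) (h1 : Odd w1) (h2 : Odd w2)
    (h3 : Odd w3) (h4 : Odd w4) (h5 : Odd w5) (h6 : Odd w6) (h7 : Even w7) :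
    ∀ X ⊆ (G8 w0 w1 w2 w3 w4 w5 w6 w7).V, (3 : ℤ) ≤ (G8 w0 w1 w2 w3 w4 w5 w6 w7).D X := by
  intro X hX
  have hXV : X ⊆ range 8 := hX
  rw [← Nat.not_even_iff_odd] at h0 h1 h2 h3 h4 h5 h6
  have hcard : (#X : ℤ) = ∑ v ∈ range 8, if v ∈ X then 1 else 0 := by
    rw [← sum_sub_range hXV, sum_const, nsmul_eq_mul, mul_one]
  have hD : (G8 w0 w1 w2 w3 w4 w5 w6 w7).D X =
      (8 : ℤ) - 2 * #X + ∑ e ∈ range 12, (G8 w0 w1 w2 w3 w4 w5 w6 w7).phi X e := by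
    simp [MG.D, G8, ofList]
  rw [hD, hcard]
  simp only [sum_range_succ, range_zero, sum_empty, MG.phi, G8, ofList]
  simp [h0, h1, h2, h3, h4, h5, h6, h7]
  have key : ∀ p0 p1 p2 p3 p4 p5 p6 p7 : Bool, (3 : ℤ) ≤ 8 - 2 * ((if p0 then 1 else 0) +
      (if p1 then 1 else 0) + (if p2 then 1 else 0) + (if p3 then 1 else 0) +
      (if p4 then 1 else 0) + (if p5 then 1 else 0) + (if p6 then 1 else 0) +
      (if p7 then 1 else 0)) +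
      ((if p0 ∧ p1 then 2 else 0) + (if p2 ∧ p3 then 2 else 0) + (if p4 ∧ p0 then 2 else 0) +
      (if p4 ∧ p1 then 2 else 0) + (if p5 ∧ p2 then 2 else 0) + (if p5 ∧ p3 then 2 else 0) +
      (if p4 ∧ p5 then 2 else 0) + (if p6 ∨ p7 then 1 else -1) + (if p6 ∧ p0 then 2 else 0) +
      (if p7 ∧ p1 then 2 else 0) + (if p6 ∧ p2 then 2 else 0) + (if p7 ∧ p3 then 2 else 0)) := by
    decide
  have := key (decide (0 ∈ X)) (decide (1 ∈ X)) (decide (2 ∈ X)) (decide (3 ∈ X))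
    (decide (4 ∈ X)) (decide (5 ∈ X)) (decide (6 ∈ X)) (decide (7 ∈ X))
  simpa using this

lemma K4_pos {a b c : ℕ} (ha : 1 ≤ a) (hb : 1 ≤ b) (hc : 1 ≤ c) :
    ∀ f ∈ (K4 a b c).E, 1 ≤ (K4 a b c).w f := by
  intro f hf
  have hf' : f ∈ range 6 := hf
  rw [mem_range] at hf'
  interval_cases f <;> simp [K4, ofList, ha, hb, hc]

lemma K4_W (a b c : ℕ) : (K4 a b c).W = 2 * (a + b + c) := by
  simp [MG.W, MG.wt, K4, ofList, sum_range_succ]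
  ring

lemma G8_pos {w0 w1 w2 w3 w4 w5 w6 w7 : ℕ} (h0 : 1 ≤ w0) (h1 : 1 ≤ w1) (h2 : 1 ≤ w2)
    (h3 : 1 ≤ w3) (h4 : 1 ≤ w4) (h5 : 1 ≤ w5) (h6 : 1 ≤ w6) (h7 : 1 ≤ w7) :
    ∀ f ∈ (G8 w0 w1 w2 w3 w4 w5 w6 w7).E, 1 ≤ (G8 w0 w1 w2 w3 w4 w5 w6 w7).w f := by
  intro f hf
  have hf' : f ∈ range 12 := hf
  rw [mem_range] at hf'
  interval_cases f <;> simp [G8, ofList, h0, h1, h2, h3, h4, h5, h6, h7]

lemma G8_W (w0 w1 w2 w3 w4 w5 w6 w7 : ℕ) : (G8 w0 w1 w2 w3 w4 w5 w6 w7).W =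
    w0 + w1 + w2 + w3 + w4 + w5 + w6 + w7 + 4 := by
  simp [MG.W, MG.wt, G8, ofList, sum_range_succ]

/-- the graphs for the lower bound on `2m` vertices -/
theorem base_two {g : ℕ} (hg : 7 ≤ g) (ho : Odd g) : ∃ K : MG, K.Cyc g ∧
    (∀ f ∈ K.E, 1 ≤ K.w f) ∧ (∀ X ⊆ K.V, (2 : ℤ) ≤ K.D X) ∧ #K.V + K.W + 2 = #K.E + 2 * g := by
  obtain ⟨t, ht⟩ : ∃ t, g = 4 * t + 1 ∨ g = 4 * t + 3 := by
    rw [Nat.odd_iff] at ho
    exact ⟨g / 4, by omega⟩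
  rcases ht with ht | ht
  · refine ⟨K4 (2 * t - 1) (2 * t - 1) 3, K4_Cyc (by omega) (by omega) (by omega) (by omega),
      K4_pos (by omega) (by omega) (by omega), K4_D ?_ ?_ ?_, ?_⟩
    · rw [Nat.odd_iff]; omega
    · rw [Nat.odd_iff]; omega
    · decide
    · rw [K4_W]
      simp [K4, ofList]
      omega
  · refine ⟨K4 (2 * t + 1) (2 * t + 1) 1, K4_Cyc (by omega) (by omega) (by omega) (by omega),
      K4_pos (by omega) (by omega) (by omega), K4_D ?_ ?_ ?_, ?_⟩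
    · rw [Nat.odd_iff]; omega
    · rw [Nat.odd_iff]; omega
    · decide
    · rw [K4_W]
      simp [K4, ofList]
      omega

/-- the graphs for the lower bound on `2m+1` vertices -/
theorem base_three {g : ℕ} (hg : 7 ≤ g) (ho : Odd g) : ∃ K : MG, K.Cyc g ∧
    (∀ f ∈ K.E, 1 ≤ K.w f) ∧ (∀ X ⊆ K.V, (3 : ℤ) ≤ K.D X) ∧ #K.V + K.W + 4 = #K.E + 3 * g := by
  obtain ⟨k, r, s, A, B, C, hk, h1, h2, h3, h4, h5⟩ : ∃ k r s A B C : ℕ, 1 ≤ k ∧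
      ((g = 4 * k + 1 ∧ 2 ≤ k) ∨ g = 4 * k + 3) ∧
      r + s = 2 * k + 2 ∧ ((r = s ∧ k % 2 = 0) ∨ (s = r + 2 ∧ k % 2 = 1)) ∧
      A + (2 * k + 2) = g ∧ B + 2 + (2 * k + 2) = g ∧ C = 2 * k := by
    rw [Nat.odd_iff] at ho
    rcases Nat.even_or_odd' (g / 4) with ⟨j, hj | hj⟩
    · exact ⟨g / 4, g / 4 + 1, g / 4 + 1, g - (2 * (g / 4) + 2), g - 2 - (2 * (g / 4) + 2),
        2 * (g / 4), by omega, by omega, by omega, Or.inl ⟨rfl, by omega⟩, by omega, by omega,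
        rfl⟩
    · exact ⟨g / 4, g / 4, g / 4 + 2, g - (2 * (g / 4) + 2), g - 2 - (2 * (g / 4) + 2),
        2 * (g / 4), by omega, by omega, by omega, Or.inr ⟨rfl, by omega⟩, by omega, by omega,
        rfl⟩
  refine ⟨G8 A A r s s r B C, G8_Cyc ?_, G8_pos ?_ ?_ ?_ ?_ ?_ ?_ ?_ ?_,
    G8_D ?_ ?_ ?_ ?_ ?_ ?_ ?_ ?_, ?_⟩
  · intro m0 m1 m2 m3 m4 hm
    revert hm
    cases m0 <;> cases m1 <;> cases m2 <;> cases m3 <;> cases m4 <;> simp <;> omega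
  any_goals omega
  any_goals (rw [Nat.odd_iff]; omega)
  · rw [Nat.even_iff]; omega
  · rw [G8_W]
    simp [G8, ofList]
    omega

/-- the special graph on 13 vertices -/
theorem base_five : ∃ K : MG, K.Cyc 5 ∧
    (∀ f ∈ K.E, 1 ≤ K.w f) ∧ (∀ X ⊆ K.V, (3 : ℤ) ≤ K.D X) ∧ #K.V + K.W = #K.E + 13 := by
  refine ⟨G8 1 1 1 3 1 3 1 2, G8_Cyc (by decide), G8_pos ?_ ?_ ?_ ?_ ?_ ?_ ?_ ?_,
    G8_D ?_ ?_ ?_ ?_ ?_ ?_ ?_ ?_, ?_⟩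
  any_goals omega
  any_goals decide

end Pool.H82.SC
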