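import Mathlib

/-! Weighted multigraphs: cycle space, independence functional. -/

namespace Pool.H82.SC

open Finset

/-- A finite multigraph with natural weights; vertices and edges are natural numbers. -/
structure MG where
  V : Finset ℕ
  E : Finset ℕ
  s : ℕ → ℕ
  t : ℕ → ℕ
  w : ℕ → ℕ
  hs : ∀ e ∈ E, s e ∈ V
  ht : ∀ e ∈ E, t e ∈ V

namespace MG

variable (K : MG)

/-- incidence mod 2 -/
def inc (e v : ℕ) : ZMod 2 := (if K.s e = v then 1 else 0) + (if K.t e = v then 1 else 0)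

/-- boundary mod 2 -/
def bd (z : Finset ℕ) (v : ℕ) : ZMod 2 := ∑ e ∈ z, K.inc e v

/-- even edge sets -/
def Ev (z : Finset ℕ) : Prop := z ⊆ K.E ∧ ∀ v, K.bd z v = 0

/-- weight -/
def wt (z : Finset ℕ) : ℕ := ∑ e ∈ z, K.w e

/-- every nonempty even edge set has weight at least `h` -/
def Cyc (h : ℕ) : Prop := ∀ z, K.Ev z → z.Nonempty → h ≤ K.wt z

/-- incidence number -/
def incN (e v : ℕ) : ℕ := (if K.s e = v then 1 else 0) + (if K.t e = v then 1 else 0)

/-- degree -/
def deg (v : ℕ) : ℕ := ∑ e ∈ K.E, K.incN e v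

/-- edges at `v` -/
def star (v : ℕ) : Finset ℕ := K.E.filter fun e => K.s e = v ∨ K.t e = v

def NoLoops : Prop := ∀ e ∈ K.E, K.s e ≠ K.t e

/-- induced submultigraph -/
@[simps] def ind (S : Finset ℕ) : MG where
  V := S
  E := K.E.filter fun e => K.s e ∈ S ∧ K.t e ∈ S
  s := K.s
  t := K.t
  w := K.w
  hs := fun e he => (mem_filter.1 he).2.1
  ht := fun e he => (mem_filter.1 he).2.2

/-- sub-multigraph with fewer edges -/
@[simps] def sube (F : Finset ℕ) (hF : F ⊆ K.E) : MG where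
  V := K.V
  E := F
  s := K.s
  t := K.t
  w := K.w
  hs := fun e he => K.hs e (hF he)
  ht := fun e he => K.ht e (hF he)

/-- parity-bipartite -/
def Bip : Prop := ∃ c : ℕ → Bool, ∀ e ∈ K.E, (c (K.s e) = c (K.t e) ↔ Even (K.w e))

/-- contribution of an edge -/
def phi (X : Finset ℕ) (e : ℕ) : ℤ :=
  if Even (K.w e) then (if K.s e ∈ X ∨ K.t e ∈ X then 1 else -1)
  else (if K.s e ∈ X ∧ K.t e ∈ X then 2 else 0)

/-- the independence functional -/
def D (X : Finset ℕ) : ℤ := (#K.V : ℤ) - 2 * #X + ∑ e ∈ K.E, K.phi X e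

/-- number of even edges -/
def ev : Finset ℕ := K.E.filter fun e => Even (K.w e)

lemma zmod2_add_self (a : ZMod 2) : a + a = 0 := CharTwo.add_self_eq_zero a

lemma sum_symmDiff (f : ℕ → ZMod 2) (a b : Finset ℕ) :
    ∑ e ∈ symmDiff a b, f e = ∑ e ∈ a, f e + ∑ e ∈ b, f e := by
  have h1 : symmDiff a b = (a \ b) ∪ (b \ a) := rfl
  rw [h1, sum_union (by
    rw [disjoint_left]; intro x hx hy
    simp only [mem_sdiff] at hx hy; exact hx.2 hy.1)]
  have ha : ∑ e ∈ a, f e = ∑ e ∈ a \ b, f e + ∑ e ∈ a ∩ b, f e := by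
    rw [← sum_union (by
      rw [disjoint_left]; intro x hx hy
      simp only [mem_sdiff, mem_inter] at hx hy; exact hx.2 hy.2), sdiff_union_inter]
  have hb : ∑ e ∈ b, f e = ∑ e ∈ b \ a, f e + ∑ e ∈ a ∩ b, f e := by
    rw [inter_comm a b, ← sum_union (by
      rw [disjoint_left]; intro x hx hy
      simp only [mem_sdiff, mem_inter] at hx hy; exact hx.2 hy.2), sdiff_union_inter]
  rw [ha, hb]
  have := zmod2_add_self (∑ e ∈ a ∩ b, f e)
  linear_combination (-1 : ZMod 2) * this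

lemma bd_symmDiff (a b : Finset ℕ) (v : ℕ) :
    K.bd (symmDiff a b) v = K.bd a v + K.bd b v := sum_symmDiff _ a b

lemma Ev.symmDiff {K : MG} {a b : Finset ℕ} (ha : K.Ev a) (hb : K.Ev b) :
    K.Ev (symmDiff a b) := by
  refine ⟨?_, fun v => by rw [K.bd_symmDiff, ha.2, hb.2, add_zero]⟩
  intro x hx
  rw [Finset.mem_symmDiff] at hx
  rcases hx with h | h
  · exact ha.1 h.1
  · exact hb.1 h.1

lemma bd_empty (v : ℕ) : K.bd ∅ v = 0 := by simp [bd]

lemma ev_empty : K.Ev ∅ := ⟨empty_subset _, fun v => K.bd_empty v⟩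

/-- parity of weights -/
lemma wt_symmDiff_cast (a b : Finset ℕ) :
    ((K.wt (symmDiff a b) : ℕ) : ZMod 2) = K.wt a + K.wt b := by
  simp only [wt, Nat.cast_sum]
  exact sum_symmDiff _ a b

lemma natCast_zmod2_eq_zero {n : ℕ} : ((n : ℕ) : ZMod 2) = 0 ↔ Even n := by
  rw [ZMod.natCast_eq_zero_iff, even_iff_two_dvd]

lemma bd_not_mem {z : Finset ℕ} (hz : z ⊆ K.E) {v : ℕ} (hv : v ∉ K.V) : K.bd z v = 0 := by
  apply sum_eq_zero
  intro e he
  have h1 := K.hs e (hz he)
  have h2 := K.ht e (hz he)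
  have h3 : K.s e ≠ v := fun h => hv (h ▸ h1)
  have h4 : K.t e ≠ v := fun h => hv (h ▸ h2)
  simp [inc, h3, h4]

lemma sum_bd {z : Finset ℕ} (hz : z ⊆ K.E) : ∑ v ∈ K.V, K.bd z v = 0 := by
  unfold bd
  rw [sum_comm]
  apply sum_eq_zero
  intro e he
  have h1 := K.hs e (hz he)
  have h2 := K.ht e (hz he)
  simp only [inc, sum_add_distrib, sum_ite_eq, h1, h2, if_true]
  exact zmod2_add_self 1

/-- the basic existence lemma -/
lemma exists_even (hV : K.V.Nonempty) (hE : #K.V ≤ #K.E) : ∃ z, K.Ev z ∧ z.Nonempty := by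
  classical
  obtain ⟨v0, hv0⟩ := hV
  let f : Finset ℕ → Finset ℕ := fun z => (K.V.erase v0).filter fun v => K.bd z v ≠ 0
  have hmaps : ∀ z ∈ K.E.powerset, f z ∈ (K.V.erase v0).powerset := by
    intro z _
    exact mem_powerset.2 (filter_subset _ _)
  have hcard : #(K.V.erase v0).powerset < #K.E.powerset := by
    rw [card_powerset, card_powerset, card_erase_of_mem hv0]
    apply Nat.pow_lt_pow_right (by norm_num)
    have : 0 < #K.V := card_pos.2 ⟨v0, hv0⟩
    omega
  obtain ⟨a, ha, b, hb, hab, hf⟩ := exists_ne_map_eq_of_card_lt_of_maps_to hcard hmaps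
  rw [mem_powerset] at ha hb
  have hsub : symmDiff a b ⊆ K.E := by
    intro x hx
    rw [Finset.mem_symmDiff] at hx
    rcases hx with h | h
    · exact ha h.1
    · exact hb h.1
  have hz : ∀ v, v ≠ v0 → K.bd (symmDiff a b) v = 0 := by
    intro v hv
    by_cases hvV : v ∈ K.V
    · rw [K.bd_symmDiff]
      have hiff : K.bd a v ≠ 0 ↔ K.bd b v ≠ 0 := by
        have := congrArg (fun s => v ∈ s) hf
        simp only [f, mem_filter, mem_erase, eq_iff_iff] at this
        constructor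
        · intro h; exact (this.1 ⟨⟨hv, hvV⟩, h⟩).2
        · intro h; exact (this.2 ⟨⟨hv, hvV⟩, h⟩).2
      have key : ∀ p q : ZMod 2, (p ≠ 0 ↔ q ≠ 0) → p + q = 0 := by decide
      exact key _ _ hiff
    · exact K.bd_not_mem hsub hvV
  refine ⟨symmDiff a b, ⟨hsub, fun v => ?_⟩, ?_⟩
  · by_cases hv : v = v0
    · subst hv
      have h1 := K.sum_bd hsub
      rw [← add_sum_erase _ _ hv0, sum_eq_zero (s := K.V.erase v), add_zero] at h1
      · exact h1
      · intro x hx
        exact hz x (mem_erase.1 hx).1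
    · exact hz v hv
  · rw [nonempty_iff_ne_empty]
    intro h
    apply hab
    exact symmDiff_eq_bot.1 h

end MG
end Pool.H82.SC
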