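import Pool.Agent.H82.SC.Three

set_option linter.unusedSimpArgs false
set_option linter.unusedVariables false

namespace Pool.H82.SC

open Finset

/-- a finite graph with an edge and no leaves has a cycle -/
lemma exists_cycle_of_two {V : Type*} [Finite V] (H : SimpleGraph V) (hne : ∃ u w, H.Adj u w)
    (h2 : ∀ u w, H.Adj u w → ∃ w', w' ≠ w ∧ H.Adj u w') :
    ∃ (v : V) (c : H.Walk v v), c.IsCycle := by
  by_contra hcon
  have hac : H.IsAcyclic := by
    intro v c hc
    exact hcon ⟨v, c, hc⟩
  obtain ⟨u0, w0, hadj0⟩ := hne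
  haveI : Nonempty V := ⟨u0⟩
  obtain ⟨u, v, p, hp, hmax⟩ := SimpleGraph.Walk.exists_isPath_forall_isPath_length_le_length H
  have hnil : ¬ p.Nil := by
    intro hn
    have h1 : p.length = 0 := SimpleGraph.Walk.nil_iff_length_eq.1 hn
    have h3 := hmax u0 w0 (SimpleGraph.Walk.cons hadj0 SimpleGraph.Walk.nil) (by
      simp [hadj0.ne])
    simp [h1] at h3
  obtain ⟨w', hw', hadj⟩ := h2 u p.snd (p.adj_snd hnil)
  by_cases hs : w' ∈ p.support
  · exact hw' (hac.eq_snd_of_adj_start hp hadj hs)
  · have hp' : (SimpleGraph.Walk.cons hadj.symm p).IsPath := by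
      rw [SimpleGraph.Walk.cons_isPath_iff]
      exact ⟨hp, hs⟩
    have := hmax _ _ _ hp'
    simp at this

section ofG

variable {N : ℕ} (G : SimpleGraph (Fin N))

def adjN (i j : ℕ) : Prop := ∃ (h1 : i < N) (h2 : j < N), G.Adj ⟨i, h1⟩ ⟨j, h2⟩

open Classical in
/-- the multigraph of a simple graph -/
noncomputable def ofG : MG where
  V := range N
  E := ((range N ×ˢ range N).filter fun p => p.1 < p.2 ∧ adjN G p.1 p.2).image
    fun p => Nat.pair p.1 p.2
  s := fun e => (Nat.unpair e).1
  t := fun e => (Nat.unpair e).2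
  w := fun _ => 1
  hs := by
    intro e he
    simp only [mem_image, mem_filter, mem_product] at he
    obtain ⟨⟨i, j⟩, ⟨⟨h1, h2⟩, -⟩, rfl⟩ := he
    simpa using h1
  ht := by
    intro e he
    simp only [mem_image, mem_filter, mem_product] at he
    obtain ⟨⟨i, j⟩, ⟨⟨h1, h2⟩, -⟩, rfl⟩ := he
    simpa using h2

lemma mem_ofG_E {e : ℕ} : e ∈ (ofG G).E ↔
    (Nat.unpair e).1 < (Nat.unpair e).2 ∧ adjN G (Nat.unpair e).1 (Nat.unpair e).2 := by
  unfold ofG
  simp only [mem_image, mem_filter, mem_product, mem_range]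
  constructor
  · rintro ⟨⟨i, j⟩, ⟨⟨h1, h2⟩, h3⟩, rfl⟩
    simpa using h3
  · rintro ⟨h1, h2⟩
    obtain ⟨a, b, h3⟩ := h2
    exact ⟨Nat.unpair e, ⟨⟨a, b⟩, h1, ⟨a, b, h3⟩⟩, by simp⟩

lemma ofG_noLoops : (ofG G).NoLoops := by
  intro e he hst
  have h1 := (mem_ofG_E G).1 he
  have : (Nat.unpair e).1 = (Nat.unpair e).2 := hst
  omega

lemma ofG_unit : ∀ e ∈ (ofG G).E, (ofG G).w e = 1 := fun _ _ => rfl

theorem ofG_Cyc {n : ℕ} (hG : ∀ (v : Fin N) (c : G.Walk v v), c.IsCycle → n < c.length) :
    (ofG G).Cyc (n + 1) := by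
  classical
  intro z hz hne
  have hE : ∀ e ∈ z, (Nat.unpair e).1 < (Nat.unpair e).2 ∧
      adjN G (Nat.unpair e).1 (Nat.unpair e).2 := fun e he => (mem_ofG_E G).1 (hz.1 he)
  let H : SimpleGraph (Fin N) :=
    { Adj := fun a b => Nat.pair a b ∈ z ∨ Nat.pair b a ∈ z
      symm := ⟨fun a b h => Or.symm h⟩
      loopless := ⟨fun a h => by
        have h' : Nat.pair a a ∈ z := by simpa using h
        have := hE _ h'
        simp at this⟩ }
  have hadj : ∀ {a b : Fin N}, H.Adj a b ↔ (Nat.pair a b ∈ z ∨ Nat.pair b a ∈ z) := by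
    intro a b; exact Iff.rfl
  have hle : H ≤ G := by
    intro a b hab
    rw [hadj] at hab
    rcases hab with h | h
    · obtain ⟨_, _, _, h1⟩ := hE _ h
      simpa using h1
    · obtain ⟨_, _, _, h1⟩ := hE _ h
      exact (by simpa using h1 : G.Adj b a).symm
  have hof : ∀ e ∈ z, ∃ a b : Fin N, a.val = (ofG G).s e ∧ b.val = (ofG G).t e ∧
      e = Nat.pair a b ∧ a.val < b.val := by
    intro e he
    obtain ⟨h1, h2, h3, -⟩ := hE e he
    exact ⟨⟨_, h2⟩, ⟨_, h3⟩, rfl, rfl, by simp, h1⟩
  obtain ⟨v, c, hc⟩ := exists_cycle_of_two H (by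
    obtain ⟨e, he⟩ := hne
    obtain ⟨a, b, -, -, h1, -⟩ := hof e he
    exact ⟨a, b, Or.inl (h1 ▸ he)⟩) (by
    intro u w huw
    by_contra hno
    push Not at hno
    -- the unique edge at u
    obtain ⟨e0, he0, hinc⟩ : ∃ e0 ∈ z, (e0 = Nat.pair u w ∧ u.val < w.val) ∨
        (e0 = Nat.pair w u ∧ w.val < u.val) := by
      rw [hadj] at huw
      rcases huw with h | h
      · have := (hE _ h).1
        simp only [Nat.unpair_pair] at this
        exact ⟨_, h, Or.inl ⟨rfl, this⟩⟩
      · have := (hE _ h).1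
        simp only [Nat.unpair_pair] at this
        exact ⟨_, h, Or.inr ⟨rfl, this⟩⟩
    have hne : u.val ≠ w.val := by rcases hinc with h | h <;> omega
    have huniq : ∀ f ∈ z, ((ofG G).s f = u ∨ (ofG G).t f = u) → f = e0 := by
      intro f hf hfu
      obtain ⟨a, b, h1, h2, h3, h4⟩ := hof f hf
      rcases hfu with h | h
      · have hau : a = u := Fin.ext (h1.trans h)
        subst hau
        have hb : b = w := by
          by_contra hbw
          exact hno b hbw (Or.inl (h3 ▸ hf))
        subst hb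
        rcases hinc with ⟨h5, h6⟩ | ⟨h5, h6⟩
        · rw [h3, h5]
        · omega
      · have hbu : b = u := Fin.ext (h2.trans h)
        subst hbu
        have ha : a = w := by
          by_contra haw
          exact hno a haw (Or.inr (h3 ▸ hf))
        subst ha
        rcases hinc with ⟨h5, h6⟩ | ⟨h5, h6⟩
        · omega
        · rw [h3, h5]
    have hb := hz.2 u
    unfold MG.bd at hb
    rw [← add_sum_erase _ _ he0, sum_eq_zero (s := z.erase e0), add_zero] at hb
    · have : (ofG G).inc e0 u = 1 := by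
        rcases hinc with ⟨h5, h6⟩ | ⟨h5, h6⟩
        · subst h5
          simp [MG.inc, ofG, hne.symm]
        · subst h5
          simp [MG.inc, ofG, hne.symm]
      rw [this] at hb
      exact one_ne_zero hb
    · intro f hf
      obtain ⟨n1, hf2⟩ := mem_erase.1 hf
      by_contra hi
      apply n1
      apply huniq f hf2
      by_contra hcc
      push Not at hcc
      apply hi
      simp [MG.inc, hcc.1, hcc.2])
  have hlen : (c.mapLe hle).length = c.length := by simp
  have h1 := hG v (c.mapLe hle) (hc.mapLe hle)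
  rw [hlen] at h1
  -- length at most card z
  have h2 : c.length ≤ #z := by
    rw [← SimpleGraph.Walk.length_edges]
    have hnd : c.edges.Nodup := hc.isCircuit.isTrail.edges_nodup
    have hnd' : (c.edges.map (Sym2.map (Fin.val : Fin N → ℕ))).Nodup :=
      hnd.map (Sym2.map.injective Fin.val_injective)
    have h3 : #((c.edges.map (Sym2.map (Fin.val : Fin N → ℕ))).toFinset) = c.edges.length := by
      rw [List.toFinset_card_of_nodup hnd', List.length_map]
    rw [← h3]
    have h4 : (c.edges.map (Sym2.map (Fin.val : Fin N → ℕ))).toFinset ⊆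
        z.image fun e => s((ofG G).s e, (ofG G).t e) := by
      intro x hx
      rw [List.mem_toFinset, List.mem_map] at hx
      obtain ⟨y, hy, rfl⟩ := hx
      have hyE := SimpleGraph.Walk.edges_subset_edgeSet c hy
      induction y using Sym2.ind with
      | _ a b =>
        rw [SimpleGraph.mem_edgeSet, hadj] at hyE
        rw [mem_image]
        rcases hyE with h | h
        · exact ⟨_, h, by simp [ofG]⟩
        · refine ⟨_, h, ?_⟩
          simp [ofG, Sym2.eq_swap]
    exact (card_le_card h4).trans card_image_le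
  have h3 : (ofG G).wt z = #z := by
    unfold MG.wt
    rw [card_eq_sum_ones]
    rfl
  omega

/-- few independent vertices means large `D` -/
theorem ofG_D {m : ℕ} (hα : ∀ s : Finset (Fin N), #s = m → ¬ G.IsIndepSet (s : Set (Fin N)))
    (X : Finset ℕ) (hX : X ⊆ (ofG G).V) : (N : ℤ) - 2 * m + 2 ≤ (ofG G).D X := by
  classical
  have hcl : (ofG G).Closed X := by
    intro e he hw
    exact absurd hw (by simp [ofG])
  rw [MG.D_closed hcl]
  have hev : (ofG G).ev = ∅ := by
    unfold MG.ev
    rw [filter_eq_empty_iff]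
    intro e he hw
    exact absurd hw (by simp [ofG])
  have hcV : #(ofG G).V = N := by simp [ofG]
  rw [hev, hcV, card_empty]
  -- the independent subset
  set I := X \ ((ofG G).ind X).E.image (ofG G).s with hI
  have hIX : I ⊆ X := sdiff_subset
  have hcI : #X ≤ #I + #((ofG G).ind X).E := by
    have h1 := le_card_sdiff (((ofG G).ind X).E.image (ofG G).s) X
    have h2 := card_image_le (s := ((ofG G).ind X).E) (f := (ofG G).s)
    rw [← hI] at h1
    omega
  have hlt : ∀ x ∈ I, x < N := by
    intro x hx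
    have := hX (hIX hx)
    simpa [ofG] using this
  let S : Finset (Fin N) := univ.filter fun a => a.val ∈ I
  have hcS : #S = #I := by
    apply card_bij (fun a _ => a.val)
    · intro a ha
      exact (mem_filter.1 ha).2
    · intro a _ b _ hab
      exact Fin.ext hab
    · intro x hx
      exact ⟨⟨x, hlt x hx⟩, by simp [S, hx], rfl⟩
  have hindep : G.IsIndepSet (S : Set (Fin N)) := by
    rw [SimpleGraph.isIndepSet_iff]
    have key : ∀ a b : Fin N, a ∈ S → b ∈ S → a.val < b.val → ¬ G.Adj a b := by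
      intro a b ha hb hab hadj
      have ha' : a.val ∈ I := (mem_filter.1 ha).2
      have hb' : b.val ∈ I := (mem_filter.1 hb).2
      have heE : Nat.pair a b ∈ (ofG G).E := by
        rw [mem_ofG_E]
        simp only [Nat.unpair_pair]
        exact ⟨hab, a.2, b.2, hadj⟩
      have hin : Nat.pair a b ∈ ((ofG G).ind X).E := by
        rw [MG.ind_E, mem_filter]
        refine ⟨heE, ?_, ?_⟩
        · show (Nat.unpair (Nat.pair a b)).1 ∈ X
          rw [Nat.unpair_pair]; exact hIX ha'
        · show (Nat.unpair (Nat.pair a b)).2 ∈ X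
          rw [Nat.unpair_pair]; exact hIX hb'
      rw [hI, mem_sdiff] at ha'
      apply ha'.2
      rw [mem_image]
      exact ⟨_, hin, by simp [ofG]⟩
    intro a ha b hb hab hadj
    rcases lt_trichotomy a.val b.val with h | h | h
    · exact key a b ha hb h hadj
    · exact hab (Fin.ext h)
    · exact key b a hb ha h hadj.symm
  have hle : #S ≤ m - 1 ∧ 1 ≤ m := by
    by_contra hcon
    have hm : m ≤ #S := by
      by_contra h
      push Not at h
      exact hcon ⟨by omega, by omega⟩
    obtain ⟨T, hT, hTc⟩ := exists_subset_card_eq hm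
    exact hα T hTc (hindep.mono (by exact_mod_cast hT))
  have h5 : #X + 1 ≤ m + #((ofG G).ind X).E := by omega
  have h6 : (#X : ℤ) + 1 ≤ m + #((ofG G).ind X).E := by exact_mod_cast h5
  push_cast
  linarith

end ofG

end Pool.H82.SC
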