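import Pool.Agent.H82.SC.ThreeC

set_option linter.unusedSimpArgs false
set_option linter.unusedVariables false

namespace Pool.H82.SC

open Finset

lemma unit_noLoops {K : MG} {n : ℕ} (hn : 2 ≤ n) (hK : K.Cyc n) (hu : ∀ f ∈ K.E, K.w f = 1) :
    K.NoLoops := by
  intro e he hst
  have h1 := hK _ (K.loop_ev he hst) (singleton_nonempty e)
  have h2 : K.wt {e} = K.w e := by simp [MG.wt]
  rw [h2, hu e he] at h1
  omega

lemma unit_noPar {K : MG} {n : ℕ} (hn : 3 ≤ n) (hK : K.Cyc n) (hu : ∀ f ∈ K.E, K.w f = 1)
    {e f : ℕ} (he : e ∈ K.E) (hf : f ∈ K.E) (hp : K.Par e f) : e = f := by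
  by_contra hne
  have h1 := hK _ (K.pair_ev he hf hne hp) (by simp)
  rw [K.wt_pair hne, hu e he, hu f hf] at h1
  omega

theorem exists_graph (K : MG) {n : ℕ} {d : ℤ} (hn : 2 ≤ n) (hK : K.Cyc (n + 1))
    (hu : ∀ f ∈ K.E, K.w f = 1) (hD : ∀ X ⊆ K.V, d ≤ K.D X) {N : ℕ} (hN : #K.V = N) :
    ∃ G : SimpleGraph (Fin N), (∀ (v : Fin N) (c : G.Walk v v), c.IsCycle → n < c.length) ∧
      ∀ s : Finset (Fin N), G.IsIndepSet (s : Set (Fin N)) → d ≤ (N : ℤ) - 2 * #s := by
  classical
  subst hN
  have hl : K.NoLoops := unit_noLoops (by omega) hK hu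
  let f : Fin #K.V → ℕ := fun a => ((K.V.equivFin.symm a : K.V) : ℕ)
  have hf : Function.Injective f := by
    intro a b hab
    exact K.V.equivFin.symm.injective (Subtype.ext hab)
  have hfV : ∀ a, f a ∈ K.V := fun a => (K.V.equivFin.symm a).2
  have hfs : ∀ v ∈ K.V, ∃ a, f a = v := by
    intro v hv
    exact ⟨K.V.equivFin ⟨v, hv⟩, by simp [f]⟩
  let G : SimpleGraph (Fin #K.V) :=
    { Adj := fun a b => ∃ e ∈ K.E, K.J e (f a) (f b)
      symm := ⟨fun a b ⟨e, he, h⟩ => ⟨e, he, h.symm⟩⟩
      loopless := ⟨fun a ⟨e, he, h⟩ => by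
        rcases h with ⟨h1, h2⟩ | ⟨h1, h2⟩ <;> exact hl e he (h1.trans h2.symm)⟩ }
  have hadj : ∀ {a b}, G.Adj a b ↔ ∃ e ∈ K.E, K.J e (f a) (f b) := Iff.rfl
  refine ⟨G, ?_, ?_⟩
  · intro v c hc
    have htr : c.IsTrail := hc.isCircuit.isTrail
    have hnd : c.edges.Nodup := htr.edges_nodup
    set F : List (Sym2 ℕ) := c.edges.map (Sym2.map f) with hF
    have hFnd : F.Nodup := hnd.map (Sym2.map.injective hf)
    let τ : ℕ → Sym2 ℕ := fun e => s(K.s e, K.t e)
    have hτJ : ∀ e u w, τ e = s(u, w) ↔ K.J e u w := by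
      intro e u w
      simp only [τ, Sym2.eq_iff, MG.J]
    let z := K.E.filter fun e => τ e ∈ F
    have hinj : ∀ e ∈ z, ∀ e' ∈ z, τ e = τ e' → e = e' := by
      intro e he e' he' h
      apply unit_noPar (by omega) hK hu (mem_filter.1 he).1 (mem_filter.1 he').1
      have := (hτJ e _ _).1 h
      exact this
    have himg : z.image τ = F.toFinset := by
      ext x
      rw [mem_image, List.mem_toFinset]
      constructor
      · rintro ⟨e, he, rfl⟩
        exact (mem_filter.1 he).2
      · intro hx
        rw [hF, List.mem_map] at hx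
        obtain ⟨y, hy, rfl⟩ := hx
        have hyE := SimpleGraph.Walk.edges_subset_edgeSet c hy
        induction y using Sym2.ind with
        | _ a b =>
          rw [SimpleGraph.mem_edgeSet, hadj] at hyE
          obtain ⟨e, he, hj⟩ := hyE
          have hte : τ e = Sym2.map f s(a, b) := by
            rw [Sym2.map_mk]
            exact (hτJ e _ _).2 hj
          refine ⟨e, mem_filter.2 ⟨he, ?_⟩, hte⟩
          rw [hte, hF, List.mem_map]
          exact ⟨_, hy, rfl⟩
    have hcz : #z = c.length := by
      rw [← card_image_of_injOn (f := τ) (s := z) (fun e he e' he' h => hinj e he e' he' h), himg,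
        List.toFinset_card_of_nodup hFnd, hF, List.length_map, SimpleGraph.Walk.length_edges]
    have hev : K.Ev z := by
      refine ⟨filter_subset _ _, fun u => ?_⟩
      by_cases huV : u ∈ K.V
      swap
      · exact K.bd_not_mem (filter_subset _ _) huV
      obtain ⟨a, rfl⟩ := hfs u huV
      have h1 : K.bd z (f a) = ∑ e ∈ z, (if f a ∈ τ e then (1 : ZMod 2) else 0) := by
        unfold MG.bd
        apply sum_congr rfl
        intro e he
        have hle := hl e (mem_filter.1 he).1
        simp only [τ, Sym2.mem_iff, MG.inc]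
        by_cases h1 : K.s e = f a
        · have h2 : K.t e ≠ f a := fun h => hle (h1.trans h.symm)
          simp [h1, h2]
        · by_cases h2 : K.t e = f a
          · have h3 : f a ≠ K.s e := fun h => h1 h.symm
            simp [h1, h2]
          · have h3 : f a ≠ K.s e := fun h => h1 h.symm
            have h4 : f a ≠ K.t e := fun h => h2 h.symm
            simp [h1, h2, h3, h4]
      have h2 : ∑ e ∈ z, (if f a ∈ τ e then (1 : ZMod 2) else 0) =
          ∑ x ∈ F.toFinset, (if f a ∈ x then (1 : ZMod 2) else 0) := by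
        rw [← himg, sum_image (fun e he e' he' h => hinj e he e' he' h)]
      have h3 : ∑ x ∈ F.toFinset, (if f a ∈ x then (1 : ZMod 2) else 0) =
          ((F.countP fun x => f a ∈ x : ℕ) : ZMod 2) := by
        rw [List.sum_toFinset _ hFnd]
        clear h1 h2 hF
        generalize F = L
        induction L with
        | nil => simp
        | cons x L ih =>
          rw [List.map_cons, List.sum_cons, ih, List.countP_cons]
          by_cases hx : f a ∈ x
          · simp [hx, add_comm]
          · simp [hx]
      have h4 : (F.countP fun x => f a ∈ x) = c.edges.countP fun e => a ∈ e := by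
        rw [hF, List.countP_map]
        congr 1
        ext x
        simp only [Function.comp_apply, decide_eq_decide]
        rw [Sym2.mem_map]
        constructor
        · rintro ⟨b, hb, hfb⟩
          rw [← hf hfb]; exact hb
        · intro ha
          exact ⟨a, ha, rfl⟩
      have h5 : Even (c.edges.countP fun e => a ∈ e) :=
        (htr.even_countP_edges_iff a).2 (fun h => absurd rfl h)
      rw [h1, h2, h3, h4]
      exact MG.natCast_zmod2_eq_zero.2 h5
    have hne : z.Nonempty := by
      rw [← card_pos, hcz]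
      have := hc.three_le_length
      omega
    have h6 := hK z hev hne
    have h7 : K.wt z = #z := by
      unfold MG.wt
      rw [sum_congr rfl fun e he => hu e (mem_filter.1 he).1, sum_const, smul_eq_mul, mul_one]
    omega
  · intro s hs
    have h1 := hD (s.image f) (by
      intro x hx
      rw [mem_image] at hx
      obtain ⟨a, -, rfl⟩ := hx
      exact hfV a)
    refine h1.trans (le_of_eq ?_)
    unfold MG.D
    rw [card_image_of_injective _ hf, sum_eq_zero, add_zero]
    intro e he
    unfold MG.phi
    rw [if_neg (by rw [hu e he]; decide), if_neg]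
    rintro ⟨ha, hb⟩
    rw [mem_image] at ha hb
    obtain ⟨a, ha, hfa⟩ := ha
    obtain ⟨b, hb, hfb⟩ := hb
    rw [SimpleGraph.isIndepSet_iff] at hs
    have hadj' : G.Adj a b := ⟨e, he, Or.inl ⟨hfa.symm, hfb.symm⟩⟩
    exact hs ha hb hadj'.ne hadj'

end Pool.H82.SC
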