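import Mathlib

/-! Definitions used in the statement. -/

namespace Pool.H82.SC

/-- Every cycle of `G` is longer than `n`; that is, `G` has no cycle of length at most `n`. -/
def NoShortCycle {V : Type*} (G : SimpleGraph V) (n : ℕ) : Prop :=
  ∀ (v : V) (c : G.Walk v v), c.IsCycle → n < c.length

/-- Every graph on `p` vertices without cycles of length at most `n` has an independent set of
`m` vertices. -/
def Arrows (n m p : ℕ) : Prop :=
  ∀ G : SimpleGraph (Fin p), NoShortCycle G n →
    ∃ s : Finset (Fin p), s.card = m ∧ G.IsIndepSet (s : Set (Fin p))

/-- The Ramsey number `r(≤ C_n, K_m)`: the least `p` such that every graph on `p` vertices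
without cycles of length at most `n` has an independent set of `m` vertices. -/
noncomputable def ramsey (n m : ℕ) : ℕ := sInf {p | Arrows n m p}

end Pool.H82.SC
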