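import Pool.Agent.H82.SC.Indep

namespace Pool.H82.SC

open Finset

namespace MG

variable (K : MG)

lemma sum_incN {e : ℕ} (he : e ∈ K.E) : ∑ v ∈ K.V, K.incN e v = 2 := by
  simp only [incN, sum_add_distrib, sum_ite_eq, K.hs e he, K.ht e he, if_true]

lemma handshake : ∑ v ∈ K.V, K.deg v = 2 * #K.E := by
  unfold deg
  rw [sum_comm, sum_congr rfl fun e he => K.sum_incN he, sum_const, smul_eq_mul, mul_comm]

lemma deg_eq_card_star (hl : K.NoLoops) (v : ℕ) : K.deg v = #(K.star v) := by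
  unfold deg star
  rw [card_filter]
  apply sum_congr rfl
  intro e he
  have := hl e he
  unfold incN
  by_cases h1 : K.s e = v
  · have h2 : K.t e ≠ v := fun h => this (h1.trans h.symm)
    simp [h1, h2]
  · by_cases h2 : K.t e = v <;> simp [h1, h2]

lemma card_star_le (v : ℕ) : #(K.star v) ≤ K.deg v := by
  unfold deg star
  rw [card_filter]
  apply sum_le_sum
  intro e _
  unfold incN
  split_ifs <;> simp_all

lemma ind_sdiff_singleton_E (v : ℕ) : (K.ind (K.V \ {v})).E = K.E \ K.star v := by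
  ext e
  simp only [ind_E, mem_filter, mem_sdiff, mem_singleton, star]
  constructor
  · rintro ⟨he, ⟨h1, h2⟩, h3, h4⟩
    exact ⟨he, fun h => by rcases h.2 with h | h <;> contradiction⟩
  · rintro ⟨he, h⟩
    refine ⟨he, ⟨K.hs e he, fun h1 => h ⟨he, Or.inl h1⟩⟩, K.ht e he, fun h1 => h ⟨he, Or.inr h1⟩⟩

lemma star_subset (v : ℕ) : K.star v ⊆ K.E := filter_subset _ _

lemma card_ind_sdiff (v : ℕ) : #(K.ind (K.V \ {v})).E + #(K.star v) = #K.E := by
  rw [ind_sdiff_singleton_E, card_sdiff_of_subset (K.star_subset v)]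
  have := card_le_card (K.star_subset v)
  omega

lemma W_ind_sdiff (v : ℕ) : (K.ind (K.V \ {v})).W + K.wt (K.star v) = K.W := by
  unfold W
  rw [ind_sdiff_singleton_E]
  show K.wt (K.E \ K.star v) + K.wt (K.star v) = K.wt K.E
  exact sum_sdiff (K.star_subset v)

lemma sum_wt_star (hl : K.NoLoops) (z : Finset ℕ) (hz : z ⊆ K.E) :
    ∑ v ∈ K.V, K.wt (z ∩ K.star v) = 2 * K.wt z := by
  have h1 : ∀ v ∈ K.V, K.wt (z ∩ K.star v) = ∑ e ∈ z, K.incN e v * K.w e := by
    intro v _
    unfold wt star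
    rw [inter_filter, inter_eq_left.2 hz, sum_filter]
    apply sum_congr rfl
    intro e he
    have := hl e (hz he)
    unfold incN
    by_cases h1 : K.s e = v
    · have h2 : K.t e ≠ v := fun h => this (h1.trans h.symm)
      simp [h1, h2]
    · by_cases h2 : K.t e = v <;> simp [h1, h2]
  rw [sum_congr rfl h1, sum_comm]
  unfold wt
  rw [mul_sum]
  apply sum_congr rfl
  intro e he
  rw [← sum_mul, K.sum_incN (hz he)]

lemma sum_wt_star' (hl : K.NoLoops) : ∑ v ∈ K.V, K.wt (K.star v) = 2 * K.W := by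
  rw [← show 2 * K.wt K.E = 2 * K.W from rfl, ← K.sum_wt_star hl K.E subset_rfl]
  apply sum_congr rfl
  intro v _
  rw [inter_eq_right.2 (K.star_subset v)]

lemma sum_W_ind (hl : K.NoLoops) :
    ∑ v ∈ K.V, (K.ind (K.V \ {v})).W + 2 * K.W = #K.V * K.W := by
  rw [← K.sum_wt_star' hl, ← sum_add_distrib,
    sum_congr rfl fun v _ => K.W_ind_sdiff v, sum_const, smul_eq_mul]

/-- measure -/
def mu : ℕ := #K.V + #K.E + 3 * ∑ v ∈ K.V, (K.deg v - 3)

lemma deg_mono_sub {K' : MG} (hE : K'.E ⊆ K.E) (hs : K'.s = K.s) (ht : K'.t = K.t) (v : ℕ) :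
    K'.deg v ≤ K.deg v := by
  unfold deg incN
  rw [hs, ht]
  exact sum_le_sum_of_subset hE

lemma mu_lt_of_sub {K' : MG} (hV : K'.V ⊆ K.V) (hE : K'.E ⊆ K.E) (hs : K'.s = K.s)
    (ht : K'.t = K.t) (hne : #K'.V + #K'.E < #K.V + #K.E) : K'.mu < K.mu := by
  unfold mu
  have : ∑ v ∈ K'.V, (K'.deg v - 3) ≤ ∑ v ∈ K.V, (K.deg v - 3) := by
    refine (sum_le_sum fun v _ => Nat.sub_le_sub_right (K.deg_mono_sub hE hs ht v) 3).trans ?_
    exact sum_le_sum_of_subset hV
  omega

lemma mu_ind_lt {v : ℕ} (hv : v ∈ K.V) : (K.ind (K.V \ {v})).mu < K.mu := by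
  refine K.mu_lt_of_sub (K' := K.ind (K.V \ {v})) (sdiff_subset) (filter_subset _ _) rfl rfl ?_
  have h1 : #(K.ind (K.V \ {v})).V < #K.V := by
    apply card_lt_card
    show K.V \ {v} ⊂ K.V
    rw [ssubset_iff_of_subset (sdiff_subset)]
    exact ⟨v, hv, by simp⟩
  have h2 : #(K.ind (K.V \ {v})).E ≤ #K.E := card_le_card (filter_subset _ _)
  omega

lemma mu_sube_lt {e : ℕ} (he : e ∈ K.E) : (K.sube (K.E.erase e) (erase_subset _ _)).mu < K.mu := by
  refine K.mu_lt_of_sub (K' := K.sube (K.E.erase e) (erase_subset _ _)) (subset_rfl)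
    (erase_subset _ _) rfl rfl ?_
  simp only [sube_V, sube_E, card_erase_of_mem he]
  have := card_pos.2 ⟨e, he⟩
  omega

/-- even edges inside a set -/
def evin (S : Finset ℕ) : Finset ℕ := K.E.filter fun e => Even (K.w e) ∧ K.s e ∈ S ∧ K.t e ∈ S

lemma evin_mono {S T : Finset ℕ} (h : S ⊆ T) : K.evin S ⊆ K.evin T := by
  intro e he
  simp only [evin, mem_filter] at he ⊢
  exact ⟨he.1, he.2.1, h he.2.2.1, h he.2.2.2⟩

theorem grow {U Y : Finset ℕ} (hU : K.Closed U) (hY : Y ⊆ U) :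
    ∃ T ⊆ U, Y ⊆ T ∧ K.Closed T ∧ #T ≤ #(K.evin T) + #Y := by
  classical
  let P := U.powerset.filter fun T => Y ⊆ T ∧ #T ≤ #(K.evin T) + #Y
  have hP : P.Nonempty := ⟨Y, by simp [P, hY]⟩
  obtain ⟨T, hT, hmax⟩ := exists_max_image P (fun T => #T) hP
  simp only [P, mem_filter, mem_powerset] at hT
  obtain ⟨hTU, hYT, hcard⟩ := hT
  have key : ∀ e ∈ K.E, Even (K.w e) → ∀ a b, (a = K.s e ∧ b = K.t e ∨ a = K.t e ∧ b = K.s e) →
      a ∈ T → b ∈ T := by
    intro e he hw a b hab ha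
    by_contra hb
    have hbU : b ∈ U := by
      rcases hab with ⟨h1, h2⟩ | ⟨h1, h2⟩
      · subst h1 h2; exact (hU e he hw).1 (hTU ha)
      · subst h1 h2; exact (hU e he hw).2 (hTU ha)
    have hmem : insert b T ∈ P := by
      simp only [P, mem_filter, mem_powerset]
      refine ⟨insert_subset hbU hTU, hYT.trans (subset_insert _ _), ?_⟩
      rw [card_insert_of_notMem hb]
      have hsub : insert e (K.evin T) ⊆ K.evin (insert b T) := by
        apply insert_subset
        · simp only [evin, mem_filter]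
          refine ⟨he, hw, ?_⟩
          rcases hab with ⟨h1, h2⟩ | ⟨h1, h2⟩
          · subst h1 h2; exact ⟨mem_insert_of_mem ha, mem_insert_self _ _⟩
          · subst h1 h2; exact ⟨mem_insert_self _ _, mem_insert_of_mem ha⟩
        · exact K.evin_mono (subset_insert _ _)
      have hnot : e ∉ K.evin T := by
        intro h
        simp only [evin, mem_filter] at h
        apply hb
        rcases hab with ⟨h1, h2⟩ | ⟨h1, h2⟩
        · subst h2; exact h.2.2.2
        · subst h2; exact h.2.2.1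
      have := card_le_card hsub
      rw [card_insert_of_notMem hnot] at this
      omega
    have := hmax _ hmem
    rw [card_insert_of_notMem hb] at this
    omega
  refine ⟨T, hTU, hYT, ?_, hcard⟩
  intro e he hw
  exact ⟨key e he hw _ _ (Or.inl ⟨rfl, rfl⟩), key e he hw _ _ (Or.inr ⟨rfl, rfl⟩)⟩

end MG
end Pool.H82.SC
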