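import Pool.Agent.H82.SC.Basic

namespace Pool.H82.SC

open Finset

namespace MG

variable (K : MG)

/-- total weight -/
def W : ℕ := K.wt K.E

lemma wt_mono {a b : Finset ℕ} (h : a ⊆ b) : K.wt a ≤ K.wt b := sum_le_sum_of_subset h

lemma wt_union {a b : Finset ℕ} (h : Disjoint a b) : K.wt (a ∪ b) = K.wt a + K.wt b :=
  sum_union h

lemma ind_ev {S z : Finset ℕ} (hz : (K.ind S).Ev z) : K.Ev z :=
  ⟨hz.1.trans (filter_subset _ _), hz.2⟩

lemma ind_bd (S z : Finset ℕ) (v : ℕ) : (K.ind S).bd z v = K.bd z v := rfl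
lemma ind_wt (S z : Finset ℕ) : (K.ind S).wt z = K.wt z := rfl
lemma sube_bd (F : Finset ℕ) (hF : F ⊆ K.E) (z : Finset ℕ) (v : ℕ) :
    (K.sube F hF).bd z v = K.bd z v := rfl
lemma sube_wt (F : Finset ℕ) (hF : F ⊆ K.E) (z : Finset ℕ) : (K.sube F hF).wt z = K.wt z := rfl

lemma sube_ev {F : Finset ℕ} {hF : F ⊆ K.E} {z : Finset ℕ} (hz : (K.sube F hF).Ev z) : K.Ev z :=
  ⟨hz.1.trans hF, hz.2⟩

lemma Cyc.ind {K : MG} {h : ℕ} (hK : K.Cyc h) (S : Finset ℕ) : (K.ind S).Cyc h :=
  fun z hz hne => hK z (K.ind_ev hz) hne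

lemma Cyc.sube {K : MG} {h : ℕ} (hK : K.Cyc h) (F : Finset ℕ) (hF : F ⊆ K.E) :
    (K.sube F hF).Cyc h :=
  fun z hz hne => hK z (K.sube_ev hz) hne

lemma ind_W_le (S : Finset ℕ) : (K.ind S).W ≤ K.W := K.wt_mono (filter_subset _ _)

lemma sube_W_le (F : Finset ℕ) (hF : F ⊆ K.E) : (K.sube F hF).W ≤ K.W := K.wt_mono hF

/-- no odd even-set implies parity-bipartite -/
theorem bip_of_even (h : ∀ z, K.Ev z → Even (K.wt z)) : K.Bip := by
  classical
  let δ : ℕ → ℕ → ZMod 2 := fun x v => if x = v then 1 else 0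
  let J : ℕ → ℕ → Prop := fun x y => ∃ P, P ⊆ K.E ∧ ∀ v, K.bd P v = δ x v + δ y v
  have hrefl : ∀ x, J x x := fun x =>
    ⟨∅, empty_subset _, fun v => by rw [K.bd_empty]; exact (zmod2_add_self _).symm⟩
  have hsymm : ∀ x y, J x y → J y x := fun x y ⟨P, h1, h2⟩ =>
    ⟨P, h1, fun v => by rw [h2, add_comm]⟩
  have hsub : ∀ P Q : Finset ℕ, P ⊆ K.E → Q ⊆ K.E → symmDiff P Q ⊆ K.E := by
    intro P Q hP hQ x hx
    rw [Finset.mem_symmDiff] at hx
    rcases hx with h | h
    · exact hP h.1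
    · exact hQ h.1
  have htrans : ∀ x y z, J x y → J y z → J x z := by
    rintro x y z ⟨P, h1, h2⟩ ⟨Q, h3, h4⟩
    refine ⟨symmDiff P Q, hsub _ _ h1 h3, fun v => ?_⟩
    rw [K.bd_symmDiff, h2, h4]
    have := zmod2_add_self (δ y v)
    linear_combination this
  let S : Setoid ℕ := ⟨J, ⟨hrefl, fun {x y} => hsymm x y, fun {x y z} => htrans x y z⟩⟩
  let r : ℕ → ℕ := fun x => (Quotient.mk S x).out
  have hr : ∀ x, J (r x) x := fun x => Quotient.exact (s := S) (Quotient.out_eq (Quotient.mk S x))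
  choose P hP1 hP2 using hr
  refine ⟨fun x => decide (Even (K.wt (P x))), fun e he => ?_⟩
  have hJe : J (K.s e) (K.t e) := ⟨{e}, by simpa using he, fun v => by simp [bd, inc, δ]⟩
  have hrr : r (K.s e) = r (K.t e) := by
    simp only [r]
    rw [Quotient.sound (s := S) hJe]
  have hz : K.Ev (symmDiff (symmDiff (P (K.s e)) (P (K.t e))) {e}) := by
    refine ⟨hsub _ _ (hsub _ _ (hP1 _) (hP1 _)) (by simpa using he), fun v => ?_⟩
    rw [K.bd_symmDiff, K.bd_symmDiff, hP2, hP2, hrr]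
    have h1 : K.bd {e} v = δ (K.s e) v + δ (K.t e) v := by simp [bd, inc, δ]
    rw [h1]
    have e1 := zmod2_add_self (δ (r (K.t e)) v)
    have e2 := zmod2_add_self (δ (K.s e) v)
    have e3 := zmod2_add_self (δ (K.t e) v)
    linear_combination e1 + e2 + e3
  have h1 := h _ hz
  rw [← natCast_zmod2_eq_zero, K.wt_symmDiff_cast, K.wt_symmDiff_cast] at h1
  have h2 : K.wt {e} = K.w e := by simp [wt]
  rw [h2] at h1
  have key : ∀ a b c : ZMod 2, a + b + c = 0 → ((a = 0 ↔ b = 0) ↔ c = 0) := by decide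
  have := key _ _ _ h1
  rw [natCast_zmod2_eq_zero, natCast_zmod2_eq_zero, natCast_zmod2_eq_zero] at this
  rw [← this]
  by_cases ha : Even (K.wt (P (K.s e))) <;> by_cases hb : Even (K.wt (P (K.t e))) <;>
    simp [ha, hb]

lemma exists_odd_of_not_bip (h : ¬ K.Bip) : ∃ z, K.Ev z ∧ Odd (K.wt z) := by
  by_contra hcon
  push Not at hcon
  exact h (K.bip_of_even fun z hz => by
    have := hcon z hz
    rwa [Nat.not_odd_iff_even] at this)

/-- deleting `S` makes it bipartite: then `D ≤ |S|` somewhere -/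
theorem exists_D_le {S : Finset ℕ} (hS : S ⊆ K.V) (hb : (K.ind (K.V \ S)).Bip) :
    ∃ X ⊆ K.V, K.D X ≤ #S := by
  classical
  obtain ⟨c, hc⟩ := hb
  set X0 := (K.V \ S).filter fun v => c v = true with hX0
  set X1 := (K.V \ S).filter fun v => c v = false with hX1
  have hcard : #X0 + #X1 = #K.V - #S := by
    rw [← card_sdiff_of_subset hS, hX0, hX1]
    have := card_filter_add_card_filter_not (s := K.V \ S) (fun v => c v = true)
    simp only [Bool.not_eq_true] at this
    exact this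
  have hle : #S ≤ #K.V := card_le_card hS
  have hsum : ∑ e ∈ K.E, (K.phi X0 e + K.phi X1 e) ≤ 0 := by
    apply sum_nonpos
    intro e he
    have hs := K.hs e he
    have ht := K.ht e he
    have ms0 : K.s e ∈ X0 ↔ K.s e ∉ S ∧ c (K.s e) = true := by simp [hX0, hs]
    have mt0 : K.t e ∈ X0 ↔ K.t e ∉ S ∧ c (K.t e) = true := by simp [hX0, ht]
    have ms1 : K.s e ∈ X1 ↔ K.s e ∉ S ∧ c (K.s e) = false := by simp [hX1, hs]
    have mt1 : K.t e ∈ X1 ↔ K.t e ∉ S ∧ c (K.t e) = false := by simp [hX1, ht]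
    unfold phi
    simp only [ms0, mt0, ms1, mt1]
    by_cases h1 : K.s e ∈ S
    · by_cases h2 : K.t e ∈ S
      · by_cases hw : Even (K.w e) <;> simp [h1, h2, hw]
      · by_cases hw : Even (K.w e) <;> cases hct : c (K.t e) <;> simp [h1, h2, hw]
    · by_cases h2 : K.t e ∈ S
      · by_cases hw : Even (K.w e) <;> cases hct : c (K.s e) <;> simp [h1, h2, hw]
      · have hin : e ∈ (K.ind (K.V \ S)).E := by
          simp [he, hs, ht, h1, h2]
        have hcc := hc e hin
        simp only [ind_s, ind_t, ind_w] at hcc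
        by_cases hw : Even (K.w e)
        · have := hcc.2 hw
          cases hct : c (K.t e) <;> simp [h1, h2, hw, this, hct]
        · have : ¬ (c (K.s e) = c (K.t e)) := fun h => hw (hcc.1 h)
          cases hcs : c (K.s e) <;> cases hct : c (K.t e) <;> simp [h1, h2, hw, hcs, hct] at this ⊢
  rw [sum_add_distrib] at hsum
  by_contra hcon
  push Not at hcon
  have d0 := hcon X0 ((filter_subset _ _).trans sdiff_subset)
  have d1 := hcon X1 ((filter_subset _ _).trans sdiff_subset)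
  unfold D at d0 d1
  have : (#X0 : ℤ) + #X1 = #K.V - #S := by
    have := hcard
    omega
  linarith

/-- `S` is closed under even edges -/
def Closed (S : Finset ℕ) : Prop := ∀ e ∈ K.E, Even (K.w e) → (K.s e ∈ S ↔ K.t e ∈ S)

theorem D_split {S A X : Finset ℕ} (hS : S ⊆ K.V) (hcl : K.Closed S) (hA : A ⊆ S)
    (hX : X ⊆ K.V \ S)
    (hcr : ∀ e ∈ K.E, (K.s e ∈ A ∧ K.t e ∈ X → False) ∧ (K.s e ∈ X ∧ K.t e ∈ A → False)) :
    K.D (X ∪ A) = (K.ind (K.V \ S)).D X + (K.ind S).D A := by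
  classical
  have hdis : Disjoint X A := by
    rw [disjoint_left]
    intro x hx hxA
    exact (mem_sdiff.1 (hX hx)).2 (hA hxA)
  unfold D
  rw [card_union_of_disjoint hdis]
  simp only [ind_V, ind_E]
  have hc : (#(K.V \ S) : ℤ) = #K.V - #S := by
    rw [card_sdiff_of_subset hS]
    have := card_le_card hS
    omega
  rw [hc]
  have hsum : ∑ e ∈ K.E, K.phi (X ∪ A) e =
      ∑ e ∈ K.E.filter (fun e => K.s e ∈ K.V \ S ∧ K.t e ∈ K.V \ S), (K.ind (K.V \ S)).phi X e +
      ∑ e ∈ K.E.filter (fun e => K.s e ∈ S ∧ K.t e ∈ S), (K.ind S).phi A e := by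
    rw [sum_filter, sum_filter, ← sum_add_distrib]
    apply sum_congr rfl
    intro e he
    have hs := K.hs e he
    have ht := K.ht e he
    have xs : K.s e ∈ X → K.s e ∉ S := fun h => (mem_sdiff.1 (hX h)).2
    have xt : K.t e ∈ X → K.t e ∉ S := fun h => (mem_sdiff.1 (hX h)).2
    have as : K.s e ∈ A → K.s e ∈ S := fun h => hA h
    have at' : K.t e ∈ A → K.t e ∈ S := fun h => hA h
    have hclo := hcl e he
    obtain ⟨c1, c2⟩ := hcr e he
    by_cases hw : Even (K.w e)
    · have := hclo hw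
      by_cases h1 : K.s e ∈ S
      · have h2 : K.t e ∈ S := this.1 h1
        have n1 : K.s e ∉ X := fun h => xs h h1
        have n2 : K.t e ∉ X := fun h => xt h h2
        simp [phi, hw, h1, h2, n1, n2]
      · have h2 : K.t e ∉ S := fun h => h1 (this.2 h)
        have n1 : K.s e ∉ A := fun h => h1 (as h)
        have n2 : K.t e ∉ A := fun h => h2 (at' h)
        simp [phi, hw, h1, h2, n1, n2, hs, ht]
    · by_cases h1 : K.s e ∈ S
      · have n1 : K.s e ∉ X := fun h => xs h h1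
        by_cases h2 : K.t e ∈ S
        · have n2 : K.t e ∉ X := fun h => xt h h2
          simp [phi, hw, h1, h2, n1, n2]
        · have n2 : K.t e ∉ A := fun h => h2 (at' h)
          have : ¬ (K.s e ∈ A ∧ K.t e ∈ X) := c1
          simp [phi, hw, h1, h2, n1, n2]
          tauto
      · have n1 : K.s e ∉ A := fun h => h1 (as h)
        by_cases h2 : K.t e ∈ S
        · have n2 : K.t e ∉ X := fun h => xt h h2
          simp [phi, hw, h1, h2, n1, n2]
          tauto
        · have n2 : K.t e ∉ A := fun h => h2 (at' h)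
          simp [phi, hw, h1, h2, n1, n2, hs, ht]
  rw [hsum]
  push_cast
  ring

end MG
end Pool.H82.SC
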