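import Pool.Agent.H82.SC.Split

set_option linter.unusedSimpArgs false
set_option linter.unusedVariables false

namespace Pool.H82.SC

open Finset

namespace MG

variable (K : MG)

def Cubic : Prop := ∀ v ∈ K.V, K.deg v = 3

lemma V_nonempty_of_E (h : K.E.Nonempty) : K.V.Nonempty := by
  obtain ⟨e, he⟩ := h
  exact ⟨K.s e, K.hs e he⟩

lemma V_nonempty_of_card {x : ℕ} (h : #K.V + (x + 1) ≤ #K.E) : K.V.Nonempty :=
  K.V_nonempty_of_E (card_pos.1 (by omega))

lemma loop_ev {e : ℕ} (he : e ∈ K.E) (hl : K.s e = K.t e) : K.Ev {e} := by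
  refine ⟨by simpa using he, fun v => ?_⟩
  simp only [bd, sum_singleton, inc, hl]
  exact zmod2_add_self _

lemma W_erase {e : ℕ} (he : e ∈ K.E) :
    (K.sube (K.E.erase e) (erase_subset _ _)).W + K.w e = K.W := by
  show K.wt (K.E.erase e) + K.w e = K.wt K.E
  unfold wt
  rw [add_comm, add_sum_erase _ _ he]

/-- Moore-type bound -/
def MB (h x p q : ℕ) : Prop :=
  ∀ K : MG, K.Cyc h → K.V.Nonempty → #K.V + x ≤ #K.E → p * h ≤ q * K.W

theorem MB0 (h : ℕ) : MB h 0 1 1 := by
  intro K hK hV hE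
  obtain ⟨z, hz, hne⟩ := K.exists_even hV hE
  have h1 := hK z hz hne
  have h2 := K.wt_mono hz.1
  rw [one_mul, one_mul]
  exact h1.trans h2

theorem moore_step {h x p q : ℕ}
    (hprev : ∀ K : MG, K.Cyc h → K.V.Nonempty → #K.V + x ≤ #K.E → p * h ≤ q * (K.W + h))
    (hcub : ∀ K : MG, K.Cyc h → K.NoLoops → K.Cubic → #K.E = #K.V + (x + 1) → p * h ≤ q * K.W) :
    MB h (x + 1) p q := by
  intro K
  induction' hn : K.mu using Nat.strong_induction_on with n ih generalizing K
  intro hK hV hE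
  by_cases hlt : #K.V + (x + 1) < #K.E
  · obtain ⟨e, he⟩ : K.E.Nonempty := card_pos.1 (by omega)
    have h1 := ih _ (hn ▸ K.mu_sube_lt he) (K.sube (K.E.erase e) (erase_subset _ _)) rfl
      (hK.sube _ _) hV (by simp only [sube_V, sube_E, card_erase_of_mem he]; omega)
    exact h1.trans (Nat.mul_le_mul_left _ (K.sube_W_le _ _))
  have hEq : #K.E = #K.V + (x + 1) := by omega
  by_cases hl : K.NoLoops
  swap
  · unfold NoLoops at hl
    push Not at hl
    obtain ⟨e, he, hst⟩ := hl
    have h1 := hprev (K.sube (K.E.erase e) (erase_subset _ _)) (hK.sube _ _) hV (by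
      simp only [sube_V, sube_E, card_erase_of_mem he]; omega)
    refine h1.trans (Nat.mul_le_mul_left _ ?_)
    rw [← K.W_erase he]
    have h2 := hK _ (K.loop_ev he hst) (singleton_nonempty e)
    have h3 : K.wt {e} = K.w e := by simp [wt]
    omega
  by_cases h1 : ∃ v ∈ K.V, K.deg v ≤ 1
  · obtain ⟨v, hv, hd⟩ := h1
    have hc := K.card_ind_sdiff v
    have hs := K.card_star_le v
    have hVc : #(K.ind (K.V \ {v})).V + 1 = #K.V := by
      show #(K.V \ {v}) + 1 = #K.V
      rw [card_sdiff_of_subset (by simpa using hv), card_singleton]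
      have := card_pos.2 ⟨v, hv⟩
      omega
    have hcard : #(K.ind (K.V \ {v})).V + (x + 1) ≤ #(K.ind (K.V \ {v})).E := by omega
    have h1 := ih _ (hn ▸ K.mu_ind_lt hv) _ rfl (hK.ind _) (V_nonempty_of_card _ hcard) hcard
    exact h1.trans (Nat.mul_le_mul_left _ (K.ind_W_le _))
  by_cases h2 : ∃ v ∈ K.V, K.deg v = 2
  · obtain ⟨v, hv, hd⟩ := h2
    obtain ⟨e1, e2, hS⟩ := exists_suppData hl hv hd
    have c1 := supp_cardV hS
    have c2 := supp_cardE hS
    have hcard : #(supp hS).V + (x + 1) ≤ #(supp hS).E := by omega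
    have h1 := ih _ (hn ▸ supp_mu_lt hS) _ rfl (supp_Cyc hS hK) (V_nonempty_of_card _ hcard) hcard
    rwa [supp_W] at h1
  by_cases h3 : ∃ v ∈ K.V, 4 ≤ K.deg v
  · obtain ⟨v, hv, hd⟩ := h3
    obtain ⟨e1, e2, v', e0, hS⟩ := exists_splitData hl hv hd
    have c1 := split_cardV hS
    have c2 := split_cardE hS
    have hcard : #(split hS).V + (x + 1) ≤ #(split hS).E := by omega
    have h1 := ih _ (hn ▸ split_mu_lt hS) _ rfl (split_Cyc hS hK) (V_nonempty_of_card _ hcard)
      hcard
    rwa [split_W] at h1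
  apply hcub K hK hl _ hEq
  intro v hv
  push Not at h1 h2 h3
  have a1 := h1 v hv
  have a2 := h2 v hv
  have a3 := h3 v hv
  omega

lemma Cubic.card {K : MG} (hc : K.Cubic) : 3 * #K.V = 2 * #K.E := by
  rw [← K.handshake, sum_congr rfl hc, sum_const, smul_eq_mul, mul_comm]

/-- parallel edges -/
def Par (e f : ℕ) : Prop := (K.s e = K.s f ∧ K.t e = K.t f) ∨ (K.s e = K.t f ∧ K.t e = K.s f)

lemma pair_ev {e f : ℕ} (he : e ∈ K.E) (hf : f ∈ K.E) (hne : e ≠ f) (hp : K.Par e f) :
    K.Ev {e, f} := by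
  refine ⟨by intro x hx; simp at hx; rcases hx with rfl | rfl <;> assumption, fun v => ?_⟩
  simp only [bd, sum_pair hne]
  have : K.inc e v = K.inc f v := by
    unfold inc
    rcases hp with ⟨h1, h2⟩ | ⟨h1, h2⟩
    · rw [h1, h2]
    · rw [h1, h2, add_comm]
  rw [this]
  exact zmod2_add_self _

lemma wt_pair {e f : ℕ} (hne : e ≠ f) : K.wt {e, f} = K.w e + K.w f := sum_pair hne

theorem MB1 (h : ℕ) : MB h 1 3 2 := by
  apply moore_step
  · intro K hK hV hE
    have := MB0 h K hK hV hE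
    omega
  · intro K hK hl hc hE
    have h1 := hc.card
    have hV2 : #K.V = 2 := by omega
    have hE3 : #K.E = 3 := by omega
    obtain ⟨a, b, hab, hV⟩ := card_eq_two.1 hV2
    obtain ⟨e1, e2, e3, h12, h13, h23, hEE⟩ := card_eq_three.1 hE3
    have hpar : ∀ e ∈ K.E, ∀ f ∈ K.E, K.Par e f := by
      intro e he f hf
      have s1 := K.hs e he
      have t1 := K.ht e he
      have s2 := K.hs f hf
      have t2 := K.ht f hf
      have l1 := hl e he
      have l2 := hl f hf
      rw [hV] at s1 t1 s2 t2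
      simp only [mem_insert, mem_singleton] at s1 t1 s2 t2
      unfold Par
      rcases s1 with s1 | s1 <;> rcases t1 with t1 | t1 <;> rcases s2 with s2 | s2 <;>
        rcases t2 with t2 | t2 <;> simp_all
    have m1 : e1 ∈ K.E := by rw [hEE]; simp
    have m2 : e2 ∈ K.E := by rw [hEE]; simp
    have m3 : e3 ∈ K.E := by rw [hEE]; simp
    have k12 := hK _ (K.pair_ev m1 m2 h12 (hpar _ m1 _ m2)) (by simp)
    have k13 := hK _ (K.pair_ev m1 m3 h13 (hpar _ m1 _ m3)) (by simp)
    have k23 := hK _ (K.pair_ev m2 m3 h23 (hpar _ m2 _ m3)) (by simp)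
    rw [K.wt_pair h12] at k12
    rw [K.wt_pair h13] at k13
    rw [K.wt_pair h23] at k23
    have : K.W = K.w e1 + (K.w e2 + K.w e3) := by
      unfold W wt
      rw [hEE, sum_insert (by simp [h12, h13]), sum_pair h23]
    omega

/-- star averaging for cubic graphs -/
lemma cubic_avg {h x p q : ℕ} (hx : 1 ≤ x) (hM : MB h (x - 1) p q) {K : MG} (hK : K.Cyc h)
    (hl : K.NoLoops) (hc : K.Cubic) (hE : #K.E = #K.V + (x + 1)) :
    ((x + 1) * p) * h ≤ (x * q) * K.W := by
  have h1 := hc.card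
  have hV2 : #K.V = 2 * (x + 1) := by omega
  have hv : ∀ v ∈ K.V, p * h ≤ q * (K.ind (K.V \ {v})).W := by
    intro v hv
    have hstar : #(K.star v) = 3 := by rw [← K.deg_eq_card_star hl, hc v hv]
    have hcd := K.card_ind_sdiff v
    have hVc : #(K.ind (K.V \ {v})).V + 1 = #K.V := by
      show #(K.V \ {v}) + 1 = #K.V
      rw [card_sdiff_of_subset (by simpa using hv), card_singleton]
      have := card_pos.2 ⟨v, hv⟩
      omega
    apply hM _ (hK.ind _) (card_pos.1 (by omega)) (by omega)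
  have hsum := sum_le_sum hv
  rw [sum_const, smul_eq_mul, ← mul_sum] at hsum
  have hW := K.sum_W_ind hl
  rw [hV2] at hsum hW
  set A := ∑ v ∈ K.V, (K.ind (K.V \ {v})).W
  have hA : A = 2 * x * K.W := by
    have : A + 2 * K.W = 2 * x * K.W + 2 * K.W := by rw [hW]; ring
    omega
  rw [hA] at hsum
  have : 2 * (((x + 1) * p) * h) ≤ 2 * ((x * q) * K.W) := by
    calc 2 * (((x + 1) * p) * h) = 2 * (x + 1) * (p * h) := by ring
      _ ≤ q * (2 * x * K.W) := hsum
      _ = _ := by ring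
  omega

theorem MB2 (h : ℕ) : MB h 2 2 1 := by
  apply moore_step (x := 1)
  · intro K hK hV hE
    have := MB1 h K hK hV hE
    omega
  · intro K hK hl hc hE
    have := cubic_avg (x := 1) le_rfl (MB0 h) hK hl hc hE
    omega

theorem MB3 (h : ℕ) : MB h 3 9 4 := by
  apply moore_step (x := 2)
  · intro K hK hV hE
    have := MB2 h K hK hV hE
    omega
  · intro K hK hl hc hE
    have := cubic_avg (x := 2) (by norm_num) (MB1 h) hK hl hc hE
    omega

theorem MB4 (h : ℕ) : MB h 4 8 3 := by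
  apply moore_step (x := 3)
  · intro K hK hV hE
    have := MB3 h K hK hV hE
    omega
  · intro K hK hl hc hE
    have := cubic_avg (x := 3) (by norm_num) (MB2 h) hK hl hc hE
    omega

/-- closed neighbourhood of an edge -/
def nbE (e : ℕ) : Finset ℕ := K.star (K.s e) ∪ K.star (K.t e)

lemma mem_nbE {e f : ℕ} : f ∈ K.nbE e ↔ f ∈ K.E ∧
    ((K.s f = K.s e ∨ K.t f = K.s e) ∨ (K.s f = K.t e ∨ K.t f = K.t e)) := by
  unfold nbE star
  rw [mem_union, mem_filter, mem_filter]
  tauto

lemma nbE_symm {e f : ℕ} (he : e ∈ K.E) (hf : f ∈ K.E) : f ∈ K.nbE e ↔ e ∈ K.nbE f := by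
  rw [mem_nbE, mem_nbE]
  constructor
  · rintro ⟨-, (h | h) | (h | h)⟩ <;> exact ⟨he, by tauto⟩
  · rintro ⟨-, (h | h) | (h | h)⟩ <;> exact ⟨hf, by tauto⟩

lemma nbE_subset (e : ℕ) : K.nbE e ⊆ K.E := fun f hf => ((K.mem_nbE).1 hf).1

lemma ind_pair_E (e : ℕ) : (K.ind (K.V \ {K.s e, K.t e})).E = K.E \ K.nbE e := by
  ext f
  rw [mem_sdiff, mem_nbE]
  simp only [ind_E, mem_filter, mem_sdiff, mem_insert, mem_singleton]
  constructor
  · rintro ⟨hf, ⟨h1, h2⟩, h3, h4⟩
    exact ⟨hf, fun h => by tauto⟩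
  · rintro ⟨hf, h⟩
    refine ⟨hf, ⟨K.hs f hf, fun h1 => h ⟨hf, by tauto⟩⟩, K.ht f hf, fun h1 => h ⟨hf, by tauto⟩⟩

lemma card_ind_pair (e : ℕ) :
    #(K.ind (K.V \ {K.s e, K.t e})).E + #(K.nbE e) = #K.E := by
  rw [ind_pair_E, card_sdiff_of_subset (K.nbE_subset e)]
  have := card_le_card (K.nbE_subset e)
  omega

lemma W_ind_pair (e : ℕ) : (K.ind (K.V \ {K.s e, K.t e})).W + K.wt (K.nbE e) = K.W := by
  unfold W
  rw [ind_pair_E]
  show K.wt (K.E \ K.nbE e) + K.wt (K.nbE e) = K.wt K.E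
  exact sum_sdiff (K.nbE_subset e)

lemma cardV_ind_pair (hl : K.NoLoops) {e : ℕ} (he : e ∈ K.E) :
    #(K.ind (K.V \ {K.s e, K.t e})).V + 2 = #K.V := by
  show #(K.V \ {K.s e, K.t e}) + 2 = #K.V
  have hsub : {K.s e, K.t e} ⊆ K.V := by
    intro x hx
    simp only [mem_insert, mem_singleton] at hx
    rcases hx with rfl | rfl
    · exact K.hs e he
    · exact K.ht e he
  rw [card_sdiff_of_subset hsub, card_pair (hl e he)]
  have := card_le_card hsub
  rw [card_pair (hl e he)] at this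
  omega

lemma mem_star_inter {e : ℕ} (he : e ∈ K.E) : e ∈ K.star (K.s e) ∩ K.star (K.t e) := by
  simp [star, he]

/-- cubic with parallel edges -/
lemma cubic_par {h x : ℕ} {K : MG} (hK : K.Cyc h) (hl : K.NoLoops) (hc : K.Cubic)
    (hE : #K.E = #K.V + (x + 2)) {e f : ℕ} (he : e ∈ K.E) (hf : f ∈ K.E) (hne : e ≠ f)
    (hp : K.Par e f) :
    ∃ K' : MG, K'.Cyc h ∧ #K'.V + x ≤ #K'.E ∧ K'.W + h ≤ K.W ∧ #K'.V + 2 = #K.V := by
  refine ⟨K.ind (K.V \ {K.s e, K.t e}), hK.ind _, ?_, ?_, K.cardV_ind_pair hl he⟩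
  · have h1 := K.card_ind_pair e
    have h2 := K.cardV_ind_pair hl he
    have h3 : #(K.nbE e) ≤ 4 := by
      have hs : #(K.star (K.s e)) = 3 := by rw [← K.deg_eq_card_star hl, hc _ (K.hs e he)]
      have ht : #(K.star (K.t e)) = 3 := by rw [← K.deg_eq_card_star hl, hc _ (K.ht e he)]
      have hi : 2 ≤ #(K.star (K.s e) ∩ K.star (K.t e)) := by
        rw [← card_pair hne]
        apply card_le_card
        intro g hg
        simp only [mem_insert, mem_singleton] at hg
        rcases hg with rfl | rfl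
        · exact K.mem_star_inter he
        · have := K.mem_star_inter hf
          rcases hp with ⟨h1, h2⟩ | ⟨h1, h2⟩
          · rw [h1, h2]; exact this
          · rw [h1, h2, inter_comm]; exact this
      have := card_union_add_card_inter (K.star (K.s e)) (K.star (K.t e))
      unfold nbE
      omega
    omega
  · have h1 := K.W_ind_pair e
    have h2 := hK _ (K.pair_ev he hf hne hp) (by simp)
    have h3 : K.wt {e, f} ≤ K.wt (K.nbE e) := by
      apply K.wt_mono
      intro g hg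
      simp only [mem_insert, mem_singleton] at hg
      rw [mem_nbE]
      rcases hg with rfl | rfl
      · exact ⟨he, by tauto⟩
      · refine ⟨hf, ?_⟩
        rcases hp with ⟨h1, h2⟩ | ⟨h1, h2⟩
        · left; left; exact h1.symm
        · left; right; exact h1.symm
    omega

/-- simple cubic: every closed edge neighbourhood has five edges -/
lemma card_nbE_simple {K : MG} (hl : K.NoLoops) (hc : K.Cubic)
    (hs : ∀ e ∈ K.E, ∀ f ∈ K.E, e ≠ f → ¬ K.Par e f) {e : ℕ} (he : e ∈ K.E) :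
    #(K.nbE e) = 5 := by
  have h1 : #(K.star (K.s e)) = 3 := by rw [← K.deg_eq_card_star hl, hc _ (K.hs e he)]
  have h2 : #(K.star (K.t e)) = 3 := by rw [← K.deg_eq_card_star hl, hc _ (K.ht e he)]
  have h3 : K.star (K.s e) ∩ K.star (K.t e) = {e} := by
    ext f
    rw [mem_singleton]
    constructor
    · intro hf
      by_contra hne
      simp only [star, mem_inter, mem_filter] at hf
      obtain ⟨⟨hfE, a⟩, -, b⟩ := hf
      have l1 := hl e he
      have l2 := hl f hfE
      apply hs f hfE e he hne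
      unfold Par
      rcases a with a | a <;> rcases b with b | b
      · exact absurd (a.symm.trans b) l1
      · exact Or.inl ⟨a, b⟩
      · exact Or.inr ⟨b, a⟩
      · exact absurd (a.symm.trans b) l1
    · rintro rfl; exact K.mem_star_inter he
  have := card_union_add_card_inter (K.star (K.s e)) (K.star (K.t e))
  rw [h3, card_singleton] at this
  unfold nbE
  omega

lemma sum_W_pair {K : MG} (hl : K.NoLoops) (hc : K.Cubic)
    (hs : ∀ e ∈ K.E, ∀ f ∈ K.E, e ≠ f → ¬ K.Par e f) :
    ∑ e ∈ K.E, (K.ind (K.V \ {K.s e, K.t e})).W + 5 * K.W = #K.E * K.W := by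
  have h1 : ∑ e ∈ K.E, K.wt (K.nbE e) = 5 * K.W := by
    have : ∀ e ∈ K.E, K.wt (K.nbE e) = ∑ f ∈ K.E, if f ∈ K.nbE e then K.w f else 0 := by
      intro e _
      rw [← sum_filter]
      unfold wt
      apply sum_congr _ (fun _ _ => rfl)
      ext f
      rw [mem_filter]
      exact ⟨fun h => ⟨K.nbE_subset e h, h⟩, fun h => h.2⟩
    rw [sum_congr rfl this, sum_comm]
    unfold W wt
    rw [mul_sum]
    apply sum_congr rfl
    intro f hf
    rw [← sum_filter, sum_const, smul_eq_mul]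
    congr 1
    rw [← card_nbE_simple hl hc hs hf]
    congr 1
    ext e
    rw [mem_filter]
    constructor
    · rintro ⟨he, h⟩; exact (K.nbE_symm he hf).1 h
    · intro h
      have he := K.nbE_subset f h
      exact ⟨he, (K.nbE_symm he hf).2 h⟩
  rw [← h1, ← sum_add_distrib, sum_congr rfl fun e _ => K.W_ind_pair e, sum_const, smul_eq_mul]

theorem MB5 (h : ℕ) : MB h 5 3 1 := by
  apply moore_step (x := 4)
  · intro K hK hV hE
    have := MB4 h K hK hV hE
    omega
  · intro K hK hl hc hE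
    have h1 := hc.card
    by_cases hp : ∃ e ∈ K.E, ∃ f ∈ K.E, e ≠ f ∧ K.Par e f
    · obtain ⟨e, he, f, hf, hne, hp⟩ := hp
      obtain ⟨K', a1, a2, a3, a4⟩ := cubic_par (x := 3) hK hl hc (by omega) he hf hne hp
      have := MB3 h K' a1 (card_pos.1 (by omega)) a2
      omega
    · push Not at hp
      have hsum := sum_W_pair hl hc hp
      have hle : ∀ e ∈ K.E, 2 * h ≤ (K.ind (K.V \ {K.s e, K.t e})).W := by
        intro e he
        have b1 := K.card_ind_pair e
        have b2 := K.cardV_ind_pair hl he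
        have b3 := card_nbE_simple hl hc hp he
        have := MB2 h _ (hK.ind (K.V \ {K.s e, K.t e})) (card_pos.1 (by omega)) (by omega)
        omega
      have := sum_le_sum hle
      rw [sum_const, smul_eq_mul] at this
      have hE15 : #K.E = 15 := by omega
      rw [hE15] at this hsum
      omega

theorem MB6 (h : ℕ) : MB h 6 16 5 := by
  apply moore_step (x := 5)
  · intro K hK hV hE
    have := MB5 h K hK hV hE
    omega
  · intro K hK hl hc hE
    have := cubic_avg (x := 5) (by norm_num) (MB4 h) hK hl hc hE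
    omega

end MG
end Pool.H82.SC
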