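import Pool.Agent.H82.SC.Moore

set_option linter.unusedSimpArgs false
set_option linter.unusedVariables false

namespace Pool.H82.SC

open Finset

namespace MG

variable {K : MG}

/-- the girth parameters: all cycles have length at least `h`, odd ones at least `g` -/
structure Par2 (h g : ℕ) : Prop where
  h5 : 5 ≤ h
  hg : h ≤ g
  gh : g ≤ h + 1
  odd : Odd g

lemma odd_wt {h g : ℕ} (P : Par2 h g) (hK : K.Cyc h) {z : Finset ℕ} (hz : K.Ev z)
    (ho : Odd (K.wt z)) : g ≤ K.wt z := by
  have hne : z.Nonempty := by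
    rw [nonempty_iff_ne_empty]
    rintro rfl
    simp [wt] at ho
  have h1 := hK z hz hne
  have h2 := P.hg
  have h3 := P.gh
  have h4 := P.odd
  rw [Nat.odd_iff] at h4 ho
  omega

lemma g_le_of_not_bip {h g : ℕ} (P : Par2 h g) (hK : K.Cyc h) (hb : ¬ K.Bip) : g ≤ K.W := by
  obtain ⟨z, hz, ho⟩ := K.exists_odd_of_not_bip hb
  exact (odd_wt P hK hz ho).trans (K.wt_mono hz.1)

lemma bip_of_E_empty (h : K.E = ∅) : K.Bip := ⟨fun _ => true, fun e he => by rw [h] at he; simp at he⟩

lemma cardV_ind {v : ℕ} (hv : v ∈ K.V) : #(K.ind (K.V \ {v})).V + 1 = #K.V := by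
  show #(K.V \ {v}) + 1 = #K.V
  rw [card_sdiff_of_subset (by simpa using hv), card_singleton]
  have := card_pos.2 ⟨v, hv⟩
  omega

theorem oct_one {h g : ℕ} (P : Par2 h g) (K : MG) (hK : K.Cyc h) (hW : K.W < 2 * g)
    (hV : K.V.Nonempty) : ∃ u ∈ K.V, (K.ind (K.V \ {u})).Bip := by
  classical
  induction' hn : K.mu using Nat.strong_induction_on with n ih generalizing K
  by_cases hl : K.NoLoops
  swap
  · unfold NoLoops at hl
    push Not at hl
    obtain ⟨e, he, hst⟩ := hl
    have hwe : K.wt {e} = K.w e := by simp [wt]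
    rcases Nat.even_or_odd (K.w e) with hev | hod
    · obtain ⟨u, hu, c, hc⟩ := ih _ (hn ▸ K.mu_sube_lt he)
        (K.sube (K.E.erase e) (erase_subset _ _)) (hK.sube _ _)
        (lt_of_le_of_lt (K.sube_W_le _ _) hW) hV rfl
      refine ⟨u, hu, c, ?_⟩
      intro f hf
      by_cases hfe : f = e
      · subst hfe
        simp only [ind_s, ind_t, ind_w, hst, hev]
      · apply hc f
        simp only [ind_E, mem_filter, mem_sdiff, mem_singleton, sube_V, sube_E, sube_s, sube_t,
          mem_erase] at hf ⊢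
        exact ⟨⟨hfe, hf.1⟩, hf.2⟩
    · refine ⟨K.s e, K.hs e he, ?_⟩
      by_contra hb
      have h1 := g_le_of_not_bip P (hK.ind _) hb
      have h2 := odd_wt P hK (K.loop_ev he hst) (by rw [hwe]; exact hod)
      have h3 := K.W_ind_sdiff (K.s e)
      have h4 : K.wt {e} ≤ K.wt (K.star (K.s e)) := K.wt_mono (by
        intro f hf
        rw [mem_singleton] at hf
        subst hf
        simp [star, he])
      omega
  by_cases h1 : ∃ v ∈ K.V, K.deg v ≤ 1
  · obtain ⟨v, hv, hd⟩ := h1
    by_cases hVv : (K.V \ {v}).Nonempty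
    · obtain ⟨u, hu, c, hc⟩ := ih _ (hn ▸ K.mu_ind_lt hv) (K.ind (K.V \ {v})) (hK.ind _)
        (lt_of_le_of_lt (K.ind_W_le _) hW) hVv rfl
      have huV : u ∈ K.V ∧ u ≠ v := by
        have : u ∈ K.V \ {v} := hu
        simpa using this
      refine ⟨u, huV.1, ?_⟩
      have hmem : ∀ f ∈ (K.ind (K.V \ {u})).E, K.s f ≠ v → K.t f ≠ v →
          (c (K.s f) = c (K.t f) ↔ Even (K.w f)) := by
        intro f hf h1 h2
        have := hc f (by
          simp only [ind_E, mem_filter, mem_sdiff, mem_singleton, ind_V, ind_s, ind_t] at hf ⊢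
          tauto)
        simpa using this
      have hcs := K.card_star_le v
      by_cases hse : K.star v = ∅
      · refine ⟨c, fun f hf => ?_⟩
        have hfE : f ∈ K.E := (mem_filter.1 hf).1
        have : f ∉ K.star v := by rw [hse]; simp
        have hn : ¬ (K.s f = v ∨ K.t f = v) := fun hh => this (mem_filter.2 ⟨hfE, hh⟩)
        push Not at hn
        exact hmem f hf hn.1 hn.2
      · obtain ⟨e, he⟩ : ∃ e, K.star v = {e} := by
          apply card_eq_one.1
          have := card_pos.2 (nonempty_iff_ne_empty.2 hse)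
          omega
        have heS : e ∈ K.star v := by rw [he]; simp
        have heE := K.star_subset v heS
        have hev : K.s e = v ∨ K.t e = v := (mem_filter.1 heS).2
        refine ⟨fun x => if x = v then (if Even (K.w e) then c (K.oth e v) else !(c (K.oth e v)))
          else c x, fun f hf => ?_⟩
        simp only [ind_s, ind_t, ind_w]
        have hfE : f ∈ K.E := (mem_filter.1 hf).1
        by_cases hfe : f = e
        · subst hfe
          rcases hev with hh | hh
          · have hne : K.t f ≠ v := fun h2 => hl f hfE (hh.trans h2.symm)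
            by_cases hw : Even (K.w f) <;> simp [oth, hh, hne, hw]
          · have hne : K.s f ≠ v := fun h2 => hl f hfE (h2.trans hh.symm)
            by_cases hw : Even (K.w f) <;> simp [oth, hh, hne, hw]
        · have : f ∉ K.star v := by rw [he]; simpa using hfe
          have hn : ¬ (K.s f = v ∨ K.t f = v) := fun hh => this (mem_filter.2 ⟨hfE, hh⟩)
          push Not at hn
          rw [if_neg hn.1, if_neg hn.2]
          exact hmem f hf hn.1 hn.2
    · refine ⟨v, hv, bip_of_E_empty ?_⟩
      rw [not_nonempty_iff_eq_empty] at hVv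
      rw [eq_empty_iff_forall_notMem]
      intro f hf
      have := (K.ind (K.V \ {v})).hs f hf
      rw [ind_V, hVv] at this
      simp at this
  by_cases h2 : ∃ v ∈ K.V, K.deg v = 2
  · obtain ⟨v, hv, hd⟩ := h2
    obtain ⟨e1, e2, hS⟩ := exists_suppData hl hv hd
    have hne : (supp hS).V.Nonempty :=
      ⟨K.oth e1 v, by rw [supp_V, mem_erase]; exact ⟨oth_ne hl hS.h1, oth_mem hS.h1⟩⟩
    obtain ⟨u, hu, hb⟩ := ih _ (hn ▸ supp_mu_lt hS) (supp hS) (supp_Cyc hS hK)
      (by rw [supp_W]; exact hW) hne rfl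
    rw [supp_V, mem_erase] at hu
    exact ⟨u, hu.2, supp_Bip hS hu.1 hb⟩
  by_cases h3 : ∃ v ∈ K.V, 4 ≤ K.deg v
  · obtain ⟨v, hv, hd⟩ := h3
    obtain ⟨e1, e2, v', e0, hS⟩ := exists_splitData hl hv hd
    obtain ⟨u, hu, hb⟩ := ih _ (hn ▸ split_mu_lt hS) (split hS) (split_Cyc hS hK)
      (by rw [split_W]; exact hW) ⟨v', by rw [split_V]; exact mem_insert_self _ _⟩ rfl
    exact split_Bip hS hu hb
  have hc : K.Cubic := by
    intro v hv
    push Not at h1 h2 h3
    have a1 := h1 v hv
    have a2 := h2 v hv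
    have a3 := h3 v hv
    omega
  have hcard := hc.card
  have hpos := card_pos.2 hV
  have P1 := P.h5
  have P2 := P.hg
  have P3 := P.gh
  have hx : #K.V = 2 ∨ #K.V = 4 ∨ 6 ≤ #K.V := by omega
  rcases hx with hx | hx | hx
  · obtain ⟨u, hu⟩ := hV
    refine ⟨u, hu, bip_of_E_empty ?_⟩
    have h4 := cardV_ind hu
    have h5 : #(K.ind (K.V \ {u})).V = 1 := by omega
    obtain ⟨a, ha⟩ := card_eq_one.1 h5
    rw [eq_empty_iff_forall_notMem]
    intro f hf
    have hs := (K.ind (K.V \ {u})).hs f hf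
    have ht := (K.ind (K.V \ {u})).ht f hf
    rw [ha, mem_singleton] at hs ht
    exact hl f (mem_filter.1 hf).1 (hs.trans ht.symm)
  · by_contra hcon
    push Not at hcon
    have h4 : ∀ u ∈ K.V, g ≤ (K.ind (K.V \ {u})).W := fun u hu =>
      g_le_of_not_bip P (hK.ind _) (hcon u hu)
    have h5 := sum_le_sum h4
    rw [sum_const, smul_eq_mul] at h5
    have h6 := K.sum_W_ind hl
    rw [hx] at h5 h6
    omega
  · exfalso
    have := MB3 h K hK hV (by omega)
    omega

theorem two_of_D {h g : ℕ} (P : Par2 h g) (K : MG) (hK : K.Cyc h)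
    (hD : ∀ X ⊆ K.V, 2 ≤ K.D X) : 2 * g ≤ K.W := by
  by_contra hcon
  push Not at hcon
  by_cases hV : K.V.Nonempty
  · obtain ⟨u, hu, hb⟩ := oct_one P K hK hcon hV
    obtain ⟨X, hX, hle⟩ := K.exists_D_le (S := {u}) (by simpa using hu) hb
    have := hD X hX
    rw [card_singleton] at hle
    push_cast at hle
    linarith
  · have hE : K.E = ∅ := by
      by_contra hne
      exact hV (K.V_nonempty_of_E (nonempty_iff_ne_empty.2 hne))
    rw [not_nonempty_iff_eq_empty] at hV
    have := hD ∅ (empty_subset _)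
    simp [D, hV, hE] at this

end MG
end Pool.H82.SC
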