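import Pool.Agent.H82.SC.Supp2

set_option linter.unusedSimpArgs false
set_option linter.unusedVariables false

namespace Pool.H82.SC

open Finset

namespace MG

variable {K : MG}

/-- data for subdividing an edge -/
structure SubData (K : MG) (e v' e' : ℕ) : Prop where
  he : e ∈ K.E
  hv' : v' ∉ K.V
  he' : e' ∉ K.E
  hw : 2 ≤ K.w e

variable {e v' e' : ℕ}

lemma SubData.ne (h : K.SubData e v' e') : e ≠ e' := fun hh => h.he' (hh ▸ h.he)

/-- subdivide the edge `e` -/
@[simps -isSimp] def subdiv (h : K.SubData e v' e') : MG where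
  V := insert v' K.V
  E := insert e' K.E
  s := fun f => if f = e' then v' else K.s f
  t := fun f => if f = e' then K.t e else if f = e then v' else K.t f
  w := fun f => if f = e' then K.w e - 1 else if f = e then 1 else K.w f
  hs := by
    intro f hf
    rw [mem_insert] at hf
    by_cases h1 : f = e'
    · rw [if_pos h1]; exact mem_insert_self _ _
    · rw [if_neg h1]; exact mem_insert_of_mem (K.hs f (hf.resolve_left h1))
  ht := by
    intro f hf
    rw [mem_insert] at hf
    by_cases h1 : f = e'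
    · rw [if_pos h1]; exact mem_insert_of_mem (K.ht e h.he)
    · rw [if_neg h1]
      by_cases h2 : f = e
      · rw [if_pos h2]; exact mem_insert_self _ _
      · rw [if_neg h2]; exact mem_insert_of_mem (K.ht f (hf.resolve_left h1))

lemma subdiv_cardV (h : K.SubData e v' e') : #(subdiv h).V = #K.V + 1 := by
  rw [subdiv_V, card_insert_of_notMem h.hv']

lemma subdiv_cardE (h : K.SubData e v' e') : #(subdiv h).E = #K.E + 1 := by
  rw [subdiv_E, card_insert_of_notMem h.he']

lemma subdiv_sum {M : Type*} [AddCommMonoid M] (h : K.SubData e v' e') (f : ℕ → M) :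
    ∑ x ∈ (subdiv h).E, f x = f e' + (f e + ∑ x ∈ K.E.erase e, f x) := by
  rw [subdiv_E, sum_insert h.he', add_sum_erase _ _ h.he]

lemma subdiv_W (h : K.SubData e v' e') : (subdiv h).W = K.W := by
  unfold W wt
  rw [subdiv_sum, ← add_sum_erase K.E _ h.he]
  have h1 : ∑ x ∈ K.E.erase e, (subdiv h).w x = ∑ x ∈ K.E.erase e, K.w x := by
    apply sum_congr rfl
    intro x hx
    have n1 : x ≠ e := (mem_erase.1 hx).1
    have n2 : x ≠ e' := fun hh => h.he' (hh ▸ (mem_erase.1 hx).2)
    simp [subdiv_w, n1, n2]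
  rw [h1]
  have h2 := h.hw
  simp only [subdiv_w, if_true, h.ne, if_false]
  omega

lemma subdiv_pos (h : K.SubData e v' e') (hp : ∀ f ∈ K.E, 1 ≤ K.w f) :
    ∀ f ∈ (subdiv h).E, 1 ≤ (subdiv h).w f := by
  intro f hf
  rw [subdiv_E, mem_insert] at hf
  rw [subdiv_w]
  have := h.hw
  split_ifs with h1 h2
  · omega
  · exact le_rfl
  · exact hp f (hf.resolve_left h1)

lemma subdiv_Cyc (h : K.SubData e v' e') {n : ℕ} (hK : K.Cyc n) : (subdiv h).Cyc n := by
  intro z hz hne
  have hnee := h.ne
  have hsv : K.s e ≠ v' := fun hh => h.hv' (hh ▸ K.hs e h.he)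
  have htv : K.t e ≠ v' := fun hh => h.hv' (hh ▸ K.ht e h.he)
  have hinc : ∀ f ∈ z, f ≠ e → f ≠ e' → ∀ u, (subdiv h).inc f u = K.inc f u := by
    intro f _ h1 h2 u
    simp [MG.inc, subdiv_s, subdiv_t, h1, h2]
  have hmemE : ∀ f ∈ z, f ≠ e' → f ∈ K.E := by
    intro f hf h1
    have := hz.1 hf
    rw [subdiv_E, mem_insert] at this
    exact this.resolve_left h1
  have hinc0 : ∀ f ∈ z, f ≠ e → f ≠ e' → (subdiv h).inc f v' = 0 := by
    intro f hf h1 h2
    rw [hinc f hf h1 h2]
    have hfE := hmemE f hf h2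
    have a1 : K.s f ≠ v' := fun hh => h.hv' (hh ▸ K.hs f hfE)
    have a2 : K.t f ≠ v' := fun hh => h.hv' (hh ▸ K.ht f hfE)
    simp [MG.inc, a1, a2]
  have ie : ∀ u, (subdiv h).inc e u = (if K.s e = u then 1 else 0) + (if v' = u then 1 else 0) := by
    intro u; simp [MG.inc, subdiv_s, subdiv_t, hnee]
  have ie' : ∀ u, (subdiv h).inc e' u = (if v' = u then 1 else 0) +
      (if K.t e = u then 1 else 0) := by
    intro u; simp [MG.inc, subdiv_s, subdiv_t]
  have iff1 : e ∈ z ↔ e' ∈ z := by
    have hb := hz.2 v'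
    unfold bd at hb
    by_cases m1 : e ∈ z <;> by_cases m2 : e' ∈ z
    · simp [m1, m2]
    · exfalso
      rw [← add_sum_erase _ _ m1, sum_eq_zero (s := z.erase e), add_zero, ie] at hb
      · simp [hsv] at hb
      · intro f hf
        exact hinc0 f (mem_erase.1 hf).2 (mem_erase.1 hf).1 (fun hh => m2 (hh ▸ (mem_erase.1 hf).2))
    · exfalso
      rw [← add_sum_erase _ _ m2, sum_eq_zero (s := z.erase e'), add_zero, ie'] at hb
      · simp [htv] at hb
      · intro f hf
        exact hinc0 f (mem_erase.1 hf).2 (fun hh => m1 (hh ▸ (mem_erase.1 hf).2)) (mem_erase.1 hf).1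
    · simp [m1, m2]
  have hz' : K.Ev (z.erase e') := by
    refine ⟨fun f hf => hmemE f (mem_erase.1 hf).2 (mem_erase.1 hf).1, fun u => ?_⟩
    have hb := hz.2 u
    unfold bd at hb ⊢
    by_cases m2 : e' ∈ z
    · have m1 : e ∈ z.erase e' := mem_erase.2 ⟨hnee, iff1.2 m2⟩
      rw [← add_sum_erase _ _ m2, ← add_sum_erase _ _ m1, ie', ie] at hb
      rw [← add_sum_erase _ _ m1]
      have h3 : ∑ f ∈ (z.erase e').erase e, (subdiv h).inc f u =
          ∑ f ∈ (z.erase e').erase e, K.inc f u := by
        apply sum_congr rfl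
        intro f hf
        obtain ⟨n1, hf2⟩ := mem_erase.1 hf
        obtain ⟨n2, hf3⟩ := mem_erase.1 hf2
        exact hinc f hf3 n1 n2 u
      rw [h3] at hb
      have h4 : K.inc e u = (if K.s e = u then 1 else 0) + (if K.t e = u then 1 else 0) := rfl
      rw [h4]
      have h5 := zmod2_add_self (if v' = u then (1 : ZMod 2) else 0)
      linear_combination hb - h5
    · rw [erase_eq_of_notMem m2]
      rw [← hb]
      apply sum_congr rfl
      intro f hf
      have n2 : f ≠ e' := fun hh => m2 (hh ▸ hf)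
      have n1 : f ≠ e := fun hh => m2 (iff1.1 (hh ▸ hf))
      exact (hinc f hf n1 n2 u).symm
  have hwt : K.wt (z.erase e') = (subdiv h).wt z := by
    unfold wt
    by_cases m2 : e' ∈ z
    · have m1 : e ∈ z.erase e' := mem_erase.2 ⟨hnee, iff1.2 m2⟩
      rw [← add_sum_erase _ _ m2, ← add_sum_erase _ _ m1, ← add_sum_erase _ _ m1]
      have h3 : ∑ f ∈ (z.erase e').erase e, (subdiv h).w f =
          ∑ f ∈ (z.erase e').erase e, K.w f := by
        apply sum_congr rfl
        intro f hf
        obtain ⟨n1, hf2⟩ := mem_erase.1 hf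
        obtain ⟨n2, hf3⟩ := mem_erase.1 hf2
        simp [subdiv_w, n1, n2]
      rw [h3]
      have := h.hw
      simp only [subdiv_w, if_true, hnee, if_false]
      omega
    · rw [erase_eq_of_notMem m2]
      apply sum_congr rfl
      intro f hf
      have n2 : f ≠ e' := fun hh => m2 (hh ▸ hf)
      have n1 : f ≠ e := fun hh => m2 (iff1.1 (hh ▸ hf))
      simp [subdiv_w, n1, n2]
  rw [← hwt]
  apply hK _ hz'
  by_cases m2 : e' ∈ z
  · exact ⟨e, mem_erase.2 ⟨hnee, iff1.2 m2⟩⟩
  · rw [erase_eq_of_notMem m2]; exact hne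

lemma subdiv_D (h : K.SubData e v' e') (Y : Finset ℕ) :
    K.D (Y.erase v') ≤ (subdiv h).D Y := by
  classical
  have hnee := h.ne
  have hsv : K.s e ≠ v' := fun hh => h.hv' (hh ▸ K.hs e h.he)
  have htv : K.t e ≠ v' := fun hh => h.hv' (hh ▸ K.ht e h.he)
  have hse : K.s e ∈ Y.erase v' ↔ K.s e ∈ Y := by simp [hsv]
  have hte : K.t e ∈ Y.erase v' ↔ K.t e ∈ Y := by simp [htv]
  unfold D
  rw [subdiv_sum, ← add_sum_erase K.E _ h.he, subdiv_cardV h]
  have h1 : ∑ x ∈ K.E.erase e, (subdiv h).phi Y x = ∑ x ∈ K.E.erase e, K.phi (Y.erase v') x := by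
    apply sum_congr rfl
    intro x hx
    have hxE := (mem_erase.1 hx).2
    have n1 : x ≠ e := (mem_erase.1 hx).1
    have n2 : x ≠ e' := fun hh => h.he' (hh ▸ hxE)
    have a1 : K.s x ≠ v' := fun hh => h.hv' (hh ▸ K.hs x hxE)
    have a2 : K.t x ≠ v' := fun hh => h.hv' (hh ▸ K.ht x hxE)
    simp [phi, subdiv_w, subdiv_s, subdiv_t, n1, n2, a1, a2]
  rw [h1]
  have hw := h.hw
  have hpe : (subdiv h).phi Y e = if K.s e ∈ Y ∧ v' ∈ Y then 2 else 0 := by
    unfold phi
    simp only [subdiv_w, subdiv_s, subdiv_t, hnee, if_false, if_true]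
    rw [if_neg (by decide)]
  have hpe' : (subdiv h).phi Y e' = if Even (K.w e) then (if v' ∈ Y ∧ K.t e ∈ Y then 2 else 0)
      else (if v' ∈ Y ∨ K.t e ∈ Y then 1 else -1) := by
    unfold phi
    simp only [subdiv_w, subdiv_s, subdiv_t, if_true]
    have hpar : Even (K.w e - 1) ↔ ¬ Even (K.w e) := by
      rw [Nat.even_sub (by omega)]
      simp
    by_cases hev : Even (K.w e) <;> simp [hpar, hev]
  have hpK : K.phi (Y.erase v') e = if Even (K.w e) then (if K.s e ∈ Y ∨ K.t e ∈ Y then 1 else -1)
      else (if K.s e ∈ Y ∧ K.t e ∈ Y then 2 else 0) := by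
    unfold phi
    simp only [hse, hte]
  rw [hpe, hpe', hpK]
  have hcard : (#Y : ℤ) = #(Y.erase v') + if v' ∈ Y then 1 else 0 := by
    by_cases hv : v' ∈ Y
    · rw [card_erase_of_mem hv, if_pos hv]
      have := card_pos.2 ⟨v', hv⟩
      omega
    · rw [erase_eq_of_notMem hv, if_neg hv]; simp
  rw [hcard]
  push_cast
  by_cases hev : Even (K.w e) <;> by_cases a : K.s e ∈ Y <;> by_cases b : K.t e ∈ Y <;>
    by_cases c : v' ∈ Y <;> simp only [hev, a, b, c, if_true, if_false, and_true, true_and,
      and_false, false_and, or_true, true_or, or_false, false_or, and_self, or_self] <;> linarith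

/-- full subdivision to unit weights -/
theorem exists_unit (K : MG) {n : ℕ} {d : ℤ} (hK : K.Cyc n) (hp : ∀ f ∈ K.E, 1 ≤ K.w f)
    (hD : ∀ X ⊆ K.V, d ≤ K.D X) :
    ∃ K' : MG, K'.Cyc n ∧ (∀ f ∈ K'.E, K'.w f = 1) ∧ (∀ X ⊆ K'.V, d ≤ K'.D X) ∧
      #K'.V + #K.E = #K.V + K.W := by
  induction' hk : K.W - #K.E using Nat.strong_induction_on with k ih generalizing K
  by_cases hu : ∀ f ∈ K.E, K.w f = 1
  · refine ⟨K, hK, hu, hD, ?_⟩
    have : K.W = #K.E := by
      unfold W wt
      rw [sum_congr rfl hu, sum_const, smul_eq_mul, mul_one]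
    rw [this]
  · push Not at hu
    obtain ⟨e, he, hne⟩ := hu
    have hw : 2 ≤ K.w e := by
      have := hp e he
      omega
    obtain ⟨v', hv'⟩ := Infinite.exists_notMem_finset K.V
    obtain ⟨e', he'⟩ := Infinite.exists_notMem_finset K.E
    have hS : K.SubData e v' e' := ⟨he, hv', he', hw⟩
    have c1 := subdiv_cardV hS
    have c2 := subdiv_cardE hS
    have c3 := subdiv_W hS
    have hlt : #K.E < K.W := by
      unfold W wt
      rw [card_eq_sum_ones]
      exact sum_lt_sum hp ⟨e, he, by omega⟩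
    obtain ⟨K', h1, h2, h3, h4⟩ := ih ((subdiv hS).W - #(subdiv hS).E) (by omega) (subdiv hS)
      (subdiv_Cyc hS hK) (subdiv_pos hS hp) (by
        intro X hX
        refine le_trans (hD _ ?_) (subdiv_D hS X)
        intro x hx
        obtain ⟨n1, hx2⟩ := mem_erase.1 hx
        have := hX hx2
        rw [subdiv_V, mem_insert] at this
        exact this.resolve_left n1) rfl
    exact ⟨K', h1, h2, h3, by omega⟩

/-- add a disjoint edge -/
theorem exists_addK2 (K : MG) {n : ℕ} {d : ℤ} (hK : K.Cyc n) (hu : ∀ f ∈ K.E, K.w f = 1)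
    (hD : ∀ X ⊆ K.V, d ≤ K.D X) :
    ∃ K' : MG, K'.Cyc n ∧ (∀ f ∈ K'.E, K'.w f = 1) ∧ (∀ X ⊆ K'.V, d ≤ K'.D X) ∧
      #K'.V = #K.V + 2 := by
  classical
  obtain ⟨a, ha⟩ := Infinite.exists_notMem_finset K.V
  obtain ⟨b, hb⟩ := Infinite.exists_notMem_finset (insert a K.V)
  obtain ⟨e', he'⟩ := Infinite.exists_notMem_finset K.E
  have hab : a ≠ b := fun hh => hb (hh ▸ mem_insert_self _ _)
  have hbV : b ∉ K.V := fun hh => hb (mem_insert_of_mem hh)
  let K' : MG :=
    { V := insert b (insert a K.V)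
      E := insert e' K.E
      s := fun f => if f = e' then a else K.s f
      t := fun f => if f = e' then b else K.t f
      w := fun f => if f = e' then 1 else K.w f
      hs := by
        intro f hf
        rw [mem_insert] at hf
        by_cases h1 : f = e'
        · rw [if_pos h1]; simp
        · rw [if_neg h1]
          exact mem_insert_of_mem (mem_insert_of_mem (K.hs f (hf.resolve_left h1)))
      ht := by
        intro f hf
        rw [mem_insert] at hf
        by_cases h1 : f = e'
        · rw [if_pos h1]; simp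
        · rw [if_neg h1]
          exact mem_insert_of_mem (mem_insert_of_mem (K.ht f (hf.resolve_left h1))) }
  have hKE : ∀ f ∈ K.E, f ≠ e' := fun f hf hh => he' (hh ▸ hf)
  have hEv : ∀ z, K'.Ev z → K.Ev z ∧ K'.wt z = K.wt z := by
    intro z hz
    have hnot : e' ∉ z := by
      intro hin
      have hbd := hz.2 a
      unfold bd at hbd
      rw [← add_sum_erase _ _ hin, sum_eq_zero (s := z.erase e'), add_zero] at hbd
      · have : K'.inc e' a = 1 := by
          simp only [MG.inc, K', if_true]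
          rw [if_neg hab.symm, add_zero]
        rw [this] at hbd
        exact one_ne_zero hbd
      · intro f hf
        obtain ⟨n1, hf2⟩ := mem_erase.1 hf
        have hfE : f ∈ K.E := by
          have : f ∈ insert e' K.E := hz.1 hf2
          rw [mem_insert] at this
          exact this.resolve_left n1
        have a1 : K.s f ≠ a := fun hh => ha (hh ▸ K.hs f hfE)
        have a2 : K.t f ≠ a := fun hh => ha (hh ▸ K.ht f hfE)
        simp [MG.inc, K', n1, a1, a2]
    have hsub : z ⊆ K.E := by
      intro f hf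
      have : f ∈ insert e' K.E := hz.1 hf
      rw [mem_insert] at this
      exact this.resolve_left (fun hh => hnot (hh ▸ hf))
    refine ⟨⟨hsub, fun u => ?_⟩, ?_⟩
    · rw [← hz.2 u]
      apply sum_congr rfl
      intro f hf
      have := hKE f (hsub hf)
      simp [MG.inc, K', this]
    · apply sum_congr rfl
      intro f hf
      have := hKE f (hsub hf)
      simp [K', this]
  refine ⟨K', ?_, ?_, ?_, ?_⟩
  · intro z hz hne
    obtain ⟨h1, h2⟩ := hEv z hz
    rw [h2]
    exact hK z h1 hne
  · intro f hf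
    have hf' : f ∈ insert e' K.E := hf
    rw [mem_insert] at hf'
    by_cases h1 : f = e'
    · simp [K', h1]
    · simp only [K', if_neg h1]
      exact hu f (hf'.resolve_left h1)
  · intro X hX
    have hX' : X ⊆ insert b (insert a K.V) := hX
    have hsub : (X.erase b).erase a ⊆ K.V := by
      intro x hx
      simp only [mem_erase] at hx
      have := hX' hx.2.2
      simp only [mem_insert] at this
      tauto
    refine (hD _ hsub).trans ?_
    unfold D
    have hV' : #K'.V = #K.V + 2 := by
      show #(insert b (insert a K.V)) = _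
      rw [card_insert_of_notMem hb, card_insert_of_notMem ha]
    have hsum : ∑ f ∈ K'.E, K'.phi X f = (if a ∈ X ∧ b ∈ X then 2 else 0) +
        ∑ f ∈ K.E, K.phi ((X.erase b).erase a) f := by
      show ∑ f ∈ insert e' K.E, K'.phi X f = _
      rw [sum_insert he']
      congr 1
      · simp [phi, K']
      · apply sum_congr rfl
        intro f hf
        have n1 := hKE f hf
        have a1 : K.s f ≠ a := fun hh => ha (hh ▸ K.hs f hf)
        have a2 : K.t f ≠ a := fun hh => ha (hh ▸ K.ht f hf)
        have b1 : K.s f ≠ b := fun hh => hbV (hh ▸ K.hs f hf)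
        have b2 : K.t f ≠ b := fun hh => hbV (hh ▸ K.ht f hf)
        simp [phi, K', n1, a1, a2, b1, b2]
    rw [hsum, hV']
    have hcard : (#X : ℤ) = #((X.erase b).erase a) + (if a ∈ X then 1 else 0) +
        (if b ∈ X then 1 else 0) := by
      have h1 : (#X : ℤ) = #(X.erase b) + if b ∈ X then 1 else 0 := by
        by_cases hv : b ∈ X
        · rw [card_erase_of_mem hv, if_pos hv]
          have := card_pos.2 ⟨b, hv⟩
          omega
        · rw [erase_eq_of_notMem hv, if_neg hv]; simp
      have h2 : (#(X.erase b) : ℤ) = #((X.erase b).erase a) + if a ∈ X then 1 else 0 := by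
        have hiff : a ∈ X.erase b ↔ a ∈ X := by simp [hab]
        by_cases hv : a ∈ X.erase b
        · rw [card_erase_of_mem hv, if_pos (hiff.1 hv)]
          have := card_pos.2 ⟨a, hv⟩
          omega
        · rw [erase_eq_of_notMem hv, if_neg (fun hh => hv (hiff.2 hh))]; simp
      linarith
    rw [hcard]
    push_cast
    by_cases p : a ∈ X <;> by_cases q : b ∈ X <;> simp [p, q] <;> linarith
  · show #(insert b (insert a K.V)) = _
    rw [card_insert_of_notMem hb, card_insert_of_notMem ha]

end MG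
end Pool.H82.SC
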