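import Pool.Agent.H82.SC.Tight

set_option linter.unusedSimpArgs false
set_option linter.unusedVariables false

namespace Pool.H82.SC

open Finset

namespace MG

variable {K : MG}

/-- unit weights and no loops -/
structure Uni (K : MG) : Prop where
  w1 : ∀ e ∈ K.E, K.w e = 1
  nl : K.NoLoops

lemma Uni.W (h : K.Uni) : K.W = #K.E := by
  unfold MG.W wt
  rw [sum_congr rfl h.w1, sum_const, smul_eq_mul, mul_one]

lemma Uni.not_even (h : K.Uni) {e : ℕ} (he : e ∈ K.E) : ¬ Even (K.w e) := by
  rw [h.w1 e he]; decide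

lemma Uni.ev (h : K.Uni) : K.ev = ∅ := by
  unfold MG.ev
  rw [filter_eq_empty_iff]
  intro e he
  exact h.not_even he

lemma Uni.closed (h : K.Uni) (S : Finset ℕ) : K.Closed S := fun e he hw => absurd hw (h.not_even he)

lemma Uni.ind (h : K.Uni) (S : Finset ℕ) : (K.ind S).Uni :=
  ⟨fun e he => h.w1 e (mem_filter.1 he).1, fun e he => h.nl e (mem_filter.1 he).1⟩

lemma Uni.D (h : K.Uni) (X : Finset ℕ) : K.D X = (#K.V : ℤ) - 2 * #X + 2 * #(K.ind X).E := by
  rw [D_closed (h.closed X), h.ev, card_empty]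
  push_cast
  ring

/-- Moore bound for unit weights -/
lemma Uni.moore (h : K.Uni) {n x p q : ℕ} (hM : MB n x p q) (hK : K.Cyc n) (hV : K.V.Nonempty)
    (hE : #K.V + x ≤ #K.E) : p * n ≤ q * (#K.V + x) := by
  obtain ⟨F, hF, hFc⟩ := exists_subset_card_eq hE
  have h1 := hM (K.sube F hF) (hK.sube F hF) hV (by rw [sube_V, sube_E, hFc])
  have h2 : (K.sube F hF).W = #F := by
    have hu : (K.sube F hF).Uni := ⟨fun e he => h.w1 e (hF he), fun e he => h.nl e (hF he)⟩
    rw [hu.W]
    rfl
  rw [h2, hFc] at h1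
  exact h1

/-- removing a vertex of degree at most one -/
lemma prune_step (h : K.Uni) {n : ℕ} (hK : K.Cyc n) (hD : ∀ X ⊆ K.V, 3 ≤ K.D X)
    (hodd : Odd #K.V) {v : ℕ} (hv : v ∈ K.V) (hd : K.deg v ≤ 1) :
    ∃ S ⊆ K.V, #S < #K.V ∧ Odd #S ∧ ∀ X ⊆ S, 3 ≤ (K.ind S).D X := by
  classical
  have hcs := K.card_star_le v
  by_cases hse : K.star v = ∅
  · -- isolated vertex
    have h1 : ∀ X ⊆ K.V \ {v}, 4 ≤ (K.ind (K.V \ {v})).D X := by
      intro X hX
      have hvX : v ∉ X := fun hh => by
        have := hX hh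
        simp at this
      have hsub : insert v X ⊆ K.V := insert_subset hv (hX.trans sdiff_subset)
      have h2 := hD _ hsub
      rw [h.D, card_insert_of_notMem hvX] at h2
      rw [(h.ind _).D]
      have h3 : (K.ind (insert v X)).E = ((K.ind (K.V \ {v})).ind X).E := by
        ext e
        simp only [ind_E, ind_s, ind_t, mem_filter, mem_insert, mem_sdiff, mem_singleton]
        constructor
        · rintro ⟨he, a, b⟩
          have hns : e ∉ K.star v := by rw [hse]; simp
          unfold star at hns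
          rw [mem_filter] at hns
          push Not at hns
          obtain ⟨c1, c2⟩ := hns he
          exact ⟨⟨he, ⟨K.hs e he, c1⟩, K.ht e he, c2⟩, a.resolve_left c1, b.resolve_left c2⟩
        · rintro ⟨⟨he, -, -⟩, a, b⟩
          exact ⟨he, Or.inr a, Or.inr b⟩
      rw [h3] at h2
      have h4 : (#(K.ind (K.V \ {v})).V : ℤ) + 1 = #K.V := by
        exact_mod_cast cardV_ind hv
      push_cast at h2
      linarith
    have hne : (K.V \ {v}).Nonempty := by
      rw [nonempty_iff_ne_empty]
      intro he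
      have h2 := h1 ∅ (empty_subset _)
      rw [(h.ind _).D] at h2
      have h3 : #(K.ind (K.V \ {v})).V = 0 := by rw [ind_V, he, card_empty]
      have h4 : ((K.ind (K.V \ {v})).ind ∅).E = ∅ := by
        rw [eq_empty_iff_forall_notMem]
        intro e he
        simp [ind_E] at he
      rw [h3, h4] at h2
      simp at h2
    obtain ⟨u, hu⟩ := hne
    have huV : u ∈ K.V ∧ u ≠ v := by simpa using hu
    refine ⟨(K.V \ {v}) \ {u}, sdiff_subset.trans sdiff_subset, ?_, ?_, ?_⟩
    · apply card_lt_card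
      rw [ssubset_iff_of_subset (sdiff_subset.trans sdiff_subset)]
      exact ⟨v, hv, by simp⟩
    · have c1 : #(K.V \ {v}) + 1 = #K.V := cardV_ind hv
      have c2 : #((K.V \ {v}) \ {u}) + 1 = #(K.V \ {v}) := cardV_ind (K := K.ind (K.V \ {v})) hu
      rw [Nat.odd_iff] at hodd ⊢
      omega
    · intro X hX
      have h2 := h1 X (hX.trans sdiff_subset)
      rw [(h.ind _).D] at h2 ⊢
      have h3 : ((K.ind (K.V \ {v})).ind X).E = ((K.ind ((K.V \ {v}) \ {u})).ind X).E := by
        ext e
        simp only [ind_E, ind_s, ind_t, mem_filter, mem_sdiff, mem_singleton]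
        constructor
        · rintro ⟨⟨he, a, b⟩, c, d⟩
          have hc := hX c
          have hd := hX d
          simp only [mem_sdiff, mem_singleton] at hc hd
          exact ⟨⟨he, hc, hd⟩, c, d⟩
        · rintro ⟨⟨he, a, b⟩, c, d⟩
          exact ⟨⟨he, a.1, b.1⟩, c, d⟩
      rw [h3] at h2
      have c2 : (#((K.V \ {v}) \ {u}) : ℤ) + 1 = #(K.V \ {v}) := by
        exact_mod_cast cardV_ind (K := K.ind (K.V \ {v})) hu
      simp only [ind_V] at h2 ⊢
      linarith
  · obtain ⟨e, he⟩ : ∃ e, K.star v = {e} := by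
      apply card_eq_one.1
      have := card_pos.2 (nonempty_iff_ne_empty.2 hse)
      omega
    have heS : e ∈ K.star v := by rw [he]; simp
    have heE := K.star_subset v heS
    set u := K.oth e v with hu
    have huV : u ∈ K.V := oth_mem heE
    have huv : u ≠ v := oth_ne h.nl heE
    have hj : K.J e v u := J_star h.nl heS
    have hSV : ({v, u} : Finset ℕ) ⊆ K.V := by
      intro x hx
      simp only [mem_insert, mem_singleton] at hx
      rcases hx with rfl | rfl
      · exact hv
      · exact huV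
    have hc2 : #({v, u} : Finset ℕ) = 2 := card_pair huv.symm
    refine ⟨K.V \ {v, u}, sdiff_subset, ?_, ?_, ?_⟩
    · rw [card_sdiff_of_subset hSV, hc2]
      have := card_pos.2 ⟨v, hv⟩
      omega
    · rw [card_sdiff_of_subset hSV, hc2]
      have := card_le_card hSV
      rw [Nat.odd_iff] at hodd ⊢
      omega
    · intro X hX
      have h4 := K.D_split hSV (h.closed _) (A := {v}) (by simp) hX (by
        intro f hf
        constructor
        · rintro ⟨h5, h6⟩
          rw [mem_singleton] at h5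
          have hfs : f ∈ K.star v := by simp [star, hf, h5]
          rw [he, mem_singleton] at hfs
          subst hfs
          have h7 := hX h6
          rw [mem_sdiff] at h7
          apply h7.2
          rcases hj with ⟨j1, j2⟩ | ⟨j1, j2⟩
          · rw [j2]; simp
          · exact absurd (j1.symm.trans h5) huv
        · rintro ⟨h5, h6⟩
          rw [mem_singleton] at h6
          have hfs : f ∈ K.star v := by simp [star, hf, h6]
          rw [he, mem_singleton] at hfs
          subst hfs
          have h7 := hX h5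
          rw [mem_sdiff] at h7
          apply h7.2
          rcases hj with ⟨j1, j2⟩ | ⟨j1, j2⟩
          · exact absurd (j2.symm.trans h6) huv
          · rw [j1]; simp)
      have h5 := hD (X ∪ {v}) (union_subset (hX.trans sdiff_subset) (by simpa using hv))
      rw [h4, (h.ind {v, u}).D] at h5
      have h6 : ((K.ind {v, u}).ind {v}).E = ∅ := by
        rw [eq_empty_iff_forall_notMem]
        intro f hf
        simp only [ind_E, ind_s, ind_t, mem_filter, mem_singleton] at hf
        exact h.nl f hf.1.1 (hf.2.1.trans hf.2.2.symm)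
      rw [h6] at h5
      simp only [ind_V, hc2, card_singleton, card_empty] at h5
      push_cast at h5
      linarith

theorem prune (h : K.Uni) {n : ℕ} (hK : K.Cyc n) (hD : ∀ X ⊆ K.V, 3 ≤ K.D X)
    (hodd : Odd #K.V) : ∃ K' : MG, K'.Uni ∧ K'.Cyc n ∧ (∀ X ⊆ K'.V, 3 ≤ K'.D X) ∧
      Odd #K'.V ∧ #K'.V ≤ #K.V ∧ ∀ v ∈ K'.V, 2 ≤ K'.deg v := by
  induction' hk : #K.V using Nat.strong_induction_on with k ih generalizing K
  by_cases hmin : ∀ v ∈ K.V, 2 ≤ K.deg v
  · exact ⟨K, h, hK, hD, hodd, hk.le, hmin⟩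
  · push Not at hmin
    obtain ⟨v, hv, hd⟩ := hmin
    obtain ⟨S, hSV, hlt, hSo, hSD⟩ := prune_step h hK hD hodd hv (by omega)
    obtain ⟨K', a, b, c, d, e, f⟩ := ih (#(K.ind S).V) (hk ▸ hlt) (h.ind S) (hK.ind S) hSD hSo rfl
    exact ⟨K', a, b, c, d, e.trans (hk ▸ hlt.le), f⟩

/-- lower bound on the number of vertices, even girth parameter -/
theorem card_even {n : ℕ} (hn : 6 ≤ n) (he : Even n) (h : K.Uni) (hK : K.Cyc n)
    (hD : ∀ X ⊆ K.V, 3 ≤ K.D X) (hodd : Odd #K.V) : 3 * n ≤ #K.V + 4 := by
  obtain ⟨K', a, b, c, d, e, f⟩ := prune h hK hD hodd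
  have hV : K'.V.Nonempty := by
    rw [← card_pos]
    rw [Nat.odd_iff] at d
    omega
  have P : Par2 n (n + 1) := ⟨by omega, by omega, by omega, he.add_one⟩
  by_cases h1 : #K'.E ≤ #K'.V + 4
  · have h2 := three_of_D P K' b c f h1 (by rw [a.ev, card_empty, add_zero]; exact d)
    rw [a.W] at h2
    omega
  · by_cases h3 : #K'.V + 6 ≤ #K'.E
    · have := a.moore (MB6 n) b hV h3
      rw [Nat.even_iff] at he
      rw [Nat.odd_iff] at d
      omega
    · have h4 := tight_five P he K' b c f (by omega)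
      rw [a.W] at h4
      omega

/-- lower bound on the number of vertices, odd girth parameter -/
theorem card_odd {n : ℕ} (hn : 5 ≤ n) (he : Odd n) (h : K.Uni) (hK : K.Cyc n)
    (hD : ∀ X ⊆ K.V, 3 ≤ K.D X) (hodd : Odd #K.V) : 3 * n ≤ #K.V + 5 := by
  obtain ⟨K', a, b, c, d, e, f⟩ := prune h hK hD hodd
  have hV : K'.V.Nonempty := by
    rw [← card_pos]
    rw [Nat.odd_iff] at d
    omega
  have P : Par2 n n := ⟨by omega, by omega, by omega, he⟩
  by_cases h1 : #K'.E ≤ #K'.V + 4
  · have h2 := three_of_D P K' b c f h1 (by rw [a.ev, card_empty, add_zero]; exact d)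
    rw [a.W] at h2
    omega
  · have := a.moore (MB5 n) b hV (by omega)
    omega

/-- `D ≥ 2`, small order -/
theorem card_two {n : ℕ} (hn : 5 ≤ n) (h : K.Uni) (hK : K.Cyc n)
    (hD : ∀ X ⊆ K.V, 2 ≤ K.D X) :
    (Odd n → 2 * n ≤ #K.V + 2) ∧ (Even n → 2 * n ≤ #K.V + 1) := by
  have hV : K.V.Nonempty := by
    by_contra hV
    rw [not_nonempty_iff_eq_empty] at hV
    have := hD ∅ (empty_subset _)
    rw [h.D] at this
    have h4 : (K.ind ∅).E = ∅ := by
      rw [eq_empty_iff_forall_notMem]
      intro e he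
      simp [ind_E] at he
    rw [hV, h4] at this
    simp at this
  constructor
  · intro ho
    have P : Par2 n n := ⟨by omega, by omega, by omega, ho⟩
    have h1 := two_of_D P K hK hD
    rw [h.W] at h1
    by_cases h2 : #K.V + 2 ≤ #K.E
    · have := h.moore (MB2 n) hK hV h2
      omega
    · omega
  · intro he
    have P : Par2 n (n + 1) := ⟨by omega, by omega, by omega, he.add_one⟩
    have h1 := two_of_D P K hK hD
    rw [h.W] at h1
    by_cases h2 : #K.V + 3 ≤ #K.E
    · have := h.moore (MB3 n) hK hV h2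
      omega
    · omega

end MG
end Pool.H82.SC
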