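import Pool.Agent.H82.SC.Def
import Pool.Agent.H82.SC.Upper
import Pool.Agent.H82.SC.Conv
import Pool.Agent.H82.SC.Conv2
import Pool.Agent.H82.SC.Subdiv
import Pool.Agent.H82.SC.Base

set_option linter.unusedSimpArgs false
set_option linter.unusedVariables false

namespace Pool.H82.SC

open Finset

lemma Arrows.succ {n m p : ℕ} (h : Arrows n m p) : Arrows n m (p + 1) := by
  intro G hG
  obtain ⟨s, hs, hi⟩ := h (G.comap (Fin.castSucc)) (by
    intro v c hc
    have hinj : Function.Injective (SimpleGraph.Embedding.comap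
        (⟨Fin.castSucc, Fin.castSucc_injective p⟩ : Fin p ↪ Fin (p + 1)) G).toHom :=
      Fin.castSucc_injective p
    have h1 := hG _ (c.map (SimpleGraph.Embedding.comap
        (⟨Fin.castSucc, Fin.castSucc_injective p⟩ : Fin p ↪ Fin (p + 1)) G).toHom)
      (hc.map hinj)
    simpa using h1)
  refine ⟨s.map ⟨Fin.castSucc, Fin.castSucc_injective p⟩, by simpa using hs, ?_⟩
  rw [SimpleGraph.isIndepSet_iff] at hi ⊢
  intro a ha b hb hab hadj
  simp only [coe_map, Function.Embedding.coeFn_mk, Set.mem_image, mem_coe] at ha hb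
  obtain ⟨a', ha', rfl⟩ := ha
  obtain ⟨b', hb', rfl⟩ := hb
  exact hi ha' hb' (fun h => hab (h ▸ rfl)) hadj

lemma Arrows.mono_p {n m p q : ℕ} (h : Arrows n m p) (hpq : p ≤ q) : Arrows n m q := by
  induction hpq with
  | refl => exact h
  | step _ ih => exact ih.succ

lemma Arrows.mono_n {n n' m p : ℕ} (h : Arrows n m p) (hn : n ≤ n') : Arrows n' m p := by
  intro G hG
  exact h G fun v c hc => lt_of_le_of_lt hn (hG v c hc)

lemma ramsey_eq_iff {n m p : ℕ} : ramsey n m = p + 1 ↔ Arrows n m (p + 1) ∧ ¬ Arrows n m p := by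
  unfold ramsey
  constructor
  · intro h
    have hne : {p | Arrows n m p}.Nonempty := by
      by_contra hcon
      rw [Set.not_nonempty_iff_eq_empty] at hcon
      rw [hcon] at h
      simp at h
    have h1 := Nat.sInf_mem hne
    rw [h] at h1
    refine ⟨h1, fun h2 => ?_⟩
    have := Nat.sInf_le (show p ∈ {p | Arrows n m p} from h2)
    omega
  · rintro ⟨h1, h2⟩
    apply le_antisymm
    · exact Nat.sInf_le h1
    · by_contra hcon
      push Not at hcon
      have h3 : Arrows n m (sInf {p | Arrows n m p}) :=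
        Nat.sInf_mem (s := {p | Arrows n m p}) ⟨_, h1⟩
      exact h2 (h3.mono_p (by omega))

/-- upper bounds through `D` -/
lemma arrows_of {n m p : ℕ} {d : ℤ} (hd : (p : ℤ) - 2 * m + 2 = d)
    (H : ∀ K : MG, K.Uni → K.Cyc (n + 1) → #K.V = p → (∀ X ⊆ K.V, d ≤ K.D X) → False) :
    Arrows n m p := by
  intro G hG
  by_contra hcon
  push Not at hcon
  refine H (ofG G) ⟨ofG_unit G, ofG_noLoops G⟩ (ofG_Cyc G hG) (by simp [ofG]) ?_
  intro X hX
  rw [← hd]
  exact ofG_D G hcon X hX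

/-- lower bounds through weighted graphs -/
lemma not_arrows_of {n m p j : ℕ} {d : ℤ} (hn : 2 ≤ n) (K : MG) (hK : K.Cyc (n + 1))
    (hpos : ∀ f ∈ K.E, 1 ≤ K.w f) (hD : ∀ X ⊆ K.V, d ≤ K.D X)
    (hp : #K.V + K.W + 2 * j = #K.E + p) (hm : (p : ℤ) < d + 2 * m) : ¬ Arrows n m p := by
  obtain ⟨K1, a1, a2, a3, a4⟩ := MG.exists_unit K hK hpos hD
  have hadd : ∀ j : ℕ, ∃ K2 : MG, K2.Cyc (n + 1) ∧ (∀ f ∈ K2.E, K2.w f = 1) ∧
      (∀ X ⊆ K2.V, d ≤ K2.D X) ∧ #K2.V = #K1.V + 2 * j := by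
    intro j
    induction j with
    | zero => exact ⟨K1, a1, a2, a3, by simp⟩
    | succ j ih =>
      obtain ⟨K2, b1, b2, b3, b4⟩ := ih
      obtain ⟨K3, c1, c2, c3, c4⟩ := MG.exists_addK2 K2 b1 b2 b3
      exact ⟨K3, c1, c2, c3, by omega⟩
  obtain ⟨K2, b1, b2, b3, b4⟩ := hadd j
  obtain ⟨G, hG1, hG2⟩ := exists_graph K2 hn b1 b2 b3 (N := p) (by omega)
  intro h
  obtain ⟨s, hs, hi⟩ := h G hG1
  have := hG2 s hi
  rw [hs] at this
  linarith

theorem upper_two {n m : ℕ} (hm : 6 ≤ m) (hn : 2 * (m / 2) + 1 ≤ n) : Arrows n m (2 * m) := by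
  refine Arrows.mono_n (n := 2 * (m / 2) + 1) (arrows_of (d := 2) (by push_cast; ring) ?_) hn
  intro K hU hK hV hD
  obtain ⟨h1, h2⟩ := MG.card_two (n := 2 * (m / 2) + 2) (by omega) hU hK hD
  have h3 := h2 (by rw [Nat.even_iff]; omega)
  rcases Nat.even_or_odd m with he | ho
  · rw [Nat.even_iff] at he
    omega
  · rw [Nat.odd_iff] at ho
    omega

theorem lower_two {n m : ℕ} (hm : 6 ≤ m) (hn : n ≤ 2 * (m / 2)) : ¬ Arrows n m (2 * m) := by
  intro h
  have h1 := h.mono_n hn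
  obtain ⟨K, a, b, c, d⟩ := base_two (g := 2 * (m / 2) + 1) (by omega)
    (by rw [Nat.odd_iff]; omega)
  refine not_arrows_of (j := m % 2) (by omega) K a b c ?_ (by push_cast; linarith) h1
  omega

theorem upper_three {n m : ℕ} (hm : 6 ≤ m) (hn : 2 * ((m + 1) / 3) + 1 ≤ n)
    (hex : m % 3 = 1 → n ≠ 2 * ((m + 1) / 3) + 1) : Arrows n m (2 * m + 1) := by
  by_cases h1 : m % 3 = 1
  · have hne := hex h1
    refine Arrows.mono_n (n := 2 * ((m + 1) / 3) + 2)
      (arrows_of (d := 3) (by push_cast; ring) ?_) (by omega)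
    intro K hU hK hV hD
    have := MG.card_odd (n := 2 * ((m + 1) / 3) + 2 + 1) (by omega)
      (by rw [Nat.odd_iff]; omega) hU hK hD (by rw [Nat.odd_iff]; omega)
    omega
  · refine Arrows.mono_n (n := 2 * ((m + 1) / 3) + 1)
      (arrows_of (d := 3) (by push_cast; ring) ?_) hn
    intro K hU hK hV hD
    have := MG.card_even (n := 2 * ((m + 1) / 3) + 1 + 1) (by omega)
      (by rw [Nat.even_iff]; omega) hU hK hD (by rw [Nat.odd_iff]; omega)
    omega

theorem lower_three {n m : ℕ} (hm : 6 ≤ m) (hn : n ≤ 2 * ((m + 1) / 3)) :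
    ¬ Arrows n m (2 * m + 1) := by
  intro h
  have h1 := h.mono_n hn
  by_cases h7 : 7 ≤ 2 * ((m + 1) / 3) + 1
  · obtain ⟨K, a, b, c, d⟩ := base_three h7 (by rw [Nat.odd_iff]; omega)
    refine not_arrows_of (j := m + 1 - 3 * ((m + 1) / 3)) (by omega) K a b c ?_
      (by push_cast; linarith) h1
    omega
  · obtain ⟨K, a, b, c, d⟩ := base_five
    have h5 : 2 * ((m + 1) / 3) + 1 = 5 := by omega
    refine not_arrows_of (j := m - 6) (by omega) K (by rw [h5]; exact a) b c ?_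
      (by push_cast; linarith) h1
    omega

theorem ramsey_iff {m n : ℕ} (hm : 6 ≤ m) (hex : m % 3 = 1 → n ≠ 2 * ((m + 1) / 3) + 1) :
    ramsey n m = 2 * m + 1 ↔ 2 * ((m + 1) / 3) + 1 ≤ n ∧ n ≤ 2 * (m / 2) := by
  rw [ramsey_eq_iff]
  constructor
  · rintro ⟨h1, h2⟩
    constructor
    · by_contra hcon
      exact lower_three hm (by omega) h1
    · by_contra hcon
      exact h2 (upper_two hm (by omega))
  · rintro ⟨h1, h2⟩
    exact ⟨upper_three hm h1 hex, lower_two hm h2⟩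

end Pool.H82.SC
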