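import Pool.Agent.H82.SC.Supp2

set_option linter.unusedSimpArgs false
set_option linter.unusedVariables false

namespace Pool.H82.SC

open Finset

namespace MG

variable (K : MG)

/-- data for splitting a vertex of degree at least four -/
structure SplitData (v e1 e2 v' e0 : ℕ) : Prop where
  hv : v ∈ K.V
  h1 : e1 ∈ K.star v
  h2 : e2 ∈ K.star v
  hne : e1 ≠ e2
  hl : K.NoLoops
  hv' : v' ∉ K.V
  he0 : e0 ∉ K.E
  hdeg : 4 ≤ K.deg v

variable {K}
variable {v e1 e2 v' e0 : ℕ}

lemma SplitData.vne (h : K.SplitData v e1 e2 v' e0) : v ≠ v' := fun hh => h.hv' (hh ▸ h.hv)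

@[simps -isSimp] def split (h : K.SplitData v e1 e2 v' e0) : MG where
  V := insert v' K.V
  E := insert e0 K.E
  s := fun e => if e = e0 then v else if (e = e1 ∨ e = e2) ∧ K.s e = v then v' else K.s e
  t := fun e => if e = e0 then v' else if (e = e1 ∨ e = e2) ∧ K.t e = v then v' else K.t e
  w := fun e => if e = e0 then 0 else K.w e
  hs := by
    intro e he
    rw [mem_insert] at he
    by_cases h0 : e = e0
    · rw [if_pos h0]; exact mem_insert_of_mem h.hv
    · rw [if_neg h0]
      have heE : e ∈ K.E := he.resolve_left h0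
      split_ifs
      · exact mem_insert_self _ _
      · exact mem_insert_of_mem (K.hs e heE)
  ht := by
    intro e he
    rw [mem_insert] at he
    by_cases h0 : e = e0
    · rw [if_pos h0]; exact mem_insert_self _ _
    · rw [if_neg h0]
      have heE : e ∈ K.E := he.resolve_left h0
      split_ifs
      · exact mem_insert_self _ _
      · exact mem_insert_of_mem (K.ht e heE)

lemma SplitData.ne0 (h : K.SplitData v e1 e2 v' e0) {e : ℕ} (he : e ∈ K.E) : e ≠ e0 :=
  fun hh => h.he0 (hh ▸ he)

lemma SplitData.s_cases (h : K.SplitData v e1 e2 v' e0) {e : ℕ} (he : e ∈ K.E) :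
    ((split h).s e = v' ∧ K.s e = v ∧ (e = e1 ∨ e = e2)) ∨
    ((split h).s e = K.s e ∧ K.s e ≠ v' ∧ (K.s e = v → ¬ (e = e1 ∨ e = e2))) := by
  have h0 := h.ne0 he
  by_cases hc : (e = e1 ∨ e = e2) ∧ K.s e = v
  · left; simp only [split_s, if_neg h0, if_pos hc]; exact ⟨trivial, hc.2, hc.1⟩
  · right
    refine ⟨by simp only [split_s, if_neg h0, if_neg hc], fun hh => h.hv' (hh ▸ K.hs e he), ?_⟩
    intro hs hh; exact hc ⟨hh, hs⟩

lemma SplitData.t_cases (h : K.SplitData v e1 e2 v' e0) {e : ℕ} (he : e ∈ K.E) :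
    ((split h).t e = v' ∧ K.t e = v ∧ (e = e1 ∨ e = e2)) ∨
    ((split h).t e = K.t e ∧ K.t e ≠ v' ∧ (K.t e = v → ¬ (e = e1 ∨ e = e2))) := by
  have h0 := h.ne0 he
  by_cases hc : (e = e1 ∨ e = e2) ∧ K.t e = v
  · left; simp only [split_t, if_neg h0, if_pos hc]; exact ⟨trivial, hc.2, hc.1⟩
  · right
    refine ⟨by simp only [split_t, if_neg h0, if_neg hc], fun hh => h.hv' (hh ▸ K.ht e he), ?_⟩
    intro hs hh; exact hc ⟨hh, hs⟩

lemma split_NoLoops (h : K.SplitData v e1 e2 v' e0) : (split h).NoLoops := by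
  intro e he
  rw [split_E, mem_insert] at he
  by_cases h0 : e = e0
  · simp only [split_s, split_t, if_pos h0]
    exact h.vne
  · have heE : e ∈ K.E := he.resolve_left h0
    have hl := h.hl e heE
    have hs := h.s_cases heE
    have ht := h.t_cases heE
    rcases hs with ⟨a1, a2, a3⟩ | ⟨a1, a2, a3⟩ <;> rcases ht with ⟨b1, b2, b3⟩ | ⟨b1, b2, b3⟩ <;>
      rw [a1, b1]
    · exact absurd (a2.trans b2.symm) hl
    · exact b2.symm
    · exact a2
    · exact hl

lemma split_W (h : K.SplitData v e1 e2 v' e0) : (split h).W = K.W := by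
  unfold W wt
  rw [split_E, sum_insert h.he0]
  simp only [split_w, if_true, zero_add]
  apply sum_congr rfl
  intro e he
  rw [if_neg (h.ne0 he)]

lemma split_cardV (h : K.SplitData v e1 e2 v' e0) : #(split h).V = #K.V + 1 := by
  rw [split_V, card_insert_of_notMem h.hv']

lemma split_cardE (h : K.SplitData v e1 e2 v' e0) : #(split h).E = #K.E + 1 := by
  rw [split_E, card_insert_of_notMem h.he0]

lemma split_parity (h : K.SplitData v e1 e2 v' e0) (hp : Odd (#K.V + #K.ev)) :
    Odd (#(split h).V + #(split h).ev) := by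
  rw [split_cardV h]
  have : (split h).ev = insert e0 K.ev := by
    ext e
    simp only [ev, split_E, split_w, mem_filter, mem_insert]
    by_cases h0 : e = e0
    · simp [h0]
    · simp [h0]
  rw [this, card_insert_of_notMem (show e0 ∉ K.ev from fun hh => h.he0 (mem_filter.1 hh).1)]
  rw [Nat.odd_iff] at hp ⊢
  omega

lemma split_inc_other (h : K.SplitData v e1 e2 v' e0) {e : ℕ} (he : e ∈ K.E) {u : ℕ}
    (hu : u ≠ v) (hu' : u ≠ v') : (split h).inc e u = K.inc e u := by
  unfold inc
  rcases h.s_cases he with ⟨a1, a2, a3⟩ | ⟨a1, a2, a3⟩ <;>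
    rcases h.t_cases he with ⟨b1, b2, b3⟩ | ⟨b1, b2, b3⟩ <;>
    simp [a1, a2, b1, b2, hu.symm, hu'.symm]

lemma split_inc_v (h : K.SplitData v e1 e2 v' e0) {e : ℕ} (he : e ∈ K.E) :
    (split h).inc e v + (split h).inc e v' = K.inc e v := by
  have hvv := h.vne
  unfold inc
  rcases h.s_cases he with ⟨a1, a2, a3⟩ | ⟨a1, a2, a3⟩ <;>
    rcases h.t_cases he with ⟨b1, b2, b3⟩ | ⟨b1, b2, b3⟩ <;>
    simp [a1, a2, b1, b2, hvv, hvv.symm, add_comm]

lemma split_inc0 (h : K.SplitData v e1 e2 v' e0) (u : ℕ) :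
    (split h).inc e0 u = (if v = u then 1 else 0) + (if v' = u then 1 else 0) := by
  simp [inc, split_s, split_t]

lemma SplitData.bd_v' (h : K.SplitData v e1 e2 v' e0) {z : Finset ℕ} (hz : z ⊆ K.E) :
    K.bd z v' = 0 := K.bd_not_mem hz h.hv'

lemma split_lift (h : K.SplitData v e1 e2 v' e0) {z : Finset ℕ} (hz : (split h).Ev z) :
    K.Ev (z.erase e0) ∧ K.wt (z.erase e0) = (split h).wt z ∧ (z.Nonempty → (z.erase e0).Nonempty)
    := by
  have hzE : z.erase e0 ⊆ K.E := by
    intro e he
    have := hz.1 (mem_erase.1 he).2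
    rw [split_E, mem_insert] at this
    exact this.resolve_left (mem_erase.1 he).1
  have hbd : ∀ u, (split h).bd z u = (if e0 ∈ z then (split h).inc e0 u else 0) +
      ∑ e ∈ z.erase e0, (split h).inc e u := by
    intro u
    unfold bd
    by_cases h0 : e0 ∈ z
    · rw [if_pos h0, add_sum_erase z (fun e => (split h).inc e u) h0]
    · rw [if_neg h0, erase_eq_of_notMem h0, zero_add]
  refine ⟨⟨hzE, fun u => ?_⟩, ?_, ?_⟩
  · by_cases huv : u = v
    · subst huv
      have b1 := hz.2 u
      have b2 := hz.2 v'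
      rw [hbd] at b1 b2
      have : K.bd (z.erase e0) u = ∑ e ∈ z.erase e0, (split h).inc e u +
          ∑ e ∈ z.erase e0, (split h).inc e v' := by
        unfold bd
        rw [← sum_add_distrib]
        apply sum_congr rfl
        intro e he
        exact (split_inc_v h (hzE he)).symm
      rw [this]
      have hu0 := split_inc0 h u
      have hu1 := split_inc0 h v'
      have hvv := h.vne
      simp only [if_true, if_neg hvv.symm, add_zero] at hu0
      simp only [if_true, if_neg hvv, zero_add] at hu1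
      rw [hu0] at b1
      rw [hu1] at b2
      by_cases h0 : e0 ∈ z
      · rw [if_pos h0] at b1 b2
        have := zmod2_add_self (1 : ZMod 2)
        linear_combination b1 + b2 - this
      · rw [if_neg h0] at b1 b2
        linear_combination b1 + b2
    · by_cases huv' : u = v'
      · subst huv'
        exact h.bd_v' hzE
      · have b1 := hz.2 u
        rw [hbd, split_inc0, if_neg (show ¬ v = u from fun hh => huv hh.symm),
          if_neg (show ¬ v' = u from fun hh => huv' hh.symm), add_zero, ite_self, zero_add] at b1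
        rw [← b1]
        apply sum_congr rfl
        intro e he
        exact (split_inc_other h (hzE he) huv huv').symm
  · unfold wt
    by_cases h0 : e0 ∈ z
    · rw [← add_sum_erase _ _ h0]
      simp only [split_w, if_true, zero_add]
      apply sum_congr rfl
      intro e he
      rw [if_neg (mem_erase.1 he).1]
    · rw [erase_eq_of_notMem h0]
      apply sum_congr rfl
      intro e he
      have : e ≠ e0 := fun hh => h0 (hh ▸ he)
      simp [this, split_w]
  · intro hne
    by_contra hcon
    rw [not_nonempty_iff_eq_empty] at hcon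
    have b1 := hz.2 v
    rw [hbd, hcon, sum_empty, add_zero] at b1
    have h0 : e0 ∈ z := by
      obtain ⟨x, hx⟩ := hne
      by_cases hx0 : x = e0
      · exact hx0 ▸ hx
      · have : x ∈ z.erase e0 := mem_erase.2 ⟨hx0, hx⟩
        rw [hcon] at this; simp at this
    rw [if_pos h0, split_inc0, if_pos rfl, if_neg h.vne.symm, add_zero] at b1
    exact one_ne_zero b1

lemma split_Cyc (h : K.SplitData v e1 e2 v' e0) {n : ℕ} (hK : K.Cyc n) : (split h).Cyc n := by
  intro z hz hne
  obtain ⟨h1, h2, h3⟩ := split_lift h hz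
  rw [← h2]
  exact hK _ h1 (h3 hne)

lemma split_down (h : K.SplitData v e1 e2 v' e0) {z : Finset ℕ} (hz : K.Ev z) :
    ∃ z', (split h).Ev z' ∧ (split h).wt z' = K.wt z := by
  have h0 : e0 ∉ z := fun hh => h.he0 (hz.1 hh)
  have hwt : (split h).wt z = K.wt z := by
    apply sum_congr rfl
    intro e he
    have : e ≠ e0 := fun hh => h0 (hh ▸ he)
    simp [this, split_w]
  have hbv : (split h).bd z v + (split h).bd z v' = 0 := by
    rw [← hz.2 v]
    unfold bd
    rw [← sum_add_distrib]
    exact sum_congr rfl fun e he => split_inc_v h (hz.1 he)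
  have hbo : ∀ u, u ≠ v → u ≠ v' → (split h).bd z u = 0 := by
    intro u h1 h2
    rw [← hz.2 u]
    exact sum_congr rfl fun e he => split_inc_other h (hz.1 he) h1 h2
  by_cases hc : (split h).bd z v = 0
  · refine ⟨z, ⟨hz.1.trans (subset_insert _ _), fun u => ?_⟩, hwt⟩
    by_cases h1 : u = v
    · rw [h1]; exact hc
    · by_cases h2 : u = v'
      · rw [h2]; rw [hc, zero_add] at hbv; exact hbv
      · exact hbo u h1 h2
  · have hc1 : (split h).bd z v = 1 := by
      have key : ∀ a : ZMod 2, a ≠ 0 → a = 1 := by decide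
      exact key _ hc
    have hc2 : (split h).bd z v' = 1 := by
      rw [hc1] at hbv
      have key : ∀ a : ZMod 2, 1 + a = 0 → a = 1 := by decide
      exact key _ hbv
    refine ⟨insert e0 z, ⟨insert_subset_insert _ hz.1, fun u => ?_⟩, ?_⟩
    · unfold bd
      rw [sum_insert h0, split_inc0]
      show _ + (split h).bd z u = 0
      by_cases h1 : u = v
      · rw [h1, hc1, if_pos rfl, if_neg h.vne.symm]; decide
      · by_cases h2 : u = v'
        · rw [h2, hc2, if_neg h.vne, if_pos rfl]; decide
        · rw [hbo u h1 h2, if_neg (fun hh => h1 hh.symm), if_neg (fun hh => h2 hh.symm)]; decide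
    · rw [← hwt]
      unfold wt
      rw [sum_insert h0, split_w, if_pos rfl, zero_add]

/-! degrees -/

lemma split_incN_v' (h : K.SplitData v e1 e2 v' e0) {e : ℕ} (he : e ∈ K.E) :
    (split h).incN e v' = if e = e1 ∨ e = e2 then K.incN e v else 0 := by
  have hvv := h.vne
  unfold incN
  rcases h.s_cases he with ⟨a1, a2, a3⟩ | ⟨a1, a2, a3⟩ <;>
    rcases h.t_cases he with ⟨b1, b2, b3⟩ | ⟨b1, b2, b3⟩
  · rw [a1, b1, a2, b2]; simp [a3]
  · rw [a1, b1, a2]; simp [a3, b2]
    intro hh; exact b3 hh a3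
  · rw [a1, b1, b2]; simp [b3, a2]
    intro hh; exact a3 hh b3
  · rw [a1, b1]; simp only [a2, b2, if_false, add_zero]
    split_ifs with c1 c2 c3 c4
    · exact absurd c1 (a3 c2)
    · exact absurd c1 (a3 c2)
    · exact absurd c1 (b3 c4)
    · rfl
    · rfl

lemma split_incN_v (h : K.SplitData v e1 e2 v' e0) {e : ℕ} (he : e ∈ K.E) :
    (split h).incN e v + (split h).incN e v' = K.incN e v := by
  have hvv := h.vne
  unfold incN
  rcases h.s_cases he with ⟨a1, a2, a3⟩ | ⟨a1, a2, a3⟩ <;>
    rcases h.t_cases he with ⟨b1, b2, b3⟩ | ⟨b1, b2, b3⟩ <;>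
    simp [a1, a2, b1, b2, hvv, hvv.symm, add_comm]

lemma split_incN_other (h : K.SplitData v e1 e2 v' e0) {e : ℕ} (he : e ∈ K.E) {u : ℕ}
    (hu : u ≠ v) (hu' : u ≠ v') : (split h).incN e u = K.incN e u := by
  unfold incN
  rcases h.s_cases he with ⟨a1, a2, a3⟩ | ⟨a1, a2, a3⟩ <;>
    rcases h.t_cases he with ⟨b1, b2, b3⟩ | ⟨b1, b2, b3⟩ <;>
    simp [a1, a2, b1, b2, hu.symm, hu'.symm]

lemma incN_star {e : ℕ} (hl : K.NoLoops) (he : e ∈ K.star v) : K.incN e v = 1 := by
  unfold star at he
  rw [mem_filter] at he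
  have := hl e he.1
  unfold incN
  rcases he.2 with h | h
  · have : K.t e ≠ v := fun h2 => this (h.trans h2.symm)
    simp [h, this]
  · have : K.s e ≠ v := fun h2 => this (h2.trans h.symm)
    simp [h, this]

lemma split_sum_v' (h : K.SplitData v e1 e2 v' e0) : ∑ e ∈ K.E, (split h).incN e v' = 2 := by
  rw [sum_congr rfl fun e he => split_incN_v' h he, ← sum_filter]
  have : K.E.filter (fun e => e = e1 ∨ e = e2) = {e1, e2} := by
    ext x
    simp only [mem_filter, mem_insert, mem_singleton]
    constructor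
    · exact fun hx => hx.2
    · rintro (rfl | rfl)
      · exact ⟨K.star_subset v h.h1, Or.inl rfl⟩
      · exact ⟨K.star_subset v h.h2, Or.inr rfl⟩
  rw [this, sum_pair h.hne, incN_star h.hl h.h1, incN_star h.hl h.h2]

lemma split_deg_v' (h : K.SplitData v e1 e2 v' e0) : (split h).deg v' = 3 := by
  unfold deg
  rw [split_E, sum_insert h.he0, split_sum_v' h]
  have : (split h).incN e0 v' = 1 := by
    have := h.vne
    simp [incN, this, split_s, split_t]
  rw [this]

lemma split_deg_v (h : K.SplitData v e1 e2 v' e0) : (split h).deg v + 1 = K.deg v := by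
  have h1 : ∑ e ∈ K.E, (split h).incN e v + ∑ e ∈ K.E, (split h).incN e v' = K.deg v := by
    rw [← sum_add_distrib]
    exact sum_congr rfl fun e he => split_incN_v h he
  rw [split_sum_v' h] at h1
  have h2 : (split h).deg v = (split h).incN e0 v + ∑ e ∈ K.E, (split h).incN e v := by
    unfold deg
    rw [split_E, sum_insert h.he0]
  have : (split h).incN e0 v = 1 := by
    have := h.vne
    simp [incN, this.symm, split_s, split_t]
  rw [this] at h2
  omega

lemma split_deg_other (h : K.SplitData v e1 e2 v' e0) {u : ℕ} (hu : u ≠ v) (hu' : u ≠ v') :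
    (split h).deg u = K.deg u := by
  unfold deg
  rw [split_E, sum_insert h.he0]
  have : (split h).incN e0 u = 0 := by
    simp [incN, hu.symm, hu'.symm, split_s, split_t]
  rw [this, zero_add]
  exact sum_congr rfl fun e he => split_incN_other h he hu hu'

lemma split_mu_lt (h : K.SplitData v e1 e2 v' e0) : (split h).mu < K.mu := by
  unfold mu
  rw [split_cardV, split_cardE, split_V, sum_insert h.hv', split_deg_v', Nat.sub_self, zero_add,
    ← add_sum_erase _ _ h.hv, ← add_sum_erase K.V (fun u => K.deg u - 3) h.hv]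
  have h1 := split_deg_v h
  have h2 := h.hdeg
  have h3 : ∑ x ∈ K.V.erase v, ((split h).deg x - 3) = ∑ x ∈ K.V.erase v, (K.deg x - 3) := by
    apply sum_congr rfl
    intro x hx
    rw [split_deg_other h (mem_erase.1 hx).1 (fun hh => h.hv' (hh ▸ (mem_erase.1 hx).2))]
  rw [h3]
  omega

lemma exists_splitData (hl : K.NoLoops) (hv : v ∈ K.V) (hd : 4 ≤ K.deg v) :
    ∃ e1 e2 v' e0, K.SplitData v e1 e2 v' e0 := by
  have hc := K.deg_eq_card_star hl v
  have : 1 < #(K.star v) := by omega
  obtain ⟨e1, h1, e2, h2, hne⟩ := one_lt_card.1 this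
  obtain ⟨v', hv'⟩ := Infinite.exists_notMem_finset K.V
  obtain ⟨e0, he0⟩ := Infinite.exists_notMem_finset K.E
  exact ⟨e1, e2, v', e0, hv, h1, h2, hne, hl, hv', he0, hd⟩

lemma exists_suppData (hl : K.NoLoops) (hv : v ∈ K.V) (hd : K.deg v = 2) :
    ∃ e1 e2, K.SuppData v e1 e2 := by
  have hc := K.deg_eq_card_star hl v
  rw [hd] at hc
  obtain ⟨e1, e2, hne, hs⟩ := card_eq_two.1 hc.symm
  refine ⟨e1, e2, hv, ?_, ?_, hne, hl, hs⟩
  · exact K.star_subset v (by rw [hs]; simp)
  · exact K.star_subset v (by rw [hs]; simp)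

/-! the functional D -/

theorem split_D (h : K.SplitData v e1 e2 v' e0) {X : Finset ℕ} (hX : X ⊆ (split h).V) :
    ∃ Y ⊆ K.V, K.D Y ≤ (split h).D X := by
  classical
  have hvv := h.vne
  have hXV : ∀ x ∈ X, x ≠ v' → x ∈ K.V := by
    intro x hx hne
    have := hX hx
    rw [split_V, mem_insert] at this
    exact this.resolve_left hne
  have hphi0 : (split h).phi X e0 = if v ∈ X ∨ v' ∈ X then 1 else -1 := by
    simp [phi, split_s, split_t, split_w]
  have hD' : (split h).D X = (#K.V : ℤ) + 1 - 2 * #X + (split h).phi X e0 +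
      ∑ e ∈ K.E, (split h).phi X e := by
    unfold D
    rw [split_E, sum_insert h.he0, split_cardV]
    push_cast; ring
  have hw : ∀ e ∈ K.E, (split h).w e = K.w e := fun e he => by simp [h.ne0 he, split_w]
  by_cases hab : (v ∈ X ↔ v' ∈ X)
  · refine ⟨X.erase v', fun x hx => hXV x (mem_erase.1 hx).2 (mem_erase.1 hx).1, ?_⟩
    have hphi : ∀ e ∈ K.E, (split h).phi X e = K.phi (X.erase v') e := by
      intro e he
      have hs : (split h).s e ∈ X ↔ K.s e ∈ X.erase v' := by
        rcases h.s_cases he with ⟨a1, a2, a3⟩ | ⟨a1, a2, a3⟩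
        · rw [a1, a2, mem_erase, ← hab]; simp [hvv]
        · rw [a1, mem_erase]; simp [a2]
      have ht : (split h).t e ∈ X ↔ K.t e ∈ X.erase v' := by
        rcases h.t_cases he with ⟨a1, a2, a3⟩ | ⟨a1, a2, a3⟩
        · rw [a1, a2, mem_erase, ← hab]; simp [hvv]
        · rw [a1, mem_erase]; simp [a2]
      unfold phi
      simp only [hs, ht, hw e he]
    rw [hD', sum_congr rfl hphi, hphi0]
    unfold D
    by_cases hv1 : v' ∈ X
    · have hv2 : v ∈ X := hab.2 hv1
      rw [card_erase_of_mem hv1, if_pos (Or.inl hv2)]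
      have := card_pos.2 ⟨v', hv1⟩
      push_cast [this]
      linarith
    · have hv2 : v ∉ X := fun hh => hv1 (hab.1 hh)
      rw [erase_eq_of_notMem hv1, if_neg (by tauto)]
      linarith
  · refine ⟨(X.erase v').erase v, fun x hx => hXV x (mem_erase.1 (mem_erase.1 hx).2).2
      (mem_erase.1 (mem_erase.1 hx).2).1, ?_⟩
    have hcard : #((X.erase v').erase v) + 1 = #X := by
      by_cases hv1 : v' ∈ X
      · have hv2 : v ∉ X := fun hh => hab ⟨fun _ => hv1, fun _ => hh⟩
        rw [erase_eq_of_notMem (fun hh => hv2 (mem_erase.1 hh).2), card_erase_of_mem hv1]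
        have := card_pos.2 ⟨v', hv1⟩
        omega
      · have hv2 : v ∈ X := by
          by_contra hv2; exact hab ⟨fun hh => absurd hh hv2, fun hh => absurd hh hv1⟩
        rw [erase_eq_of_notMem hv1, card_erase_of_mem hv2]
        have := card_pos.2 ⟨v, hv2⟩
        omega
    have hmono : ∀ e ∈ K.E, K.phi ((X.erase v').erase v) e ≤ (split h).phi X e := by
      intro e he
      have hs : K.s e ∈ (X.erase v').erase v → (split h).s e ∈ X := by
        intro hh
        rw [mem_erase, mem_erase] at hh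
        rcases h.s_cases he with ⟨a1, a2, a3⟩ | ⟨a1, a2, a3⟩
        · exact absurd a2 hh.1
        · rw [a1]; exact hh.2.2
      have ht : K.t e ∈ (X.erase v').erase v → (split h).t e ∈ X := by
        intro hh
        rw [mem_erase, mem_erase] at hh
        rcases h.t_cases he with ⟨a1, a2, a3⟩ | ⟨a1, a2, a3⟩
        · exact absurd a2 hh.1
        · rw [a1]; exact hh.2.2
      unfold phi
      rw [hw e he]
      by_cases hwe : Even (K.w e) <;> simp only [hwe, if_true, if_false]
      · split_ifs <;> first | (norm_num; done) | (exfalso; tauto)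
      · split_ifs <;> first | (norm_num; done) | (exfalso; tauto)
    rw [hD', hphi0, if_pos (by tauto)]
    unfold D
    have := sum_le_sum hmono
    have hc : (#X : ℤ) = #((X.erase v').erase v) + 1 := by exact_mod_cast hcard.symm
    rw [hc]
    linarith

theorem split_D_ge (h : K.SplitData v e1 e2 v' e0) {d : ℤ} (hD : ∀ X ⊆ K.V, d ≤ K.D X) :
    ∀ X ⊆ (split h).V, d ≤ (split h).D X := by
  intro X hX
  obtain ⟨Y, hY, hle⟩ := split_D h hX
  exact (hD Y hY).trans hle

theorem split_Bip (h : K.SplitData v e1 e2 v' e0) {u : ℕ} (hu : u ∈ (split h).V)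
    (hb : ((split h).ind ((split h).V \ {u})).Bip) :
    ∃ u' ∈ K.V, (K.ind (K.V \ {u'})).Bip := by
  classical
  have hvv := h.vne
  obtain ⟨c, hc⟩ := hb
  by_cases huv : u = v ∨ u = v'
  · refine ⟨v, h.hv, c, ?_⟩
    intro e he
    simp only [ind_E, mem_filter, mem_sdiff, mem_singleton] at he
    obtain ⟨heE, ⟨hs, hsu⟩, ht, htu⟩ := he
    have hse : (split h).s e = K.s e := by
      rcases h.s_cases heE with ⟨a1, a2, a3⟩ | ⟨a1, a2, a3⟩
      · exact absurd a2 hsu
      · exact a1
    have hte : (split h).t e = K.t e := by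
      rcases h.t_cases heE with ⟨a1, a2, a3⟩ | ⟨a1, a2, a3⟩
      · exact absurd a2 htu
      · exact a1
    have hsv' : K.s e ≠ v' := fun hh => h.hv' (hh ▸ hs)
    have htv' : K.t e ≠ v' := fun hh => h.hv' (hh ▸ ht)
    have hmem : e ∈ ((split h).ind ((split h).V \ {u})).E := by
      simp only [ind_E, mem_filter, mem_sdiff, mem_singleton, hse, hte, split_E, split_V,
        mem_insert]
      refine ⟨Or.inr heE, ⟨Or.inr hs, ?_⟩, Or.inr ht, ?_⟩
      · rcases huv with rfl | rfl
        · exact hsu
        · exact hsv'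
      · rcases huv with rfl | rfl
        · exact htu
        · exact htv'
    have := hc e hmem
    simp only [ind_s, ind_t, ind_w] at this ⊢
    rw [hse, hte] at this
    rw [this]
    simp [h.ne0 heE, split_w]
  · push Not at huv
    have huV : u ∈ K.V := by
      rw [split_V, mem_insert] at hu
      exact hu.resolve_left huv.2
    have h0 : e0 ∈ ((split h).ind ((split h).V \ {u})).E := by
      have a1 := huv.1.symm
      have a2 := huv.2.symm
      simp [h.hv, a1, a2, split_s, split_t, split_V, split_E]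
    have hcc : c v = c v' := by
      have := (hc e0 h0)
      simp only [ind_s, ind_t, ind_w, split_s, split_t, split_w, if_true] at this
      exact this.2 (by decide)
    refine ⟨u, huV, c, ?_⟩
    intro e he
    simp only [ind_E, mem_filter, mem_sdiff, mem_singleton] at he
    obtain ⟨heE, ⟨hs, hsu⟩, ht, htu⟩ := he
    have hse : c ((split h).s e) = c (K.s e) ∧ (split h).s e ≠ u := by
      rcases h.s_cases heE with ⟨a1, a2, a3⟩ | ⟨a1, a2, a3⟩
      · rw [a1, a2]; exact ⟨hcc.symm, huv.2.symm⟩
      · rw [a1]; exact ⟨rfl, hsu⟩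
    have hte : c ((split h).t e) = c (K.t e) ∧ (split h).t e ≠ u := by
      rcases h.t_cases heE with ⟨a1, a2, a3⟩ | ⟨a1, a2, a3⟩
      · rw [a1, a2]; exact ⟨hcc.symm, huv.2.symm⟩
      · rw [a1]; exact ⟨rfl, htu⟩
    have hmem : e ∈ ((split h).ind ((split h).V \ {u})).E := by
      simp only [ind_E, mem_filter, mem_sdiff, mem_singleton]
      exact ⟨mem_insert_of_mem heE, ⟨(split h).hs e (mem_insert_of_mem heE), hse.2⟩,
        (split h).ht e (mem_insert_of_mem heE), hte.2⟩
    have := hc e hmem
    simp only [ind_s, ind_t, ind_w] at this ⊢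
    rw [hse.1, hte.1] at this
    rw [this]
    simp [h.ne0 heE, split_w]

end MG
end Pool.H82.SC
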