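import Pool.Agent.H82.SC.Deg

set_option linter.unusedSimpArgs false
set_option linter.unusedVariables false

namespace Pool.H82.SC

open Finset

namespace MG

variable (K : MG)

/-- other end -/
def oth (e v : ℕ) : ℕ := if K.s e = v then K.t e else K.s e

/-- data for suppressing a vertex of degree two -/
structure SuppData (v e1 e2 : ℕ) : Prop where
  hv : v ∈ K.V
  h1 : e1 ∈ K.E
  h2 : e2 ∈ K.E
  hne : e1 ≠ e2
  hl : K.NoLoops
  hstar : K.star v = {e1, e2}

variable {K}
variable {v e1 e2 : ℕ}

lemma SuppData.mem1 (h : K.SuppData v e1 e2) : K.s e1 = v ∨ K.t e1 = v := by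
  have : e1 ∈ K.star v := by rw [h.hstar]; simp
  exact (mem_filter.1 this).2

lemma SuppData.mem2 (h : K.SuppData v e1 e2) : K.s e2 = v ∨ K.t e2 = v := by
  have : e2 ∈ K.star v := by rw [h.hstar]; simp
  exact (mem_filter.1 this).2

lemma SuppData.not_mem (h : K.SuppData v e1 e2) {e : ℕ} (he : e ∈ K.E) (n1 : e ≠ e1)
    (n2 : e ≠ e2) : K.s e ≠ v ∧ K.t e ≠ v := by
  have : e ∉ K.star v := by rw [h.hstar]; simp [n1, n2]
  unfold star at this
  rw [mem_filter] at this
  push Not at this
  exact this he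

lemma oth_mem {e v : ℕ} (he : e ∈ K.E) : K.oth e v ∈ K.V := by
  unfold oth
  split_ifs
  · exact K.ht e he
  · exact K.hs e he

lemma oth_ne {e v : ℕ} (hl : K.NoLoops) (he : e ∈ K.E) : K.oth e v ≠ v := by
  unfold oth
  split_ifs with h
  · intro h2; exact hl e he (h.trans h2.symm)
  · exact h

/-- suppression -/
@[simps] def supp (h : K.SuppData v e1 e2) : MG where
  V := K.V.erase v
  E := K.E.erase e2
  s := fun e => if e = e1 then K.oth e1 v else K.s e
  t := fun e => if e = e1 then K.oth e2 v else K.t e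
  w := fun e => if e = e1 then K.w e1 + K.w e2 else K.w e
  hs := by
    intro e he
    rw [mem_erase] at he ⊢
    by_cases h1 : e = e1
    · rw [if_pos h1]; exact ⟨oth_ne h.hl h.h1, oth_mem h.h1⟩
    · rw [if_neg h1]; exact ⟨(h.not_mem he.2 h1 he.1).1, K.hs e he.2⟩
  ht := by
    intro e he
    rw [mem_erase] at he ⊢
    by_cases h1 : e = e1
    · rw [if_pos h1]; exact ⟨oth_ne h.hl h.h2, oth_mem h.h2⟩
    · rw [if_neg h1]; exact ⟨(h.not_mem he.2 h1 he.1).2, K.ht e he.2⟩

lemma SuppData.e1_mem (h : K.SuppData v e1 e2) : e1 ∈ (supp h).E := by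
  simp [h.hne, h.h1]

/-- splitting a sum over edges -/
lemma SuppData.sum_edges {M : Type*} [AddCommMonoid M] (h : K.SuppData v e1 e2) (f : ℕ → M) :
    ∑ e ∈ K.E, f e = f e1 + f e2 + ∑ e ∈ (K.E.erase e2).erase e1, f e := by
  rw [← add_sum_erase _ _ h.h2, ← add_sum_erase (K.E.erase e2) _ (mem_erase.2 ⟨h.hne, h.h1⟩)]
  rw [← add_assoc, add_comm (f e2)]

lemma supp_sum_edges {M : Type*} [AddCommMonoid M] (h : K.SuppData v e1 e2) (f : ℕ → M) :
    ∑ e ∈ (supp h).E, f e = f e1 + ∑ e ∈ (K.E.erase e2).erase e1, f e := by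
  rw [supp_E, ← add_sum_erase (K.E.erase e2) _ (mem_erase.2 ⟨h.hne, h.h1⟩)]

lemma supp_W (h : K.SuppData v e1 e2) : (supp h).W = K.W := by
  unfold W wt
  rw [supp_sum_edges, h.sum_edges]
  congr 1
  · simp
  · apply sum_congr rfl
    intro e he
    have : e ≠ e1 := (mem_erase.1 he).1
    simp [this]

lemma supp_cardV (h : K.SuppData v e1 e2) : #(supp h).V + 1 = #K.V := by
  rw [supp_V, card_erase_of_mem h.hv]
  have := card_pos.2 ⟨v, h.hv⟩
  omega

lemma supp_cardE (h : K.SuppData v e1 e2) : #(supp h).E + 1 = #K.E := by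
  rw [supp_E, card_erase_of_mem h.h2]
  have := card_pos.2 ⟨e2, h.h2⟩
  omega

lemma incN_eq_oth {e v u : ℕ} (hl : K.NoLoops) (he : e ∈ K.E) (hev : K.s e = v ∨ K.t e = v)
    (hu : u ≠ v) : K.incN e u = if K.oth e v = u then 1 else 0 := by
  unfold incN oth
  rcases hev with h | h
  · rw [if_pos h, if_neg (show K.s e ≠ u from fun h2 => hu (h2.symm.trans h)), zero_add]
  · have : K.s e ≠ v := fun h2 => hl e he (h2.trans h.symm)
    rw [if_neg this, if_neg (show K.t e ≠ u from fun h2 => hu (h2.symm.trans h)), add_zero]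

lemma inc_eq_oth {e v u : ℕ} (hl : K.NoLoops) (he : e ∈ K.E) (hev : K.s e = v ∨ K.t e = v)
    (hu : u ≠ v) : K.inc e u = if K.oth e v = u then 1 else 0 := by
  unfold inc oth
  rcases hev with h | h
  · rw [if_pos h, if_neg (show K.s e ≠ u from fun h2 => hu (h2.symm.trans h)), zero_add]
  · have : K.s e ≠ v := fun h2 => hl e he (h2.trans h.symm)
    rw [if_neg this, if_neg (show K.t e ≠ u from fun h2 => hu (h2.symm.trans h)), add_zero]

lemma inc_self {e v : ℕ} (hl : K.NoLoops) (he : e ∈ K.E) (hev : K.s e = v ∨ K.t e = v) :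
    K.inc e v = 1 := by
  unfold inc
  rcases hev with h | h
  · have : K.t e ≠ v := fun h2 => hl e he (h.trans h2.symm)
    simp [h, this]
  · have : K.s e ≠ v := fun h2 => hl e he (h2.trans h.symm)
    simp [h, this]

lemma supp_deg (h : K.SuppData v e1 e2) {u : ℕ} (hu : u ≠ v) : (supp h).deg u = K.deg u := by
  unfold deg
  rw [supp_sum_edges, h.sum_edges, incN_eq_oth h.hl h.h1 h.mem1 hu,
    incN_eq_oth h.hl h.h2 h.mem2 hu]
  congr 1
  · simp [incN]
  · apply sum_congr rfl
    intro e he
    have : e ≠ e1 := (mem_erase.1 he).1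
    simp [incN, this]

lemma supp_mu_lt (h : K.SuppData v e1 e2) : (supp h).mu < K.mu := by
  unfold mu
  have h1 := supp_cardV h
  have h2 := supp_cardE h
  have h3 : ∑ u ∈ (supp h).V, ((supp h).deg u - 3) ≤ ∑ u ∈ K.V, (K.deg u - 3) := by
    rw [supp_V]
    rw [sum_congr rfl fun u hu => by rw [supp_deg h (mem_erase.1 hu).1]]
    exact sum_le_sum_of_subset (erase_subset _ _)
  omega

/-- lift of an even set of the suppressed graph -/
lemma supp_lift (h : K.SuppData v e1 e2) {z : Finset ℕ} (hz : (supp h).Ev z) :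
    ∃ z', K.Ev z' ∧ K.wt z' = (supp h).wt z ∧ (z.Nonempty → z'.Nonempty) ∧
      (∀ e ∈ z, e ∈ z') ∧ (∀ e ∈ z', e ∈ z ∨ e = e2) := by
  have hzE : z ⊆ K.E.erase e2 := hz.1
  have he2 : e2 ∉ z := fun h2 => (mem_erase.1 (hzE h2)).1 rfl
  have hinc : ∀ e ∈ z, e ≠ e1 → ∀ u, (supp h).inc e u = K.inc e u := by
    intro e _ hne u
    simp [inc, hne]
  by_cases h1 : e1 ∈ z
  · refine ⟨insert e2 z, ⟨?_, ?_⟩, ?_, fun _ => ⟨e2, mem_insert_self _ _⟩,
      fun e he => mem_insert_of_mem he, fun e he => (mem_insert.1 he).symm⟩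
    · exact insert_subset h.h2 (hzE.trans (erase_subset _ _))
    · intro u
      have hb := hz.2 u
      unfold bd at hb ⊢
      rw [sum_insert he2, ← add_sum_erase _ _ h1]
      rw [← add_sum_erase _ _ h1, sum_congr rfl fun e he =>
        hinc e (mem_erase.1 he).2 (mem_erase.1 he).1 u] at hb
      by_cases hu : u = v
      · subst hu
        rw [inc_self h.hl h.h1 h.mem1, inc_self h.hl h.h2 h.mem2]
        have h3 : (supp h).inc e1 u = 0 := by
          have n1 : K.oth e1 u ≠ u := oth_ne h.hl h.h1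
          have n2 : K.oth e2 u ≠ u := oth_ne h.hl h.h2
          simp [inc, n1, n2]
        rw [h3, zero_add] at hb
        rw [hb]
        decide
      · rw [inc_eq_oth h.hl h.h1 h.mem1 hu, inc_eq_oth h.hl h.h2 h.mem2 hu]
        have h3 : (supp h).inc e1 u = (if K.oth e1 v = u then 1 else 0) +
            (if K.oth e2 v = u then 1 else 0) := by simp [inc]
        rw [h3] at hb
        linear_combination hb
    · unfold wt
      rw [sum_insert he2, ← add_sum_erase _ _ h1, ← add_sum_erase _ _ h1]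
      rw [sum_congr rfl fun e he => show (supp h).w e = K.w e by
        simp [(mem_erase.1 he).1]]
      simp only [supp_w, if_true]
      ring
  · refine ⟨z, ⟨hzE.trans (erase_subset _ _), ?_⟩, ?_, fun h => h, fun e he => he,
      fun e he => Or.inl he⟩
    · intro u
      rw [← hz.2 u]
      apply sum_congr rfl
      intro e he
      exact (hinc e he (fun h2 => h1 (h2 ▸ he)) u).symm
    · apply sum_congr rfl
      intro e he
      have : e ≠ e1 := fun h2 => h1 (h2 ▸ he)
      simp [this]

lemma supp_Cyc (h : K.SuppData v e1 e2) {n : ℕ} (hK : K.Cyc n) : (supp h).Cyc n := by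
  intro z hz hne
  obtain ⟨z', h1, h2, h3, -, -⟩ := supp_lift h hz
  rw [← h2]
  exact hK z' h1 (h3 hne)

/-- an even set of `K` gives one of the suppressed graph -/
lemma supp_down (h : K.SuppData v e1 e2) {z : Finset ℕ} (hz : K.Ev z) :
    ∃ z', (supp h).Ev z' ∧ (supp h).wt z' = K.wt z := by
  have hstarz : (e1 ∈ z ↔ e2 ∈ z) := by
    have hb := hz.2 v
    unfold bd at hb
    have h1 : ∑ e ∈ z, K.inc e v = ∑ e ∈ z.filter (fun e => e = e1 ∨ e = e2), K.inc e v := by
      rw [sum_filter]
      apply sum_congr rfl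
      intro e he
      split_ifs with h2
      · rfl
      · push Not at h2
        have := h.not_mem (hz.1 he) h2.1 h2.2
        simp [inc, this.1, this.2]
    rw [h1] at hb
    by_cases m1 : e1 ∈ z <;> by_cases m2 : e2 ∈ z
    · simp [m1, m2]
    · exfalso
      have : z.filter (fun e => e = e1 ∨ e = e2) = {e1} := by
        ext x; simp only [mem_filter, mem_singleton]
        constructor
        · rintro ⟨hx, rfl | rfl⟩
          · rfl
          · exact absurd hx m2
        · rintro rfl; exact ⟨m1, Or.inl rfl⟩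
      rw [this, sum_singleton, inc_self h.hl h.h1 h.mem1] at hb
      exact one_ne_zero hb
    · exfalso
      have : z.filter (fun e => e = e1 ∨ e = e2) = {e2} := by
        ext x; simp only [mem_filter, mem_singleton]
        constructor
        · rintro ⟨hx, rfl | rfl⟩
          · exact absurd hx m1
          · rfl
        · rintro rfl; exact ⟨m2, Or.inr rfl⟩
      rw [this, sum_singleton, inc_self h.hl h.h2 h.mem2] at hb
      exact one_ne_zero hb
    · simp [m1, m2]
  have hinc : ∀ e, e ≠ e1 → ∀ u, (supp h).inc e u = K.inc e u := by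
    intro e hne u
    simp [inc, hne]
  refine ⟨z.erase e2, ⟨?_, ?_⟩, ?_⟩
  · exact erase_subset_erase _ hz.1
  · intro u
    have hb := hz.2 u
    unfold bd at hb ⊢
    by_cases m1 : e1 ∈ z
    · have m2 := hstarz.1 m1
      have m1' : e1 ∈ z.erase e2 := mem_erase.2 ⟨h.hne, m1⟩
      rw [← add_sum_erase _ _ m2, ← add_sum_erase _ _ m1'] at hb
      rw [← add_sum_erase _ _ m1', sum_congr rfl fun e he => hinc e (mem_erase.1 he).1 u]
      by_cases hu : u = v
      · subst hu
        rw [inc_self h.hl h.h1 h.mem1, inc_self h.hl h.h2 h.mem2] at hb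
        have h3 : (supp h).inc e1 u = 0 := by
          have n1 : K.oth e1 u ≠ u := oth_ne h.hl h.h1
          have n2 : K.oth e2 u ≠ u := oth_ne h.hl h.h2
          simp [inc, n1, n2]
        rw [h3, zero_add]
        have := zmod2_add_self (1 : ZMod 2)
        linear_combination hb - this
      · rw [inc_eq_oth h.hl h.h1 h.mem1 hu, inc_eq_oth h.hl h.h2 h.mem2 hu] at hb
        have h3 : (supp h).inc e1 u = (if K.oth e1 v = u then 1 else 0) +
            (if K.oth e2 v = u then 1 else 0) := by simp [inc]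
        rw [h3]
        linear_combination hb
    · have m2 : e2 ∉ z := fun h => m1 (hstarz.2 h)
      rw [erase_eq_of_notMem m2]
      rw [← hb]
      apply sum_congr rfl
      intro e he
      exact hinc e (fun h2 => m1 (h2 ▸ he)) u
  · unfold wt
    by_cases m1 : e1 ∈ z
    · have m2 := hstarz.1 m1
      have m1' : e1 ∈ z.erase e2 := mem_erase.2 ⟨h.hne, m1⟩
      rw [← add_sum_erase _ _ m2, ← add_sum_erase _ _ m1', ← add_sum_erase _ _ m1']
      rw [sum_congr rfl fun e he => show (supp h).w e = K.w e by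
        simp [(mem_erase.1 he).1]]
      simp only [supp_w, if_true]
      ring
    · have m2 : e2 ∉ z := fun h => m1 (hstarz.2 h)
      rw [erase_eq_of_notMem m2]
      apply sum_congr rfl
      intro e he
      have : e ≠ e1 := fun h2 => m1 (h2 ▸ he)
      simp [this]

end MG
end Pool.H82.SC
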