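import Pool.Agent.H82.SC.Supp

set_option linter.unusedSimpArgs false
set_option linter.unusedVariables false

namespace Pool.H82.SC

open Finset

namespace MG

variable {K : MG}
variable {v e1 e2 : ℕ}

lemma phi_oth {e : ℕ} {X : Finset ℕ} (hl : K.NoLoops) (he : e ∈ K.E)
    (hev : K.s e = v ∨ K.t e = v) (hv : v ∉ X) :
    K.phi X e = if Even (K.w e) then (if K.oth e v ∈ X then 1 else -1) else 0 := by
  unfold phi oth
  rcases hev with h | h
  · have hs : K.s e ∉ X := by rw [h]; exact hv
    simp [h, hv]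
  · have hs : K.t e ∉ X := by rw [h]; exact hv
    have : K.s e ≠ v := fun h2 => hl e he (h2.trans h.symm)
    simp [h, hv, this]

lemma phi_insert_oth {e : ℕ} {X : Finset ℕ} (hl : K.NoLoops) (he : e ∈ K.E)
    (hev : K.s e = v ∨ K.t e = v) :
    K.phi (insert v X) e = if Even (K.w e) then 1 else (if K.oth e v ∈ X then 2 else 0) := by
  unfold phi oth
  rcases hev with h | h
  · have : K.t e ≠ v := fun h2 => hl e he (h.trans h2.symm)
    simp [h, this]
  · have : K.s e ≠ v := fun h2 => hl e he (h2.trans h.symm)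
    simp [h, this]

theorem supp_D (h : K.SuppData v e1 e2) {X : Finset ℕ} (hX : X ⊆ (supp h).V) :
    ∃ Y ⊆ K.V, K.D Y ≤ (supp h).D X := by
  classical
  have hvX : v ∉ X := fun hh => (mem_erase.1 (hX hh)).1 rfl
  have hXV : X ⊆ K.V := hX.trans (erase_subset _ _)
  have hrest : ∀ e ∈ (K.E.erase e2).erase e1, (supp h).phi X e = K.phi X e ∧
      K.phi (insert v X) e = K.phi X e := by
    intro e he
    have n1 : e ≠ e1 := (mem_erase.1 he).1
    have n2 : e ≠ e2 := (mem_erase.1 (mem_erase.1 he).2).1
    have heE : e ∈ K.E := (mem_erase.1 (mem_erase.1 he).2).2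
    obtain ⟨h1, h2⟩ := h.not_mem heE n1 n2
    constructor
    · simp [phi, n1]
    · simp [phi, h1, h2]
  have hp' : (supp h).phi X e1 = if Even (K.w e1 + K.w e2) then
      (if K.oth e1 v ∈ X ∨ K.oth e2 v ∈ X then 1 else -1) else
      (if K.oth e1 v ∈ X ∧ K.oth e2 v ∈ X then 2 else 0) := by
    simp [phi]
  have hD' : (supp h).D X = (#K.V : ℤ) - 1 - 2 * #X + (supp h).phi X e1 +
      ∑ e ∈ (K.E.erase e2).erase e1, K.phi X e := by
    unfold D
    rw [supp_sum_edges, sum_congr rfl fun e he => (hrest e he).1]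
    have := supp_cardV h
    have : (#(supp h).V : ℤ) = #K.V - 1 := by omega
    rw [this]; ring
  have hD0 : K.D X = (#K.V : ℤ) - 2 * #X + K.phi X e1 + K.phi X e2 +
      ∑ e ∈ (K.E.erase e2).erase e1, K.phi X e := by
    unfold D
    rw [h.sum_edges]; ring
  have hD1 : K.D (insert v X) = (#K.V : ℤ) - 2 * #X - 2 + K.phi (insert v X) e1 +
      K.phi (insert v X) e2 + ∑ e ∈ (K.E.erase e2).erase e1, K.phi X e := by
    unfold D
    rw [h.sum_edges, card_insert_of_notMem hvX, sum_congr rfl fun e he => (hrest e he).2]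
    push_cast; ring
  have hY1 : insert v X ⊆ K.V := insert_subset h.hv hXV
  have a1 := phi_oth h.hl h.h1 h.mem1 hvX
  have a2 := phi_oth h.hl h.h2 h.mem2 hvX
  have b1 := phi_insert_oth (X := X) h.hl h.h1 h.mem1
  have b2 := phi_insert_oth (X := X) h.hl h.h2 h.mem2
  by_cases w1 : Even (K.w e1) <;> by_cases w2 : Even (K.w e2) <;>
    by_cases p : K.oth e1 v ∈ X <;> by_cases q : K.oth e2 v ∈ X <;>
    simp only [w1, w2, p, q, Nat.even_add, if_true, if_false, or_true, true_or, or_self, and_self,
      and_true, true_and, and_false, false_and, iff_true, iff_false, true_iff, false_iff,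
      not_true_eq_false, not_false_eq_true, or_false, false_or] at hp' a1 a2 b1 b2 <;>
    first
      | exact ⟨X, hXV, by rw [hD', hD0, hp', a1, a2]; linarith⟩
      | exact ⟨insert v X, hY1, by rw [hD', hD1, hp', b1, b2]; linarith⟩

theorem supp_D_ge (h : K.SuppData v e1 e2) {d : ℤ} (hD : ∀ X ⊆ K.V, d ≤ K.D X) :
    ∀ X ⊆ (supp h).V, d ≤ (supp h).D X := by
  intro X hX
  obtain ⟨Y, hY, hle⟩ := supp_D h hX
  exact (hD Y hY).trans hle

theorem supp_parity (h : K.SuppData v e1 e2) (hp : Odd (#K.V + #K.ev)) :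
    Odd (#(supp h).V + #(supp h).ev) := by
  have hc := supp_cardV h
  have h1 : #K.ev = (if Even (K.w e1) then 1 else 0) + (if Even (K.w e2) then 1 else 0) +
      ∑ e ∈ (K.E.erase e2).erase e1, (if Even (K.w e) then 1 else 0) := by
    unfold ev
    rw [card_filter, h.sum_edges]
  have h2 : #(supp h).ev = (if Even (K.w e1 + K.w e2) then 1 else 0) +
      ∑ e ∈ (K.E.erase e2).erase e1, (if Even (K.w e) then 1 else 0) := by
    unfold ev
    rw [card_filter, supp_sum_edges]
    congr 1
    · simp
    · apply sum_congr rfl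
      intro e he
      have : e ≠ e1 := (mem_erase.1 he).1
      simp [this]
  rw [h2]
  rw [h1] at hp
  by_cases w1 : Even (K.w e1) <;> by_cases w2 : Even (K.w e2) <;>
    simp only [w1, w2, Nat.even_add, if_true, if_false, iff_true, iff_false, true_iff, false_iff,
      not_true_eq_false, not_false_eq_true] at hp ⊢ <;>
    rw [Nat.odd_iff] at hp ⊢ <;> omega

theorem supp_Bip (h : K.SuppData v e1 e2) {u : ℕ} (hu : u ≠ v)
    (hb : ((supp h).ind ((supp h).V \ {u})).Bip) : (K.ind (K.V \ {u})).Bip := by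
  classical
  obtain ⟨c, hc⟩ := hb
  -- colour of v
  have hoth : ∀ e, e ∈ K.E → (K.s e = v ∨ K.t e = v) → ∀ b : Bool,
      (((if K.s e = v then b else c (K.s e)) = (if K.t e = v then b else c (K.t e)) ↔
        Even (K.w e)) ↔ (b = c (K.oth e v) ↔ Even (K.w e))) := by
    intro e he hev b
    unfold oth
    rcases hev with hh | hh
    · have : K.t e ≠ v := fun h2 => h.hl e he (hh.trans h2.symm)
      simp [hh, this]
    · have : K.s e ≠ v := fun h2 => h.hl e he (h2.trans hh.symm)
      simp [hh, this, eq_comm]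
  have main : ∃ b : Bool, (K.oth e1 v ≠ u → (b = c (K.oth e1 v) ↔ Even (K.w e1))) ∧
      (K.oth e2 v ≠ u → (b = c (K.oth e2 v) ↔ Even (K.w e2))) := by
    by_cases n1 : K.oth e1 v = u
    · by_cases n2 : K.oth e2 v = u
      · exact ⟨true, fun h => absurd n1 h, fun h => absurd n2 h⟩
      · refine ⟨if Even (K.w e2) then c (K.oth e2 v) else !(c (K.oth e2 v)),
          fun h => absurd n1 h, fun _ => ?_⟩
        by_cases w2 : Even (K.w e2) <;> simp [w2]
    · by_cases n2 : K.oth e2 v = u
      · refine ⟨if Even (K.w e1) then c (K.oth e1 v) else !(c (K.oth e1 v)),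
          fun _ => ?_, fun h => absurd n2 h⟩
        by_cases w1 : Even (K.w e1) <;> simp [w1]
      · refine ⟨if Even (K.w e1) then c (K.oth e1 v) else !(c (K.oth e1 v)), fun _ => ?_,
          fun _ => ?_⟩
        · by_cases w1 : Even (K.w e1) <;> simp [w1]
        · have he1 : e1 ∈ ((supp h).ind ((supp h).V \ {u})).E := by
            have m1 := oth_mem (v := v) h.h1
            have m2 := oth_mem (v := v) h.h2
            have k1 : K.oth e1 v ≠ v := oth_ne h.hl h.h1
            have k2 : K.oth e2 v ≠ v := oth_ne h.hl h.h2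
            simp [h.hne, h.h1, m1, m2, k1, k2, n1, n2]
          have := hc e1 he1
          simp only [ind_s, ind_t, ind_w, supp_s, supp_t, supp_w, if_true, Nat.even_add] at this
          by_cases w1 : Even (K.w e1) <;> by_cases w2 : Even (K.w e2) <;>
            simp only [w1, w2, if_true, if_false, iff_true, iff_false, true_iff,
              not_true_eq_false, not_false_eq_true] at this ⊢
          · exact this
          · exact this
          · cases h1 : c (K.oth e1 v) <;> cases h2 : c (K.oth e2 v) <;> simp_all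
          · cases h1 : c (K.oth e1 v) <;> cases h2 : c (K.oth e2 v) <;> simp_all
  obtain ⟨b, hb1, hb2⟩ := main
  refine ⟨fun x => if x = v then b else c x, ?_⟩
  intro e he
  simp only [ind_E, mem_filter, mem_sdiff, mem_singleton] at he
  obtain ⟨heE, ⟨hs, hsu⟩, ht, htu⟩ := he
  simp only [ind_s, ind_t, ind_w]
  have hothu : ∀ e, K.s e ≠ u → K.t e ≠ u → K.oth e v ≠ u := by
    intro e h1 h2
    unfold oth
    split_ifs
    · exact h2
    · exact h1
  by_cases n1 : e = e1
  · subst n1
    rw [hoth e heE h.mem1]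
    exact hb1 (hothu _ hsu htu)
  · by_cases n2 : e = e2
    · subst n2
      rw [hoth e heE h.mem2]
      exact hb2 (hothu _ hsu htu)
    · obtain ⟨k1, k2⟩ := h.not_mem heE n1 n2
      rw [if_neg k1, if_neg k2]
      have he' : e ∈ ((supp h).ind ((supp h).V \ {u})).E := by
        simp [n1, n2, heE, hs, ht, k1, k2, hsu, htu]
      have := hc e he'
      simpa [n1] using this

end MG
end Pool.H82.SC
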