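import Pool.Agent.H82.SC.Oct

set_option linter.unusedSimpArgs false
set_option linter.unusedVariables false

namespace Pool.H82.SC

open Finset

namespace MG

variable {K : MG}

lemma closed_V : K.Closed K.V := fun e he _ => ⟨fun _ => K.ht e he, fun _ => K.hs e he⟩

lemma Closed.sdiff {S : Finset ℕ} (h : K.Closed S) : K.Closed (K.V \ S) := by
  intro e he hw
  have := h e he hw
  rw [mem_sdiff, mem_sdiff]
  have h1 := K.hs e he
  have h2 := K.ht e he
  tauto

lemma W_add_le {S : Finset ℕ} : (K.ind S).W + (K.ind (K.V \ S)).W ≤ K.W := by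
  unfold W
  show K.wt (K.ind S).E + K.wt (K.ind (K.V \ S)).E ≤ K.wt K.E
  rw [← K.wt_union]
  · apply K.wt_mono
    exact union_subset (filter_subset _ _) (filter_subset _ _)
  · rw [disjoint_left]
    intro e h1 h2
    simp only [ind_E, mem_filter, mem_sdiff] at h1 h2
    exact h2.2.1.2 h1.2.1

/-- deleting a set containing a cycle at cost at most one -/
theorem rest_cycle {h g : ℕ} (P : Par2 h g) (hK : K.Cyc h) (hD : ∀ X ⊆ K.V, 3 ≤ K.D X)
    {S A : Finset ℕ} (hS : S ⊆ K.V) (hcl : K.Closed S) (hA : A ⊆ S)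
    (hcr : ∀ e ∈ K.E, (K.s e ∈ A → K.t e ∈ S) ∧ (K.t e ∈ A → K.s e ∈ S))
    (hDA : (K.ind S).D A ≤ 1) (hne : S.Nonempty) (hcard : #S ≤ #(K.ind S).E) :
    2 * g + h ≤ K.W := by
  obtain ⟨z, hz, hzne⟩ := (K.ind S).exists_even hne hcard
  have h1 := hK.ind S z hz hzne
  have h2 : (K.ind S).wt z ≤ (K.ind S).W := (K.ind S).wt_mono hz.1
  have h3 : 2 * g ≤ (K.ind (K.V \ S)).W := by
    apply two_of_D P _ (hK.ind _)
    intro X hX
    have hX' : X ⊆ K.V \ S := hX
    have h4 := K.D_split hS hcl hA hX' (by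
      intro e he
      obtain ⟨c1, c2⟩ := hcr e he
      constructor
      · rintro ⟨h5, h6⟩
        exact (mem_sdiff.1 (hX' h6)).2 (c1 h5)
      · rintro ⟨h5, h6⟩
        exact (mem_sdiff.1 (hX' h5)).2 (c2 h6))
    have h5 := hD (X ∪ A) (union_subset (hX'.trans sdiff_subset) (hA.trans hS))
    linarith
  have h4 := K.W_add_le (S := S)
  omega

lemma D_ind_empty (S : Finset ℕ) : (K.ind S).D ∅ = #S - #(K.evin S) := by
  unfold D
  have : ∑ e ∈ (K.ind S).E, (K.ind S).phi ∅ e = -(#(K.evin S) : ℤ) := by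
    have h1 : ∀ e ∈ (K.ind S).E, (K.ind S).phi ∅ e = -(if Even (K.w e) then 1 else 0) := by
      intro e _
      unfold phi
      by_cases hw : Even (K.w e) <;> simp [hw]
    rw [sum_congr rfl h1, sum_neg_distrib, ← sum_filter, sum_const, nsmul_eq_mul, mul_one]
    congr 3
    ext e
    simp only [ind_E, evin, mem_filter]
    tauto
  rw [this]
  simp only [ind_V, card_empty]
  push_cast
  ring

/-- a closed block containing a cycle -/
theorem block_cycle {h g : ℕ} (P : Par2 h g) (hK : K.Cyc h) (hD : ∀ X ⊆ K.V, 3 ≤ K.D X)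
    {S : Finset ℕ} (hS : S ⊆ K.V) (hcl : K.Closed S) (hev : #S ≤ #(K.evin S) + 1)
    (hne : S.Nonempty) (hcard : #S ≤ #(K.ind S).E) : 2 * g + h ≤ K.W := by
  apply rest_cycle P hK hD hS hcl (empty_subset S) _ _ hne hcard
  · intro e _
    simp
  · rw [D_ind_empty]
    have : (#S : ℤ) ≤ #(K.evin S) + 1 := by exact_mod_cast hev
    linarith

lemma D_empty : K.D ∅ = #K.V - #K.ev := by
  unfold D
  have : ∑ e ∈ K.E, K.phi ∅ e = -(#K.ev : ℤ) := by
    have h1 : ∀ e ∈ K.E, K.phi ∅ e = -(if Even (K.w e) then 1 else 0) := by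
      intro e _
      unfold phi
      by_cases hw : Even (K.w e) <;> simp [hw]
    rw [sum_congr rfl h1, sum_neg_distrib, ← sum_filter, sum_const, nsmul_eq_mul, mul_one]
    rfl
  rw [this, card_empty]
  push_cast
  ring

/-- `D` on a closed set -/
lemma D_closed {S : Finset ℕ} (hcl : K.Closed S) :
    K.D S = (#K.V : ℤ) - #K.ev - 2 * #S + 2 * #(K.ind S).E := by
  have h0 := K.D_empty
  unfold D at h0 ⊢
  rw [card_empty] at h0
  have h1 : ∀ e ∈ K.E, K.phi S e = K.phi ∅ e + 2 * (if K.s e ∈ S ∧ K.t e ∈ S then 1 else 0) := by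
    intro e he
    have := hcl e he
    unfold phi
    by_cases hw : Even (K.w e)
    · have h2 := this hw
      by_cases h3 : K.s e ∈ S
      · simp [hw, h3, h2.1 h3]
      · have h4 : K.t e ∉ S := fun h => h3 (h2.2 h)
        simp [hw, h3, h4]
    · simp only [hw, if_false]
      split_ifs <;> simp_all
  rw [sum_congr rfl h1, sum_add_distrib, ← mul_sum, ← sum_filter, sum_const, nsmul_eq_mul, mul_one]
  have h2 : (K.E.filter fun e => K.s e ∈ S ∧ K.t e ∈ S) = (K.ind S).E := rfl
  rw [h2]
  push_cast at h0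
  linarith

/-- all ends of edges at `v` -/
def nb (K : MG) (v : ℕ) : Finset ℕ := (K.star v).image fun e => K.oth e v

lemma mem_nb {v u : ℕ} : u ∈ K.nb v ↔ ∃ e ∈ K.star v, K.oth e v = u := by
  simp [nb]

lemma star_ends {e v : ℕ} (hl : K.NoLoops) (he : e ∈ K.star v) :
    (K.s e = v ∧ K.t e = K.oth e v) ∨ (K.t e = v ∧ K.s e = K.oth e v) := by
  unfold star at he
  rw [mem_filter] at he
  unfold oth
  rcases he.2 with h | h
  · left; rw [if_pos h]; exact ⟨h, rfl⟩
  · have : K.s e ≠ v := fun h2 => hl e he.1 (h2.trans h.symm)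
    right; rw [if_neg this]; exact ⟨h, rfl⟩

/-- cubic case with few blocks -/
theorem three_small {h g : ℕ} (P : Par2 h g) (hK : K.Cyc h) (hD : ∀ X ⊆ K.V, 3 ≤ K.D X)
    (hl : K.NoLoops) (hc : K.Cubic) (hV : #K.V ≤ 8)
    (hn : #K.V = #K.ev + 3 ∨ #K.V = #K.ev + 5) : 2 * g + h ≤ K.W := by
  classical
  have hcard := hc.card
  rcases hn with hn | hn
  · obtain ⟨v, hv⟩ : K.V.Nonempty := card_pos.1 (by omega)
    obtain ⟨T, hTV, hvT, hcl, hTc⟩ := K.grow closed_V (Y := {v}) (by simpa using hv)
    rw [card_singleton] at hTc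
    apply block_cycle P hK hD hTV hcl hTc ⟨v, hvT (by simp)⟩
    have h1 := hD T hTV
    rw [D_closed hcl] at h1
    have : (#K.V : ℤ) = #K.ev + 3 := by exact_mod_cast hn
    have : (#T : ℤ) ≤ #(K.ind T).E := by linarith
    exact_mod_cast this
  · -- an untouched vertex
    have hex : ∃ v ∈ K.V, ∀ e ∈ K.ev, K.s e ≠ v ∧ K.t e ≠ v := by
      by_contra hcon
      push Not at hcon
      have hsub : K.V ⊆ K.ev.image K.s ∪ K.ev.image K.t := by
        intro v hv
        obtain ⟨e, he, h1⟩ := hcon v hv
        rw [mem_union, mem_image, mem_image]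
        by_cases h2 : K.s e = v
        · exact Or.inl ⟨e, he, h2⟩
        · exact Or.inr ⟨e, he, h1 h2⟩
      have h1 := card_le_card hsub
      have h2 := card_union_le (K.ev.image K.s) (K.ev.image K.t)
      have h3 := card_image_le (s := K.ev) (f := K.s)
      have h4 := card_image_le (s := K.ev) (f := K.t)
      omega
    obtain ⟨v, hv, hvu⟩ := hex
    have hY : #(insert v (K.nb v)) ≤ 4 := by
      have h1 := card_insert_le v (K.nb v)
      have h2 : #(K.nb v) ≤ #(K.star v) := card_image_le
      rw [← K.deg_eq_card_star hl, hc v hv] at h2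
      omega
    have hYV : insert v (K.nb v) ⊆ K.V := by
      intro x hx
      rw [mem_insert, mem_nb] at hx
      rcases hx with rfl | ⟨e, he, rfl⟩
      · exact hv
      · exact oth_mem (K.star_subset v he)
    obtain ⟨T, hTV, hYT, hcl, hTc⟩ := K.grow closed_V hYV
    have hevT : #(K.evin T) ≤ #K.ev := by
      apply card_le_card
      intro e he
      simp only [evin, ev, mem_filter] at he ⊢
      exact ⟨he.1, he.2.1⟩
    have hlt : #T < #K.V := by omega
    obtain ⟨z, hz, hzT⟩ : ∃ z ∈ K.V, z ∉ T := by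
      by_contra hcon
      push Not at hcon
      exact absurd (card_le_card (show K.V ⊆ T from hcon)) (by omega)
    obtain ⟨S, hSU, hzS, hclS, hSc⟩ := K.grow hcl.sdiff (Y := {z}) (by simpa using ⟨hz, hzT⟩)
    rw [card_singleton] at hSc
    have hSV : S ⊆ K.V := hSU.trans sdiff_subset
    by_cases hcyc : #S ≤ #(K.ind S).E
    · exact block_cycle P hK hD hSV hclS hSc ⟨z, hzS (by simp)⟩ hcyc
    · exfalso
      have hvS : v ∉ S := fun hh => (mem_sdiff.1 (hSU hh)).2 (hYT (mem_insert_self _ _))
      have hclS' : K.Closed (insert v S) := by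
        intro e he hw
        obtain ⟨h1, h2⟩ := hvu e (by simp [ev, he, hw])
        rw [mem_insert, mem_insert]
        have := hclS e he hw
        tauto
      have hE : (K.ind (insert v S)).E = (K.ind S).E := by
        ext e
        simp only [ind_E, mem_filter, mem_insert]
        constructor
        · rintro ⟨he, h1, h2⟩
          have hnot : ∀ x, x ∈ K.nb v → x ∉ S := fun x hx hh =>
            (mem_sdiff.1 (hSU hh)).2 (hYT (mem_insert_of_mem hx))
          refine ⟨he, ?_⟩
          have hl' := hl e he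
          rcases h1 with h1 | h1
          · have hst : e ∈ K.star v := by simp [star, he, h1]
            have hot : K.oth e v = K.t e := by simp [oth, h1]
            have hm : K.t e ∈ K.nb v := mem_nb.2 ⟨e, hst, hot⟩
            rcases h2 with h2 | h2
            · exact absurd (h1.trans h2.symm) hl'
            · exact absurd h2 (hnot _ hm)
          · rcases h2 with h2 | h2
            · have hst : e ∈ K.star v := by simp [star, he, h2]
              have hot : K.oth e v = K.s e := by
                have : K.s e ≠ v := fun h3 => hl' (h3.trans h2.symm)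
                simp [oth, this]
              have hm : K.s e ∈ K.nb v := mem_nb.2 ⟨e, hst, hot⟩
              exact absurd h1 (hnot _ hm)
            · exact ⟨h1, h2⟩
        · rintro ⟨he, h1, h2⟩
          exact ⟨he, Or.inr h1, Or.inr h2⟩
      have h1 := hD (insert v S) (insert_subset hv hSV)
      rw [D_closed hclS', hE, card_insert_of_notMem hvS] at h1
      have h2 : (#K.V : ℤ) = #K.ev + 5 := by exact_mod_cast hn
      have h3 : (#(K.ind S).E : ℤ) + 1 ≤ #S := by
        push Not at hcyc
        exact_mod_cast hcyc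
      push_cast at h1
      linarith

end MG
end Pool.H82.SC
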