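import Pool.Agent.H82.SC.Three

set_option linter.unusedSimpArgs false
set_option linter.unusedVariables false

namespace Pool.H82.SC

open Finset

namespace MG

variable {K : MG}

/-- `e` joins `u` and `v` -/
def J (K : MG) (e u v : ℕ) : Prop := (K.s e = u ∧ K.t e = v) ∨ (K.s e = v ∧ K.t e = u)

lemma J.symm {e u v : ℕ} (h : K.J e u v) : K.J e v u := Or.symm h

lemma J.inc {e u v : ℕ} (h : K.J e u v) (x : ℕ) :
    K.inc e x = (if u = x then 1 else 0) + (if v = x then 1 else 0) := by
  unfold MG.inc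
  rcases h with ⟨h1, h2⟩ | ⟨h1, h2⟩
  · rw [h1, h2]
  · rw [h1, h2, add_comm]

lemma J_star (hl : K.NoLoops) {e v : ℕ} (he : e ∈ K.star v) : K.J e v (K.oth e v) := by
  rcases star_ends hl he with ⟨h1, h2⟩ | ⟨h1, h2⟩
  · exact Or.inl ⟨h1, h2⟩
  · exact Or.inr ⟨h2, h1⟩

lemma J.mem_star {e u v : ℕ} (he : e ∈ K.E) (h : K.J e u v) : e ∈ K.star u := by
  unfold star
  rw [mem_filter]
  refine ⟨he, ?_⟩
  rcases h with ⟨h1, h2⟩ | ⟨h1, h2⟩
  · exact Or.inl h1
  · exact Or.inr h2

lemma J.oth (hl : K.NoLoops) {e u v : ℕ} (he : e ∈ K.E) (h : K.J e u v) : K.oth e u = v := by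
  unfold MG.oth
  rcases h with ⟨h1, h2⟩ | ⟨h1, h2⟩
  · rw [if_pos h1, h2]
  · have : K.s e ≠ u := fun h3 => hl e he (h3.trans h2.symm)
    rw [if_neg this, h1]

lemma mem_nb' (hl : K.NoLoops) {u v : ℕ} : v ∈ K.nb u ↔ ∃ e ∈ K.E, K.J e u v := by
  rw [mem_nb]
  constructor
  · rintro ⟨e, he, rfl⟩
    exact ⟨e, K.star_subset u he, J_star hl he⟩
  · rintro ⟨e, he, h⟩
    exact ⟨e, h.mem_star he, h.oth hl he⟩

lemma nb_symm (hl : K.NoLoops) {u v : ℕ} : v ∈ K.nb u ↔ u ∈ K.nb v := by
  rw [mem_nb' hl, mem_nb' hl]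
  exact ⟨fun ⟨e, he, h⟩ => ⟨e, he, h.symm⟩, fun ⟨e, he, h⟩ => ⟨e, he, h.symm⟩⟩

lemma not_mem_nb_self (hl : K.NoLoops) {u : ℕ} : u ∉ K.nb u := by
  rw [mem_nb' hl]
  rintro ⟨e, he, ⟨h1, h2⟩ | ⟨h1, h2⟩⟩ <;> exact hl e he (h1.trans h2.symm)

lemma nb_subset {u : ℕ} : K.nb u ⊆ K.V := by
  intro x hx
  rw [mem_nb] at hx
  obtain ⟨e, he, rfl⟩ := hx
  exact oth_mem (K.star_subset u he)

lemma card_nb_lt (hl : K.NoLoops) {e f u v : ℕ} (he : e ∈ K.E) (hf : f ∈ K.E) (hne : e ≠ f)
    (h1 : K.J e u v) (h2 : K.J f u v) : #(K.nb u) < #(K.star u) := by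
  have hsub : K.nb u ⊆ ((K.star u).erase e).image fun e => K.oth e u := by
    intro x hx
    rw [mem_nb] at hx
    obtain ⟨k, hk, rfl⟩ := hx
    rw [mem_image]
    by_cases hke : k = e
    · subst hke
      exact ⟨f, mem_erase.2 ⟨hne.symm, h2.mem_star hf⟩, by
        show K.oth f u = K.oth k u
        rw [h2.oth hl hf, h1.oth hl he]⟩
    · exact ⟨k, mem_erase.2 ⟨hke, hk⟩, rfl⟩
  have h3 := card_le_card hsub
  have h4 := card_image_le (s := (K.star u).erase e) (f := fun e => K.oth e u)
  rw [card_erase_of_mem (h1.mem_star he)] at h4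
  have := card_pos.2 ⟨e, h1.mem_star he⟩
  omega

/-- odd closed list of edges -/
lemma cyc_list {h g : ℕ} (P : Par2 h g) (hK : K.Cyc h) (l : List ℕ) (hl : ∀ e ∈ l, e ∈ K.E)
    (hnd : l.Nodup) (hbd : ∀ v, (l.map (fun e => K.inc e v)).sum = 0)
    (hodd : Odd ((l.map K.w).sum)) : g ≤ (l.map K.w).sum := by
  have hw : K.wt l.toFinset = (l.map K.w).sum := by
    unfold wt
    exact List.sum_toFinset _ hnd
  rw [← hw]
  apply odd_wt P hK
  · refine ⟨fun e he => hl e (List.mem_toFinset.1 he), fun v => ?_⟩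
    unfold bd
    rw [List.sum_toFinset _ hnd]
    exact hbd v
  · rw [hw]; exact hodd

lemma z2 (a : ZMod 2) : a + a = 0 := zmod2_add_self a

/-- the twelve edges in type A -/
theorem typeA {h g : ℕ} (P : Par2 h g) (hK : K.Cyc h)
    {x y a b c d p q e0 xa xb yc yd pa pb ab qc qd cd pq : ℕ}
    (hlab : ∃ lab : ℕ → ℕ, lab x = 0 ∧ lab y = 1 ∧ lab a = 2 ∧ lab b = 3 ∧ lab c = 4 ∧ lab d = 5 ∧
      lab p = 6 ∧ lab q = 7)
    (hmem : ∀ e ∈ [e0, xa, xb, yc, yd, pa, pb, ab, qc, qd, cd, pq], e ∈ K.E)
    (j0 : K.J e0 x y) (j1 : K.J xa x a) (j2 : K.J xb x b) (j3 : K.J yc y c) (j4 : K.J yd y d)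
    (j5 : K.J pa p a) (j6 : K.J pb p b) (j7 : K.J ab a b) (j8 : K.J qc q c) (j9 : K.J qd q d)
    (j10 : K.J cd c d) (j11 : K.J pq p q)
    (hev : ∀ e ∈ K.E, Even (K.w e) ↔ e = e0) : 3 * g ≤ K.W := by
  obtain ⟨lab, l0, l1, l2, l3, l4, l5, l6, l7⟩ := hlab
  let code : ℕ → ℕ := fun e => 2 ^ (lab (K.s e)) + 2 ^ (lab (K.t e))
  have hcode : ∀ {e u v}, K.J e u v → code e = 2 ^ (lab u) + 2 ^ (lab v) := by
    intro e u v hj
    rcases hj with ⟨h1, h2⟩ | ⟨h1, h2⟩
    · simp only [code, h1, h2]
    · simp only [code, h1, h2]; ring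
  have hnd : [e0, xa, xb, yc, yd, pa, pb, ab, qc, qd, cd, pq].Nodup := by
    apply List.Nodup.of_map code
    simp only [List.map, hcode j0, hcode j1, hcode j2, hcode j3, hcode j4, hcode j5, hcode j6,
      hcode j7, hcode j8, hcode j9, hcode j10, hcode j11, l0, l1, l2, l3, l4, l5, l6, l7]
    decide
  have hW : K.w e0 + K.w xa + K.w xb + K.w yc + K.w yd + K.w pa + K.w pb + K.w ab + K.w qc +
      K.w qd + K.w cd + K.w pq ≤ K.W := by
    have h1 : K.wt [e0, xa, xb, yc, yd, pa, pb, ab, qc, qd, cd, pq].toFinset ≤ K.W :=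
      K.wt_mono (fun e he => hmem e (List.mem_toFinset.1 he))
    unfold wt at h1
    rw [List.sum_toFinset _ hnd] at h1
    simp only [List.map, List.sum_cons, List.sum_nil] at h1
    omega
  have hm := hmem
  simp only [List.mem_cons, List.not_mem_nil, or_false, forall_eq_or_imp, forall_eq] at hm
  obtain ⟨m0, m1, m2, m3, m4, m5, m6, m7, m8, m9, m10, m11⟩ := hm
  have hnd' := hnd
  simp only [List.nodup_cons, List.mem_cons, not_or, List.not_mem_nil, or_false, List.nodup_nil,
    not_false_eq_true, and_true] at hnd'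
  have hodd : ∀ e ∈ K.E, e ≠ e0 → K.w e % 2 = 1 := by
    intro e he hne
    have := (hev e he).not.2 hne
    rw [Nat.not_even_iff] at this
    exact this
  have w0 : K.w e0 % 2 = 0 := Nat.even_iff.1 ((hev e0 m0).2 rfl)
  obtain ⟨⟨n1, n2, n3, n4, n5, n6, n7, n8, n9, n10, n11⟩, -⟩ := hnd'
  have w1 := hodd xa m1 (Ne.symm n1)
  have w2 := hodd xb m2 (Ne.symm n2)
  have w3 := hodd yc m3 (Ne.symm n3)
  have w4 := hodd yd m4 (Ne.symm n4)
  have w5 := hodd pa m5 (Ne.symm n5)
  have w6 := hodd pb m6 (Ne.symm n6)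
  have w7 := hodd ab m7 (Ne.symm n7)
  have w8 := hodd qc m8 (Ne.symm n8)
  have w9 := hodd qd m9 (Ne.symm n9)
  have w10 := hodd cd m10 (Ne.symm n10)
  have w11 := hodd pq m11 (Ne.symm n11)
  have c1 := cyc_list P hK [xa, ab, xb] (by simp [m1, m7, m2]) (by
      apply List.Nodup.of_map code
      simp only [List.map, hcode j1, hcode j7, hcode j2, l0, l1, l2, l3, l4, l5, l6, l7]
      decide) (by
      intro v
      simp only [List.map, List.sum_cons, List.sum_nil, j1.inc, j7.inc, j2.inc]
      linear_combination z2 (if x = v then 1 else 0) + z2 (if a = v then 1 else 0) +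
        z2 (if b = v then 1 else 0)) (by
      simp only [List.map, List.sum_cons, List.sum_nil, Nat.odd_iff]
      omega)
  have c2 := cyc_list P hK [yc, cd, yd] (by simp [m3, m10, m4]) (by
      apply List.Nodup.of_map code
      simp only [List.map, hcode j3, hcode j10, hcode j4, l0, l1, l2, l3, l4, l5, l6, l7]
      decide) (by
      intro v
      simp only [List.map, List.sum_cons, List.sum_nil, j3.inc, j10.inc, j4.inc]
      linear_combination z2 (if y = v then 1 else 0) + z2 (if c = v then 1 else 0) +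
        z2 (if d = v then 1 else 0)) (by
      simp only [List.map, List.sum_cons, List.sum_nil, Nat.odd_iff]
      omega)
  have c3 := cyc_list P hK [pa, ab, pb] (by simp [m5, m7, m6]) (by
      apply List.Nodup.of_map code
      simp only [List.map, hcode j5, hcode j7, hcode j6, l0, l1, l2, l3, l4, l5, l6, l7]
      decide) (by
      intro v
      simp only [List.map, List.sum_cons, List.sum_nil, j5.inc, j7.inc, j6.inc]
      linear_combination z2 (if p = v then 1 else 0) + z2 (if a = v then 1 else 0) +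
        z2 (if b = v then 1 else 0)) (by
      simp only [List.map, List.sum_cons, List.sum_nil, Nat.odd_iff]
      omega)
  have c4 := cyc_list P hK [qc, cd, qd] (by simp [m8, m10, m9]) (by
      apply List.Nodup.of_map code
      simp only [List.map, hcode j8, hcode j10, hcode j9, l0, l1, l2, l3, l4, l5, l6, l7]
      decide) (by
      intro v
      simp only [List.map, List.sum_cons, List.sum_nil, j8.inc, j10.inc, j9.inc]
      linear_combination z2 (if q = v then 1 else 0) + z2 (if c = v then 1 else 0) +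
        z2 (if d = v then 1 else 0)) (by
      simp only [List.map, List.sum_cons, List.sum_nil, Nat.odd_iff]
      omega)
  have c5 := cyc_list P hK [xa, pa, pq, qc, yc, e0] (by simp [m0, m1, m3, m5, m8, m11]) (by
      apply List.Nodup.of_map code
      simp only [List.map, hcode j1, hcode j5, hcode j11, hcode j8, hcode j3, hcode j0,
        l0, l1, l2, l3, l4, l5, l6, l7]
      decide) (by
      intro v
      simp only [List.map, List.sum_cons, List.sum_nil, j1.inc, j5.inc, j11.inc, j8.inc, j3.inc,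
        j0.inc]
      linear_combination z2 (if x = v then 1 else 0) + z2 (if a = v then 1 else 0) +
        z2 (if p = v then 1 else 0) + z2 (if q = v then 1 else 0) +
        z2 (if c = v then 1 else 0) + z2 (if y = v then 1 else 0)) (by
      simp only [List.map, List.sum_cons, List.sum_nil, Nat.odd_iff]
      omega)
  have c6 := cyc_list P hK [xb, pb, pq, qd, yd, e0] (by simp [m0, m2, m4, m6, m9, m11]) (by
      apply List.Nodup.of_map code
      simp only [List.map, hcode j2, hcode j6, hcode j11, hcode j9, hcode j4, hcode j0,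
        l0, l1, l2, l3, l4, l5, l6, l7]
      decide) (by
      intro v
      simp only [List.map, List.sum_cons, List.sum_nil, j2.inc, j6.inc, j11.inc, j9.inc, j4.inc,
        j0.inc]
      linear_combination z2 (if x = v then 1 else 0) + z2 (if b = v then 1 else 0) +
        z2 (if p = v then 1 else 0) + z2 (if q = v then 1 else 0) +
        z2 (if d = v then 1 else 0) + z2 (if y = v then 1 else 0)) (by
      simp only [List.map, List.sum_cons, List.sum_nil, Nat.odd_iff]
      omega)
  simp only [List.map, List.sum_cons, List.sum_nil] at c1 c2 c3 c4 c5 c6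
  omega

/-- the twelve edges in type B -/
theorem typeB {h g : ℕ} (P : Par2 h g) (hK : K.Cyc h)
    {x y a b c d p q e0 xa xb yc yd pa pc ac qb qd bd pq : ℕ}
    (hlab : ∃ lab : ℕ → ℕ, lab x = 0 ∧ lab y = 1 ∧ lab a = 2 ∧ lab b = 3 ∧ lab c = 4 ∧ lab d = 5 ∧
      lab p = 6 ∧ lab q = 7)
    (hmem : ∀ e ∈ [e0, xa, xb, yc, yd, pa, pc, ac, qb, qd, bd, pq], e ∈ K.E)
    (j0 : K.J e0 x y) (j1 : K.J xa x a) (j2 : K.J xb x b) (j3 : K.J yc y c) (j4 : K.J yd y d)
    (j5 : K.J pa p a) (j6 : K.J pc p c) (j7 : K.J ac a c) (j8 : K.J qb q b) (j9 : K.J qd q d)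
    (j10 : K.J bd b d) (j11 : K.J pq p q)
    (hev : ∀ e ∈ K.E, Even (K.w e) ↔ e = e0) : 3 * g ≤ K.W := by
  obtain ⟨lab, l0, l1, l2, l3, l4, l5, l6, l7⟩ := hlab
  let code : ℕ → ℕ := fun e => 2 ^ (lab (K.s e)) + 2 ^ (lab (K.t e))
  have hcode : ∀ {e u v}, K.J e u v → code e = 2 ^ (lab u) + 2 ^ (lab v) := by
    intro e u v hj
    rcases hj with ⟨h1, h2⟩ | ⟨h1, h2⟩
    · simp only [code, h1, h2]
    · simp only [code, h1, h2]; ring
  have hnd : [e0, xa, xb, yc, yd, pa, pc, ac, qb, qd, bd, pq].Nodup := by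
    apply List.Nodup.of_map code
    simp only [List.map, hcode j0, hcode j1, hcode j2, hcode j3, hcode j4, hcode j5, hcode j6,
      hcode j7, hcode j8, hcode j9, hcode j10, hcode j11, l0, l1, l2, l3, l4, l5, l6, l7]
    decide
  have hW : K.w e0 + K.w xa + K.w xb + K.w yc + K.w yd + K.w pa + K.w pc + K.w ac + K.w qb +
      K.w qd + K.w bd + K.w pq ≤ K.W := by
    have h1 : K.wt [e0, xa, xb, yc, yd, pa, pc, ac, qb, qd, bd, pq].toFinset ≤ K.W :=
      K.wt_mono (fun e he => hmem e (List.mem_toFinset.1 he))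
    unfold wt at h1
    rw [List.sum_toFinset _ hnd] at h1
    simp only [List.map, List.sum_cons, List.sum_nil] at h1
    omega
  have hm := hmem
  simp only [List.mem_cons, List.not_mem_nil, or_false, forall_eq_or_imp, forall_eq] at hm
  obtain ⟨m0, m1, m2, m3, m4, m5, m6, m7, m8, m9, m10, m11⟩ := hm
  have hnd' := hnd
  simp only [List.nodup_cons, List.mem_cons, not_or, List.not_mem_nil, or_false, List.nodup_nil,
    not_false_eq_true, and_true] at hnd'
  have hodd : ∀ e ∈ K.E, e ≠ e0 → K.w e % 2 = 1 := by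
    intro e he hne
    have := (hev e he).not.2 hne
    rw [Nat.not_even_iff] at this
    exact this
  have w0 : K.w e0 % 2 = 0 := Nat.even_iff.1 ((hev e0 m0).2 rfl)
  obtain ⟨⟨n1, n2, n3, n4, n5, n6, n7, n8, n9, n10, n11⟩, -⟩ := hnd'
  have w1 := hodd xa m1 (Ne.symm n1)
  have w2 := hodd xb m2 (Ne.symm n2)
  have w3 := hodd yc m3 (Ne.symm n3)
  have w4 := hodd yd m4 (Ne.symm n4)
  have w5 := hodd pa m5 (Ne.symm n5)
  have w6 := hodd pc m6 (Ne.symm n6)
  have w7 := hodd ac m7 (Ne.symm n7)
  have w8 := hodd qb m8 (Ne.symm n8)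
  have w9 := hodd qd m9 (Ne.symm n9)
  have w10 := hodd bd m10 (Ne.symm n10)
  have w11 := hodd pq m11 (Ne.symm n11)
  have c1 := cyc_list P hK [pa, ac, pc] (by simp [m5, m7, m6]) (by
      apply List.Nodup.of_map code
      simp only [List.map, hcode j5, hcode j7, hcode j6, l0, l1, l2, l3, l4, l5, l6, l7]
      decide) (by
      intro v
      simp only [List.map, List.sum_cons, List.sum_nil, j5.inc, j7.inc, j6.inc]
      linear_combination z2 (if p = v then 1 else 0) + z2 (if a = v then 1 else 0) +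
        z2 (if c = v then 1 else 0)) (by
      simp only [List.map, List.sum_cons, List.sum_nil, Nat.odd_iff]
      omega)
  have c2 := cyc_list P hK [qb, bd, qd] (by simp [m8, m10, m9]) (by
      apply List.Nodup.of_map code
      simp only [List.map, hcode j8, hcode j10, hcode j9, l0, l1, l2, l3, l4, l5, l6, l7]
      decide) (by
      intro v
      simp only [List.map, List.sum_cons, List.sum_nil, j8.inc, j10.inc, j9.inc]
      linear_combination z2 (if q = v then 1 else 0) + z2 (if b = v then 1 else 0) +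
        z2 (if d = v then 1 else 0)) (by
      simp only [List.map, List.sum_cons, List.sum_nil, Nat.odd_iff]
      omega)
  have c3 := cyc_list P hK [xa, ac, yc, e0] (by simp [m1, m7, m3, m0]) (by
      apply List.Nodup.of_map code
      simp only [List.map, hcode j1, hcode j7, hcode j3, hcode j0, l0, l1, l2, l3, l4, l5, l6, l7]
      decide) (by
      intro v
      simp only [List.map, List.sum_cons, List.sum_nil, j1.inc, j7.inc, j3.inc, j0.inc]
      linear_combination z2 (if x = v then 1 else 0) + z2 (if a = v then 1 else 0) +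
        z2 (if c = v then 1 else 0) + z2 (if y = v then 1 else 0)) (by
      simp only [List.map, List.sum_cons, List.sum_nil, Nat.odd_iff]
      omega)
  have c4 := cyc_list P hK [xb, bd, yd, e0] (by simp [m2, m10, m4, m0]) (by
      apply List.Nodup.of_map code
      simp only [List.map, hcode j2, hcode j10, hcode j4, hcode j0, l0, l1, l2, l3, l4, l5, l6, l7]
      decide) (by
      intro v
      simp only [List.map, List.sum_cons, List.sum_nil, j2.inc, j10.inc, j4.inc, j0.inc]
      linear_combination z2 (if x = v then 1 else 0) + z2 (if b = v then 1 else 0) +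
        z2 (if d = v then 1 else 0) + z2 (if y = v then 1 else 0)) (by
      simp only [List.map, List.sum_cons, List.sum_nil, Nat.odd_iff]
      omega)
  have c5 := cyc_list P hK [xa, pa, pq, qb, xb] (by simp [m1, m2, m5, m8, m11]) (by
      apply List.Nodup.of_map code
      simp only [List.map, hcode j1, hcode j5, hcode j11, hcode j8, hcode j2,
        l0, l1, l2, l3, l4, l5, l6, l7]
      decide) (by
      intro v
      simp only [List.map, List.sum_cons, List.sum_nil, j1.inc, j5.inc, j11.inc, j8.inc, j2.inc]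
      linear_combination z2 (if x = v then 1 else 0) + z2 (if a = v then 1 else 0) +
        z2 (if p = v then 1 else 0) + z2 (if q = v then 1 else 0) +
        z2 (if b = v then 1 else 0)) (by
      simp only [List.map, List.sum_cons, List.sum_nil, Nat.odd_iff]
      omega)
  have c6 := cyc_list P hK [yc, pc, pq, qd, yd] (by simp [m3, m4, m6, m9, m11]) (by
      apply List.Nodup.of_map code
      simp only [List.map, hcode j3, hcode j6, hcode j11, hcode j9, hcode j4,
        l0, l1, l2, l3, l4, l5, l6, l7]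
      decide) (by
      intro v
      simp only [List.map, List.sum_cons, List.sum_nil, j3.inc, j6.inc, j11.inc, j9.inc, j4.inc]
      linear_combination z2 (if y = v then 1 else 0) + z2 (if c = v then 1 else 0) +
        z2 (if p = v then 1 else 0) + z2 (if q = v then 1 else 0) +
        z2 (if d = v then 1 else 0)) (by
      simp only [List.map, List.sum_cons, List.sum_nil, Nat.odd_iff]
      omega)
  simp only [List.map, List.sum_cons, List.sum_nil] at c1 c2 c3 c4 c5 c6
  omega

end MG
end Pool.H82.SC
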