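import Pool.Agent.H82.SC.ThreeC

set_option linter.unusedSimpArgs false
set_option linter.unusedVariables false

namespace Pool.H82.SC

open Finset

namespace MG

variable {K : MG}

lemma comb (ab ac ad bc bd cd ap bp cp dp aq bq cq dq : ℕ)
    (ra : ab + ac + ad + ap + aq = 2) (rb : ab + bc + bd + bp + bq = 2)
    (rc : ac + bc + cd + cp + cq = 2) (rd : ad + bd + cd + dp + dq = 2)
    (rp : ap + bp + cp + dp = 2) (rq : aq + bq + cq + dq = 2)
    (b1 : ab ≤ 1) (b2 : ac ≤ 1) (b3 : ad ≤ 1) (b4 : bc ≤ 1) (b5 : bd ≤ 1) (b6 : cd ≤ 1)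
    (b7 : ap ≤ 1) (b8 : bp ≤ 1) (b9 : cp ≤ 1) (b10 : dp ≤ 1)
    (b11 : aq ≤ 1) (b12 : bq ≤ 1) (b13 : cq ≤ 1) (b14 : dq ≤ 1)
    (tabp : 1 ≤ ab + ap + bp) (tabq : 1 ≤ ab + aq + bq)
    (tacp : 1 ≤ ac + ap + cp) (tacq : 1 ≤ ac + aq + cq)
    (tadp : 1 ≤ ad + ap + dp) (tadq : 1 ≤ ad + aq + dq)
    (tbcp : 1 ≤ bc + bp + cp) (tbcq : 1 ≤ bc + bq + cq)
    (tbdp : 1 ≤ bd + bp + dp) (tbdq : 1 ≤ bd + bq + dq)
    (tcdp : 1 ≤ cd + cp + dp) (tcdq : 1 ≤ cd + cq + dq)
    (tabc : 1 ≤ ab + ac + bc) (tabd : 1 ≤ ab + ad + bd)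
    (tacd : 1 ≤ ac + ad + cd) (tbcd : 1 ≤ bc + bd + cd) :
    (ap = 1 ∧ bp = 1 ∧ ab = 1 ∧ cq = 1 ∧ dq = 1 ∧ cd = 1) ∨
      (cp = 1 ∧ dp = 1 ∧ cd = 1 ∧ aq = 1 ∧ bq = 1 ∧ ab = 1) ∨
      (ap = 1 ∧ cp = 1 ∧ ac = 1 ∧ bq = 1 ∧ dq = 1 ∧ bd = 1) ∨
      (bp = 1 ∧ dp = 1 ∧ bd = 1 ∧ aq = 1 ∧ cq = 1 ∧ ac = 1) ∨
      (ap = 1 ∧ dp = 1 ∧ ad = 1 ∧ bq = 1 ∧ cq = 1 ∧ bc = 1) ∨
      (bp = 1 ∧ cp = 1 ∧ bc = 1 ∧ aq = 1 ∧ dq = 1 ∧ ad = 1) := by
  have hp : (ap = 1 ∧ bp = 1 ∧ cp = 0 ∧ dp = 0) ∨ (ap = 1 ∧ bp = 0 ∧ cp = 1 ∧ dp = 0) ∨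
      (ap = 1 ∧ bp = 0 ∧ cp = 0 ∧ dp = 1) ∨ (ap = 0 ∧ bp = 1 ∧ cp = 1 ∧ dp = 0) ∨
      (ap = 0 ∧ bp = 1 ∧ cp = 0 ∧ dp = 1) ∨ (ap = 0 ∧ bp = 0 ∧ cp = 1 ∧ dp = 1) := by
    clear ra rb rc rd rq tabp tabq tacp tacq tadp tadq tbcp tbcq tbdp tbdq tcdp tcdq tabc tabd tacd
      tbcd b1 b2 b3 b4 b5 b6 b11 b12 b13 b14
    interval_cases ap <;> interval_cases bp <;> interval_cases cp <;> omega
  have hq : (aq = 1 ∧ bq = 1 ∧ cq = 0 ∧ dq = 0) ∨ (aq = 1 ∧ bq = 0 ∧ cq = 1 ∧ dq = 0) ∨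
      (aq = 1 ∧ bq = 0 ∧ cq = 0 ∧ dq = 1) ∨ (aq = 0 ∧ bq = 1 ∧ cq = 1 ∧ dq = 0) ∨
      (aq = 0 ∧ bq = 1 ∧ cq = 0 ∧ dq = 1) ∨ (aq = 0 ∧ bq = 0 ∧ cq = 1 ∧ dq = 1) := by
    clear hp ra rb rc rd rp tabp tabq tacp tacq tadp tadq tbcp tbcq tbdp tbdq tcdp tcdq tabc tabd tacd
      tbcd b1 b2 b3 b4 b5 b6 b7 b8 b9 b10
    interval_cases aq <;> interval_cases bq <;> interval_cases cq <;> omega
  rcases hp with hp | hp | hp | hp | hp | hp <;> obtain ⟨rfl, rfl, rfl, rfl⟩ := hp <;>
    rcases hq with hq | hq | hq | hq | hq | hq <;> obtain ⟨rfl, rfl, rfl, rfl⟩ := hq <;>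
    first
    | (exfalso; omega)
    | exact Or.inl ⟨by omega, by omega, by omega, by omega, by omega, by omega⟩
    | exact Or.inr (Or.inl ⟨by omega, by omega, by omega, by omega, by omega, by omega⟩)
    | exact Or.inr (Or.inr (Or.inl ⟨by omega, by omega, by omega, by omega, by omega, by omega⟩))
    | exact Or.inr (Or.inr (Or.inr (Or.inl
        ⟨by omega, by omega, by omega, by omega, by omega, by omega⟩)))
    | exact Or.inr (Or.inr (Or.inr (Or.inr (Or.inl
        ⟨by omega, by omega, by omega, by omega, by omega, by omega⟩))))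
    | exact Or.inr (Or.inr (Or.inr (Or.inr (Or.inr
        ⟨by omega, by omega, by omega, by omega, by omega, by omega⟩))))

/-- for a vertex off the even edge, its neighbourhood is large -/
lemma nb_large {h g : ℕ} (P : Par2 h g) (hK : K.Cyc h) (hD : ∀ X ⊆ K.V, 3 ≤ K.D X)
    (hl : K.NoLoops) (hc : K.Cubic) {e0 x y : ℕ} (he0 : e0 ∈ K.E) (j0 : K.J e0 x y)
    (hev : ∀ e ∈ K.E, Even (K.w e) ↔ e = e0) (hcon : K.W < 2 * g + h) {u : ℕ} (hu : u ∈ K.V)
    (hux : u ≠ x) (huy : u ≠ y) : #(K.nb u) = 3 ∧ ¬ (x ∈ K.nb u ∧ y ∈ K.nb u) := by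
  classical
  have hstar : #(K.star u) = 3 := by rw [← K.deg_eq_card_star hl, hc u hu]
  have hnb3 : #(K.nb u) ≤ 3 := by rw [← hstar]; exact card_image_le
  have hxV : x ∈ K.V ∧ y ∈ K.V := by
    have h1 := K.hs e0 he0
    have h2 := K.ht e0 he0
    rcases j0 with ⟨a1, a2⟩ | ⟨a1, a2⟩
    · rw [a1] at h1; rw [a2] at h2; exact ⟨h1, h2⟩
    · rw [a1] at h1; rw [a2] at h2; exact ⟨h2, h1⟩
  have hxy : x ≠ y := by
    have h1 := hl e0 he0
    rcases j0 with ⟨a1, a2⟩ | ⟨a1, a2⟩
    · rw [a1, a2] at h1; exact h1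
    · rw [a1, a2] at h1; exact h1.symm
  have hw0 : ∀ e ∈ K.E, Even (K.w e) → (K.s e = x ∧ K.t e = y ∨ K.s e = y ∧ K.t e = x) := by
    intro e he hw
    rw [(hev e he).1 hw]
    exact j0
  have hDu : ∀ S : Finset ℕ, u ∈ S → (K.ind S).D {u} = (#S : ℤ) - 2 - #(K.evin S) := by
    intro S hS
    have h0 := K.D_ind_empty S
    unfold D at h0 ⊢
    have h1 : ∀ e ∈ (K.ind S).E, (K.ind S).phi {u} e = (K.ind S).phi ∅ e := by
      intro e he
      have heE : e ∈ K.E := (mem_filter.1 he).1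
      unfold phi
      simp only [ind_w, ind_s, ind_t, mem_singleton, notMem_empty]
      by_cases hw : Even (K.w e)
      · have := hw0 e heE hw
        have h2 : K.s e ≠ u ∧ K.t e ≠ u := by
          rcases this with ⟨a1, a2⟩ | ⟨a1, a2⟩
          · rw [a1, a2]; exact ⟨hux.symm, huy.symm⟩
          · rw [a1, a2]; exact ⟨huy.symm, hux.symm⟩
        simp [hw, h2.1, h2.2]
      · have h2 : ¬ (K.s e = u ∧ K.t e = u) := fun hh => hl e heE (hh.1.trans hh.2.symm)
        simp [hw, h2]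
    rw [sum_congr rfl h1]
    simp only [ind_V, card_empty, card_singleton] at h0 ⊢
    push_cast at h0 ⊢
    linarith
  have hsub3 : ∀ S : Finset ℕ, insert u (K.nb u) ⊆ S → K.star u ⊆ (K.ind S).E := by
    intro S hS e he
    have h1 := J_star hl he
    have h2 : K.oth e u ∈ S := hS (mem_insert_of_mem (mem_nb.2 ⟨e, he, rfl⟩))
    have h3 : u ∈ S := hS (mem_insert_self _ _)
    rw [ind_E, mem_filter]
    refine ⟨K.star_subset u he, ?_⟩
    rcases h1 with ⟨a1, a2⟩ | ⟨a1, a2⟩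
    · rw [a1, a2]; exact ⟨h3, h2⟩
    · rw [a1, a2]; exact ⟨h2, h3⟩
  have hcr : ∀ S : Finset ℕ, insert u (K.nb u) ⊆ S → ∀ e ∈ K.E,
      (K.s e ∈ ({u} : Finset ℕ) → K.t e ∈ S) ∧ (K.t e ∈ ({u} : Finset ℕ) → K.s e ∈ S) := by
    intro S hS e he
    constructor
    · intro h1
      rw [mem_singleton] at h1
      apply hS
      apply mem_insert_of_mem
      rw [mem_nb' hl]
      exact ⟨e, he, Or.inl ⟨h1, rfl⟩⟩
    · intro h1
      rw [mem_singleton] at h1
      apply hS
      apply mem_insert_of_mem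
      rw [mem_nb' hl]
      exact ⟨e, he, Or.inr ⟨rfl, h1⟩⟩
  have he0star : e0 ∉ K.star u := by
    intro hh
    have := (mem_filter.1 hh).2
    rcases j0 with ⟨a1, a2⟩ | ⟨a1, a2⟩
    · rw [a1, a2] at this; rcases this with h | h; exact hux h.symm; exact huy h.symm
    · rw [a1, a2] at this; rcases this with h | h; exact huy h.symm; exact hux h.symm
  by_contra hcc
  have hcase : #(K.nb u) ≤ 2 ∨ (x ∈ K.nb u ∧ y ∈ K.nb u) := by
    by_contra h1
    push Not at h1
    apply hcc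
    refine ⟨by omega, fun h2 => h1.2 h2.1 h2.2⟩
  apply absurd hcon
  push Not
  by_cases hint : x ∈ K.nb u ∨ y ∈ K.nb u
  · -- include both ends
    set S := insert u (K.nb u ∪ {x, y}) with hS
    have hSV : S ⊆ K.V := by
      intro z hz
      rw [hS] at hz
      simp only [mem_insert, mem_union, mem_singleton] at hz
      rcases hz with rfl | hz | rfl | rfl
      · exact hu
      · exact nb_subset hz
      · exact hxV.1
      · exact hxV.2
    have hxS : x ∈ S := by simp [hS]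
    have hyS : y ∈ S := by simp [hS]
    have hcl : K.Closed S := by
      intro e he hw
      rcases hw0 e he hw with ⟨a1, a2⟩ | ⟨a1, a2⟩
      · rw [a1, a2]; exact ⟨fun _ => hyS, fun _ => hxS⟩
      · rw [a1, a2]; exact ⟨fun _ => hxS, fun _ => hyS⟩
    have hsubS : insert u (K.nb u) ⊆ S := insert_subset_insert _ subset_union_left
    have hevS : #(K.evin S) = 1 := by
      rw [card_eq_one]
      refine ⟨e0, ?_⟩
      ext e
      rw [mem_singleton]
      unfold evin
      rw [mem_filter]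
      constructor
      · rintro ⟨he, hw, -⟩; exact (hev e he).1 hw
      · rintro rfl
        refine ⟨he0, (hev _ he0).2 rfl, ?_⟩
        rcases j0 with ⟨a1, a2⟩ | ⟨a1, a2⟩
        · rw [a1, a2]; exact ⟨hxS, hyS⟩
        · rw [a1, a2]; exact ⟨hyS, hxS⟩
    have hScard : #S ≤ 4 := by
      have h1 : #S ≤ #(K.nb u ∪ {x, y}) + 1 := by rw [hS]; exact card_insert_le _ _
      have h2 : #(K.nb u ∪ {x, y}) ≤ 3 := by
        by_cases hb : x ∈ K.nb u ∧ y ∈ K.nb u
        · have : K.nb u ∪ {x, y} = K.nb u := by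
            apply union_eq_left.2
            intro z hz
            simp only [mem_insert, mem_singleton] at hz
            rcases hz with rfl | rfl
            · exact hb.1
            · exact hb.2
          rw [this]; exact hnb3
        · have h2 : #(K.nb u) ≤ 2 := hcase.resolve_right hb
          rcases hint with h3 | h3
          · have : K.nb u ∪ {x, y} = insert y (K.nb u) := by
              ext z
              simp only [mem_union, mem_insert, mem_singleton]
              constructor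
              · rintro (h4 | rfl | rfl)
                · exact Or.inr h4
                · exact Or.inr h3
                · exact Or.inl rfl
              · rintro (rfl | h4)
                · simp
                · exact Or.inl h4
            rw [this]
            have := card_insert_le y (K.nb u)
            omega
          · have : K.nb u ∪ {x, y} = insert x (K.nb u) := by
              ext z
              simp only [mem_union, mem_insert, mem_singleton]
              constructor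
              · rintro (h4 | rfl | rfl)
                · exact Or.inr h4
                · exact Or.inl rfl
                · exact Or.inr h3
              · rintro (rfl | h4)
                · simp
                · exact Or.inl h4
            rw [this]
            have := card_insert_le x (K.nb u)
            omega
      omega
    have hE4 : 4 ≤ #(K.ind S).E := by
      have h1 : insert e0 (K.star u) ⊆ (K.ind S).E := by
        apply insert_subset
        · rw [ind_E, mem_filter]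
          refine ⟨he0, ?_⟩
          rcases j0 with ⟨a1, a2⟩ | ⟨a1, a2⟩
          · rw [a1, a2]; exact ⟨hxS, hyS⟩
          · rw [a1, a2]; exact ⟨hyS, hxS⟩
        · exact hsub3 S hsubS
      have := card_le_card h1
      rw [card_insert_of_notMem he0star, hstar] at this
      omega
    apply rest_cycle P hK hD hSV hcl (A := {u}) (by
      rw [singleton_subset_iff]; exact hsubS (mem_insert_self _ _)) (hcr S hsubS) _
      ⟨u, hsubS (mem_insert_self _ _)⟩ (by omega)
    rw [hDu S (hsubS (mem_insert_self _ _)), hevS]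
    have : (#S : ℤ) ≤ 4 := by exact_mod_cast hScard
    push_cast
    linarith
  · push Not at hint
    have h2 : #(K.nb u) ≤ 2 := hcase.resolve_right (fun hh => hint.1 hh.1)
    set S := insert u (K.nb u) with hS
    have hSV : S ⊆ K.V := by
      intro z hz
      rw [hS] at hz
      simp only [mem_insert] at hz
      rcases hz with rfl | hz
      · exact hu
      · exact nb_subset hz
    have hxS : x ∉ S := by simp [hS, hint.1, hux.symm]
    have hyS : y ∉ S := by simp [hS, hint.2, huy.symm]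
    have hcl : K.Closed S := by
      intro e he hw
      rcases hw0 e he hw with ⟨a1, a2⟩ | ⟨a1, a2⟩
      · rw [a1, a2]; exact ⟨fun h => absurd h hxS, fun h => absurd h hyS⟩
      · rw [a1, a2]; exact ⟨fun h => absurd h hyS, fun h => absurd h hxS⟩
    have hScard : #S ≤ 3 := by
      have := card_insert_le u (K.nb u)
      rw [← hS] at this
      omega
    have hE3 : 3 ≤ #(K.ind S).E := by
      rw [← hstar]
      exact card_le_card (hsub3 S subset_rfl)
    apply rest_cycle P hK hD hSV hcl (A := {u}) (by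
      rw [singleton_subset_iff]; exact mem_insert_self _ _) (hcr S subset_rfl) _
      ⟨u, mem_insert_self _ _⟩ (by omega)
    rw [hDu S (mem_insert_self _ _)]
    have : (#S : ℤ) ≤ 3 := by exact_mod_cast hScard
    have : (0 : ℤ) ≤ #(K.evin S) := by positivity
    linarith

/-- the two further neighbours of an end of the even edge -/
lemma x_nbs {h g : ℕ} (P : Par2 h g) (hK : K.Cyc h) (hD : ∀ X ⊆ K.V, 3 ≤ K.D X)
    (hl : K.NoLoops) (hc : K.Cubic) {e0 x y : ℕ} (he0 : e0 ∈ K.E) (j0 : K.J e0 x y)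
    (hev : ∀ e ∈ K.E, Even (K.w e) ↔ e = e0) (hcon : K.W < 2 * g + h) :
    ∃ a b, a ∈ K.V ∧ b ∈ K.V ∧ a ≠ x ∧ a ≠ y ∧ b ≠ x ∧ b ≠ y ∧ a ≠ b ∧ K.nb x = {y, a, b} := by
  classical
  have hxV : x ∈ K.V ∧ y ∈ K.V := by
    have h1 := K.hs e0 he0
    have h2 := K.ht e0 he0
    rcases j0 with ⟨a1, a2⟩ | ⟨a1, a2⟩
    · rw [a1] at h1; rw [a2] at h2; exact ⟨h1, h2⟩
    · rw [a1] at h1; rw [a2] at h2; exact ⟨h2, h1⟩
  have hxy : x ≠ y := by
    have h1 := hl e0 he0
    rcases j0 with ⟨a1, a2⟩ | ⟨a1, a2⟩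
    · rw [a1, a2] at h1; exact h1
    · rw [a1, a2] at h1; exact h1.symm
  have hw0 : ∀ e ∈ K.E, Even (K.w e) → (K.s e = x ∧ K.t e = y ∨ K.s e = y ∧ K.t e = x) := by
    intro e he hw
    rw [(hev e he).1 hw]
    exact j0
  have hstar : #(K.star x) = 3 := by rw [← K.deg_eq_card_star hl, hc x hxV.1]
  have he0s : e0 ∈ K.star x := j0.mem_star he0
  have hS2 : #({x, y} : Finset ℕ) = 2 := card_pair hxy
  have hSV : ({x, y} : Finset ℕ) ⊆ K.V := by
    intro z hz
    simp only [mem_insert, mem_singleton] at hz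
    rcases hz with rfl | rfl
    · exact hxV.1
    · exact hxV.2
  have hcl : K.Closed {x, y} := by
    intro e he hw
    rcases hw0 e he hw with ⟨a1, a2⟩ | ⟨a1, a2⟩ <;> rw [a1, a2] <;> simp
  have he0in : e0 ∈ K.evin {x, y} := by
    unfold evin
    rw [mem_filter]
    refine ⟨he0, (hev _ he0).2 rfl, ?_⟩
    rcases j0 with ⟨a1, a2⟩ | ⟨a1, a2⟩ <;> rw [a1, a2] <;> simp
  have hone : ∀ e ∈ K.E, K.J e x y → e = e0 := by
    intro e he hj
    by_contra hne
    apply absurd hcon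
    push Not
    apply block_cycle P hK hD hSV hcl _ ⟨x, by simp⟩
    · rw [hS2]
      have h1 : ({e0, e} : Finset ℕ) ⊆ (K.ind {x, y}).E := by
        intro z hz
        simp only [mem_insert, mem_singleton] at hz
        rw [ind_E, mem_filter]
        rcases hz with rfl | rfl
        · refine ⟨he0, ?_⟩
          rcases j0 with ⟨a1, a2⟩ | ⟨a1, a2⟩ <;> rw [a1, a2] <;> simp
        · refine ⟨he, ?_⟩
          rcases hj with ⟨a1, a2⟩ | ⟨a1, a2⟩ <;> rw [a1, a2] <;> simp
      have := card_le_card h1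
      rwa [card_pair (Ne.symm hne)] at this
    · rw [hS2]
      have := card_pos.2 ⟨e0, he0in⟩
      omega
  obtain ⟨f1, f2, hf12, hf⟩ : ∃ f1 f2, f1 ≠ f2 ∧ (K.star x).erase e0 = {f1, f2} := by
    apply card_eq_two.1
    rw [card_erase_of_mem he0s, hstar]
  have m1 : f1 ∈ K.star x ∧ f1 ≠ e0 := by
    have : f1 ∈ (K.star x).erase e0 := by rw [hf]; simp
    rw [mem_erase] at this
    exact ⟨this.2, this.1⟩
  have m2 : f2 ∈ K.star x ∧ f2 ≠ e0 := by
    have : f2 ∈ (K.star x).erase e0 := by rw [hf]; simp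
    rw [mem_erase] at this
    exact ⟨this.2, this.1⟩
  have j1 := J_star hl m1.1
  have j2 := J_star hl m2.1
  have E1 := K.star_subset x m1.1
  have E2 := K.star_subset x m2.1
  have a1 : K.oth f1 x ≠ x := oth_ne hl E1
  have a2 : K.oth f2 x ≠ x := oth_ne hl E2
  have b1 : K.oth f1 x ≠ y := fun hh => m1.2 (hone f1 E1 (hh ▸ j1))
  have b2 : K.oth f2 x ≠ y := fun hh => m2.2 (hone f2 E2 (hh ▸ j2))
  refine ⟨K.oth f1 x, K.oth f2 x, oth_mem E1, oth_mem E2, a1, b1, a2, b2, ?_, ?_⟩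
  · intro hh
    have h1 := (nb_large P hK hD hl hc he0 j0 hev hcon (oth_mem (v := x) E1) a1 b1).1
    have h2 := card_nb_lt hl E1 E2 hf12 (j1.symm) (by rw [hh]; exact j2.symm)
    rw [h1, ← K.deg_eq_card_star hl, hc _ (oth_mem E1)] at h2
    omega
  · have h3 : K.star x = {e0, f1, f2} := by
      rw [← insert_erase he0s, hf]
    unfold nb
    rw [h3]
    simp only [image_insert, image_singleton, j0.oth hl he0]

theorem case_c {h g : ℕ} (P : Par2 h g) (hK : K.Cyc h) (hD : ∀ X ⊆ K.V, 3 ≤ K.D X)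
    (hl : K.NoLoops) (hc : K.Cubic) (hV8 : #K.V = 8) (hn : #K.ev = 1) : 2 * g + h ≤ K.W := by
  classical
  by_contra hcon
  push Not at hcon
  obtain ⟨e0, hev0⟩ := card_eq_one.1 hn
  have he0 : e0 ∈ K.E := by
    have : e0 ∈ K.ev := by rw [hev0]; simp
    exact (mem_filter.1 this).1
  have hev : ∀ e ∈ K.E, Even (K.w e) ↔ e = e0 := by
    intro e he
    have : e ∈ K.ev ↔ e = e0 := by rw [hev0, mem_singleton]
    rw [← this]
    unfold ev
    rw [mem_filter]
    exact ⟨fun h => ⟨he, h⟩, fun h => h.2⟩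
  obtain ⟨x, y, j0⟩ : ∃ x y, K.J e0 x y := ⟨_, _, Or.inl ⟨rfl, rfl⟩⟩
  obtain ⟨a, b, aV, bV, hax, hay, hbx, hby, hab, nbx⟩ :=
    x_nbs P hK hD hl hc he0 j0 hev hcon
  obtain ⟨c, d, cV, dV, hcy, hcx, hdy, hdx, hcd, nby⟩ :=
    x_nbs P hK hD hl hc he0 j0.symm hev hcon
  have hxV : x ∈ K.V := by
    have h1 := K.hs e0 he0
    have h2 := K.ht e0 he0
    rcases j0 with ⟨a1, a2⟩ | ⟨a1, a2⟩
    · rw [a1] at h1; exact h1
    · rw [a2] at h2; exact h2
  have hyV : y ∈ K.V := by
    have h1 := K.hs e0 he0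
    have h2 := K.ht e0 he0
    rcases j0 with ⟨a1, a2⟩ | ⟨a1, a2⟩
    · rw [a2] at h2; exact h2
    · rw [a1] at h1; exact h1
  have hxy : x ≠ y := by
    have h1 := hl e0 he0
    rcases j0 with ⟨a1, a2⟩ | ⟨a1, a2⟩
    · rw [a1, a2] at h1; exact h1
    · rw [a1, a2] at h1; exact h1.symm
  have big := fun {u : ℕ} (hu : u ∈ K.V) (h1 : u ≠ x) (h2 : u ≠ y) =>
    nb_large P hK hD hl hc he0 j0 hev hcon hu h1 h2
  have xa : x ∈ K.nb a := (nb_symm hl).1 (by rw [nbx]; simp)
  have xb : x ∈ K.nb b := (nb_symm hl).1 (by rw [nbx]; simp)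
  have yc : y ∈ K.nb c := (nb_symm hl).1 (by rw [nby]; simp)
  have yd : y ∈ K.nb d := (nb_symm hl).1 (by rw [nby]; simp)
  have ya : y ∉ K.nb a := fun h => (big aV hax hay).2 ⟨xa, h⟩
  have yb : y ∉ K.nb b := fun h => (big bV hbx hby).2 ⟨xb, h⟩
  have xc : x ∉ K.nb c := fun h => (big cV hcx hcy).2 ⟨h, yc⟩
  have xd : x ∉ K.nb d := fun h => (big dV hdx hdy).2 ⟨h, yd⟩
  have hac : a ≠ c := fun h => ya (h ▸ yc)
  have had : a ≠ d := fun h => ya (h ▸ yd)
  have hbc : b ≠ c := fun h => yb (h ▸ yc)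
  have hbd : b ≠ d := fun h => yb (h ▸ yd)
  -- the two remaining vertices
  obtain ⟨p, q, hpq, hrem⟩ : ∃ p q, p ≠ q ∧ K.V \ {x, y, a, b, c, d} = {p, q} := by
    apply card_eq_two.1
    have h6 : #({x, y, a, b, c, d} : Finset ℕ) = 6 := by
      rw [card_insert_of_notMem, card_insert_of_notMem, card_insert_of_notMem,
        card_insert_of_notMem, card_insert_of_notMem, card_singleton]
      all_goals simp only [mem_insert, mem_singleton, not_or]
      all_goals tauto
    rw [card_sdiff_of_subset, hV8, h6]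
    intro z hz
    simp only [mem_insert, mem_singleton] at hz
    rcases hz with rfl | rfl | rfl | rfl | rfl | rfl <;> assumption
  have hp : p ∈ K.V ∧ p ≠ x ∧ p ≠ y ∧ p ≠ a ∧ p ≠ b ∧ p ≠ c ∧ p ≠ d := by
    have : p ∈ K.V \ {x, y, a, b, c, d} := by rw [hrem]; simp
    simpa using this
  have hq : q ∈ K.V ∧ q ≠ x ∧ q ≠ y ∧ q ≠ a ∧ q ≠ b ∧ q ≠ c ∧ q ≠ d := by
    have : q ∈ K.V \ {x, y, a, b, c, d} := by rw [hrem]; simp
    simpa using this
  obtain ⟨pV, hpx, hpy, hpa, hpb, hpc, hpd⟩ := hp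
  obtain ⟨qV, hqx, hqy, hqa, hqb, hqc, hqd⟩ := hq
  have hVeq : K.V = {x, y, a, b, c, d, p, q} := by
    ext z
    constructor
    · intro hz
      by_cases h : z ∈ ({x, y, a, b, c, d} : Finset ℕ)
      · simp only [mem_insert, mem_singleton] at h ⊢; tauto
      · have : z ∈ K.V \ {x, y, a, b, c, d} := mem_sdiff.2 ⟨hz, h⟩
        rw [hrem] at this
        simp only [mem_insert, mem_singleton] at this ⊢; tauto
    · intro hz
      simp only [mem_insert, mem_singleton] at hz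
      rcases hz with rfl | rfl | rfl | rfl | rfl | rfl | rfl | rfl <;> assumption
  have xp : x ∉ K.nb p := by
    rw [← nb_symm hl, nbx]; simp [hpy, hpa, hpb]
  have xq : x ∉ K.nb q := by
    rw [← nb_symm hl, nbx]; simp [hqy, hqa, hqb]
  have yp : y ∉ K.nb p := by
    rw [← nb_symm hl, nby]; simp [hpx, hpc, hpd]
  have yq : y ∉ K.nb q := by
    rw [← nb_symm hl, nby]; simp [hqx, hqc, hqd]
  -- indicator function
  set M : ℕ → ℕ → ℕ := fun u v => if v ∈ K.nb u then 1 else 0 with hM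
  have M01 : ∀ u v, M u v ≤ 1 := by intro u v; simp only [hM]; split_ifs <;> omega
  have Msym : ∀ u v, M u v = M v u := by
    intro u v; simp only [hM]
    by_cases h : v ∈ K.nb u
    · rw [if_pos h, if_pos ((nb_symm hl).1 h)]
    · rw [if_neg h, if_neg (fun h2 => h ((nb_symm hl).1 h2))]
  have Mself : ∀ u, M u u = 0 := by
    intro u; simp only [hM]; rw [if_neg (not_mem_nb_self hl)]
  have Mrow : ∀ u, #(K.nb u) = M u x + M u y + M u a + M u b + M u c + M u d + M u p + M u q := by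
    intro u
    have h1 : #(K.nb u) = ∑ v ∈ K.V, M u v := by
      simp only [hM]
      rw [← card_filter]
      congr 1
      ext z
      rw [mem_filter]
      exact ⟨fun h => ⟨nb_subset h, h⟩, fun h => h.2⟩
    rw [h1, hVeq, sum_insert, sum_insert, sum_insert, sum_insert, sum_insert, sum_insert,
      sum_insert, sum_singleton]
    · ring
    all_goals simp only [mem_insert, mem_singleton, not_or]
    all_goals tauto
  have one : ∀ {u v}, v ∈ K.nb u → M u v = 1 := by
    intro u v h; simp only [hM]; rw [if_pos h]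
  have zero : ∀ {u v}, v ∉ K.nb u → M u v = 0 := by
    intro u v h; simp only [hM]; rw [if_neg h]
  have ofone : ∀ {u v}, M u v = 1 → v ∈ K.nb u := by
    intro u v h; simp only [hM] at h
    by_contra h2
    rw [if_neg h2] at h
    omega
  have ra := Mrow a
  have rb := Mrow b
  have rc := Mrow c
  have rd := Mrow d
  have rp := Mrow p
  have rq := Mrow q
  rw [(big aV hax hay).1, one xa, zero ya, Mself a] at ra
  rw [(big bV hbx hby).1, one xb, zero yb, Mself b, Msym b a] at rb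
  rw [(big cV hcx hcy).1, zero xc, one yc, Mself c, Msym c a, Msym c b] at rc
  rw [(big dV hdx hdy).1, zero xd, one yd, Mself d, Msym d a, Msym d b, Msym d c] at rd
  rw [(big pV hpx hpy).1, zero xp, zero yp, Mself p, Msym p a, Msym p b, Msym p c, Msym p d] at rp
  rw [(big qV hqx hqy).1, zero xq, zero yq, Mself q, Msym q a, Msym q b, Msym q c, Msym q d,
    Msym q p] at rq
  -- independent triples
  have hclosed : ∀ S : Finset ℕ, x ∉ S → y ∉ S → K.Closed S := by
    intro S h1 h2 e he hw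
    rw [(hev e he).1 hw]
    rcases j0 with ⟨a1, a2⟩ | ⟨a1, a2⟩
    · rw [a1, a2]; exact ⟨fun h => absurd h h1, fun h => absurd h h2⟩
    · rw [a1, a2]; exact ⟨fun h => absurd h h2, fun h => absurd h h1⟩
  have hnn : (#K.V : ℤ) - #K.ev = 7 := by rw [hV8, hn]; norm_num
  have trip : ∀ u v w, u ∈ K.V → v ∈ K.V → w ∈ K.V → u ≠ v → u ≠ w → v ≠ w →
      x ≠ u → x ≠ v → x ≠ w → y ≠ u → y ≠ v → y ≠ w → 1 ≤ M u v + M u w + M v w := by
    intro u v w uV vV wV huv huw hvw h1 h2 h3 h4 h5 h6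
    by_contra hlt
    push Not at hlt
    have n1 : v ∉ K.nb u := fun h => by have := one h; omega
    have n2 : w ∉ K.nb u := fun h => by have := one h; omega
    have n3 : w ∉ K.nb v := fun h => by have := one h; omega
    have hcl := hclosed {u, v, w} (by simp [h1, h2, h3]) (by simp [h4, h5, h6])
    have hD3 := hD {u, v, w} (by
      intro z hz
      simp only [mem_insert, mem_singleton] at hz
      rcases hz with rfl | rfl | rfl <;> assumption)
    rw [D_closed hcl] at hD3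
    have hc3 : #({u, v, w} : Finset ℕ) = 3 := by
      rw [card_insert_of_notMem (by simp [huv, huw]), card_pair hvw]
    have hE0 : (K.ind {u, v, w}).E = ∅ := by
      rw [eq_empty_iff_forall_notMem]
      intro e he
      simp only [ind_E, mem_filter, mem_insert, mem_singleton] at he
      obtain ⟨he, h1, h2⟩ := he
      have key : ∀ r s, K.s e = r → K.t e = s → r ≠ s ∧ s ∈ K.nb r ∧ r ∈ K.nb s := by
        intro r s h7 h8
        refine ⟨fun h => hl e he (h7.trans (h.trans h8.symm)), ?_, ?_⟩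
        · exact (mem_nb' hl).2 ⟨e, he, Or.inl ⟨h7, h8⟩⟩
        · exact (mem_nb' hl).2 ⟨e, he, Or.inr ⟨h7, h8⟩⟩
      rcases h1 with h1 | h1 | h1 <;> rcases h2 with h2 | h2 | h2 <;>
        have := key _ _ h1 h2 <;> tauto
    rw [hc3, hE0, card_empty] at hD3
    push_cast at hD3
    linarith
  -- p adjacent to q
  have hpq1 : q ∈ K.nb p := by
    by_contra hno
    have hcl : K.Closed {x, y, p, q} := by
      intro e he hw
      rw [(hev e he).1 hw]
      rcases j0 with ⟨a1, a2⟩ | ⟨a1, a2⟩ <;> rw [a1, a2] <;> simp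
    have hD4 := hD {x, y, p, q} (by
      intro z hz
      simp only [mem_insert, mem_singleton] at hz
      rcases hz with rfl | rfl | rfl | rfl <;> assumption)
    rw [D_closed hcl] at hD4
    have hc4 : #({x, y, p, q} : Finset ℕ) = 4 := by
      rw [card_insert_of_notMem (by simp [hxy, hpx.symm, hqx.symm]),
        card_insert_of_notMem (by simp [hpy.symm, hqy.symm]), card_pair hpq]
    have hE1 : (K.ind {x, y, p, q}).E ⊆ {e0} := by
      intro e he
      rw [mem_singleton]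
      by_contra hne
      simp only [ind_E, mem_filter, mem_insert, mem_singleton] at he
      obtain ⟨he, h1, h2⟩ := he
      have key : ∀ r s, K.s e = r → K.t e = s → r ≠ s ∧ s ∈ K.nb r ∧ r ∈ K.nb s := by
        intro r s h7 h8
        refine ⟨fun h => hl e he (h7.trans (h.trans h8.symm)), ?_, ?_⟩
        · exact (mem_nb' hl).2 ⟨e, he, Or.inl ⟨h7, h8⟩⟩
        · exact (mem_nb' hl).2 ⟨e, he, Or.inr ⟨h7, h8⟩⟩
      have hxyE : ∀ k ∈ K.E, K.J k x y → k = e0 := by
        intro k hk hj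
        by_contra hne'
        have h9 := card_nb_lt hl hk he0 hne' hj j0
        rw [nbx, ← K.deg_eq_card_star hl, hc x hxV, card_insert_of_notMem
          (by simp [hay.symm, hby.symm]), card_pair hab] at h9
        omega
      rcases h1 with h1 | h1 | h1 | h1 <;> rcases h2 with h2 | h2 | h2 | h2 <;>
        have h3 := key _ _ h1 h2
      · exact h3.1 rfl
      · exact hne (hxyE e he (Or.inl ⟨h1, h2⟩))
      · exact xp h3.2.2
      · exact xq h3.2.2
      · exact hne (hxyE e he (Or.inr ⟨h1, h2⟩))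
      · exact h3.1 rfl
      · exact yp h3.2.2
      · exact yq h3.2.2
      · exact xp h3.2.1
      · exact yp h3.2.1
      · exact h3.1 rfl
      · exact hno h3.2.1
      · exact xq h3.2.1
      · exact yq h3.2.1
      · exact hno h3.2.2
      · exact h3.1 rfl
    have h5 := card_le_card hE1
    rw [card_singleton] at h5
    rw [hc4] at hD4
    have h6 : (#(K.ind {x, y, p, q}).E : ℤ) ≤ 1 := by exact_mod_cast h5
    push_cast at hD4
    linarith
  have mpq := one hpq1
  rw [mpq] at rp rq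
  have tabp := trip a b p aV bV pV hab hpa.symm hpb.symm hax.symm hbx.symm hpx.symm hay.symm
    hby.symm hpy.symm
  have tabq := trip a b q aV bV qV hab hqa.symm hqb.symm hax.symm hbx.symm hqx.symm hay.symm
    hby.symm hqy.symm
  have tacp := trip a c p aV cV pV hac hpa.symm hpc.symm hax.symm hcx.symm hpx.symm hay.symm
    hcy.symm hpy.symm
  have tacq := trip a c q aV cV qV hac hqa.symm hqc.symm hax.symm hcx.symm hqx.symm hay.symm
    hcy.symm hqy.symm
  have tadp := trip a d p aV dV pV had hpa.symm hpd.symm hax.symm hdx.symm hpx.symm hay.symm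
    hdy.symm hpy.symm
  have tadq := trip a d q aV dV qV had hqa.symm hqd.symm hax.symm hdx.symm hqx.symm hay.symm
    hdy.symm hqy.symm
  have tbcp := trip b c p bV cV pV hbc hpb.symm hpc.symm hbx.symm hcx.symm hpx.symm hby.symm
    hcy.symm hpy.symm
  have tbcq := trip b c q bV cV qV hbc hqb.symm hqc.symm hbx.symm hcx.symm hqx.symm hby.symm
    hcy.symm hqy.symm
  have tbdp := trip b d p bV dV pV hbd hpb.symm hpd.symm hbx.symm hdx.symm hpx.symm hby.symm
    hdy.symm hpy.symm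
  have tbdq := trip b d q bV dV qV hbd hqb.symm hqd.symm hbx.symm hdx.symm hqx.symm hby.symm
    hdy.symm hqy.symm
  have tcdp := trip c d p cV dV pV hcd hpc.symm hpd.symm hcx.symm hdx.symm hpx.symm hcy.symm
    hdy.symm hpy.symm
  have tcdq := trip c d q cV dV qV hcd hqc.symm hqd.symm hcx.symm hdx.symm hqx.symm hcy.symm
    hdy.symm hqy.symm
  have tabc := trip a b c aV bV cV hab hac hbc hax.symm hbx.symm hcx.symm hay.symm
    hby.symm hcy.symm
  have tabd := trip a b d aV bV dV hab had hbd hax.symm hbx.symm hdx.symm hay.symm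
    hby.symm hdy.symm
  have tacd := trip a c d aV cV dV hac had hcd hax.symm hcx.symm hdx.symm hay.symm
    hcy.symm hdy.symm
  have tbcd := trip b c d bV cV dV hbc hbd hcd hbx.symm hcx.symm hdx.symm hby.symm
    hcy.symm hdy.symm
  have bab := M01 a b
  have bac := M01 a c
  have bad := M01 a d
  have bbc := M01 b c
  have bbd := M01 b d
  have bcd := M01 c d
  have bap := M01 a p
  have bbp := M01 b p
  have bcp := M01 c p
  have bdp := M01 d p
  have baq := M01 a q
  have bbq := M01 b q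
  have bcq := M01 c q
  have bdq := M01 d q
  have main : (M a p = 1 ∧ M b p = 1 ∧ M a b = 1 ∧ M c q = 1 ∧ M d q = 1 ∧ M c d = 1) ∨
      (M c p = 1 ∧ M d p = 1 ∧ M c d = 1 ∧ M a q = 1 ∧ M b q = 1 ∧ M a b = 1) ∨
      (M a p = 1 ∧ M c p = 1 ∧ M a c = 1 ∧ M b q = 1 ∧ M d q = 1 ∧ M b d = 1) ∨
      (M b p = 1 ∧ M d p = 1 ∧ M b d = 1 ∧ M a q = 1 ∧ M c q = 1 ∧ M a c = 1) ∨
      (M a p = 1 ∧ M d p = 1 ∧ M a d = 1 ∧ M b q = 1 ∧ M c q = 1 ∧ M b c = 1) ∨
      (M b p = 1 ∧ M c p = 1 ∧ M b c = 1 ∧ M a q = 1 ∧ M d q = 1 ∧ M a d = 1) :=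
    comb (M a b) (M a c) (M a d) (M b c) (M b d) (M c d) (M a p) (M b p) (M c p) (M d p)
      (M a q) (M b q) (M c q) (M d q) (by omega) (by omega) (by omega) (by omega) (by omega)
      (by omega) bab bac bad bbc bbd bcd bap bbp bcp bdp baq bbq bcq bdq
      tabp tabq tacp tacq tadp tadq tbcp tbcq tbdp tbdq tcdp tcdq tabc tabd tacd tbcd
  have pk : ∀ {u v}, M u v = 1 → ∃ e ∈ K.E, K.J e u v := fun h => (mem_nb' hl).1 (ofone h)
  have pk' : ∀ {u v}, v ∈ K.nb u → ∃ e ∈ K.E, K.J e u v := fun h => (mem_nb' hl).1 h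
  obtain ⟨exa, E1, j1⟩ := pk' (u := x) (v := a) (by rw [nbx]; simp)
  obtain ⟨exb, E2, j2⟩ := pk' (u := x) (v := b) (by rw [nbx]; simp)
  obtain ⟨eyc, E3, j3⟩ := pk' (u := y) (v := c) (by rw [nby]; simp)
  obtain ⟨eyd, E4, j4⟩ := pk' (u := y) (v := d) (by rw [nby]; simp)
  obtain ⟨epq, E11, j11⟩ := pk' hpq1
  have hgh := P.hg
  have hlab : ∀ a b c d p q : ℕ, [x, y, a, b, c, d, p, q].Nodup →
      ∃ lab : ℕ → ℕ, lab x = 0 ∧ lab y = 1 ∧ lab a = 2 ∧ lab b = 3 ∧ lab c = 4 ∧ lab d = 5 ∧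
      lab p = 6 ∧ lab q = 7 := by
    intro a b c d p q hnd
    refine ⟨fun z => [x, y, a, b, c, d, p, q].idxOf z, ?_⟩
    have key : ∀ i, (hi : i < [x, y, a, b, c, d, p, q].length) →
        [x, y, a, b, c, d, p, q].idxOf ([x, y, a, b, c, d, p, q][i]) = i := by
      intro i hi
      exact hnd.idxOf_getElem i hi
    exact ⟨key 0 (by simp), key 1 (by simp), key 2 (by simp), key 3 (by simp), key 4 (by simp),
      key 5 (by simp), key 6 (by simp), key 7 (by simp)⟩
  have nd1 : [x, y, a, b, c, d, p, q].Nodup := by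
    simp [hxy, hax, hay, hbx, hby, hcx, hcy, hdx, hdy, hpx, hpy, hqx, hqy, hab, hac, had, hpa,
      hqa, hbc, hbd, hpb, hqb, hcd, hpc, hqc, hpd, hqd, hpq, hxy.symm, hax.symm, hay.symm,
      hbx.symm, hby.symm, hcx.symm, hcy.symm, hdx.symm, hdy.symm, hpx.symm, hpy.symm,
      hqx.symm, hqy.symm, hab.symm, hac.symm, had.symm, hpa.symm, hqa.symm, hbc.symm,
      hbd.symm, hpb.symm, hqb.symm, hcd.symm, hpc.symm, hqc.symm, hpd.symm, hqd.symm,
      hpq.symm]
  have nd2 : [x, y, a, b, c, d, q, p].Nodup := by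
    simp [hxy, hax, hay, hbx, hby, hcx, hcy, hdx, hdy, hpx, hpy, hqx, hqy, hab, hac, had, hpa,
      hqa, hbc, hbd, hpb, hqb, hcd, hpc, hqc, hpd, hqd, hpq, hxy.symm, hax.symm, hay.symm,
      hbx.symm, hby.symm, hcx.symm, hcy.symm, hdx.symm, hdy.symm, hpx.symm, hpy.symm,
      hqx.symm, hqy.symm, hab.symm, hac.symm, had.symm, hpa.symm, hqa.symm, hbc.symm,
      hbd.symm, hpb.symm, hqb.symm, hcd.symm, hpc.symm, hqc.symm, hpd.symm, hqd.symm,
      hpq.symm]
  have nd3 : [x, y, a, b, d, c, p, q].Nodup := by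
    simp [hxy, hax, hay, hbx, hby, hcx, hcy, hdx, hdy, hpx, hpy, hqx, hqy, hab, hac, had, hpa,
      hqa, hbc, hbd, hpb, hqb, hcd, hpc, hqc, hpd, hqd, hpq, hxy.symm, hax.symm, hay.symm,
      hbx.symm, hby.symm, hcx.symm, hcy.symm, hdx.symm, hdy.symm, hpx.symm, hpy.symm,
      hqx.symm, hqy.symm, hab.symm, hac.symm, had.symm, hpa.symm, hqa.symm, hbc.symm,
      hbd.symm, hpb.symm, hqb.symm, hcd.symm, hpc.symm, hqc.symm, hpd.symm, hqd.symm,
      hpq.symm]
  have nd4 : [x, y, a, b, d, c, q, p].Nodup := by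
    simp [hxy, hax, hay, hbx, hby, hcx, hcy, hdx, hdy, hpx, hpy, hqx, hqy, hab, hac, had, hpa,
      hqa, hbc, hbd, hpb, hqb, hcd, hpc, hqc, hpd, hqd, hpq, hxy.symm, hax.symm, hay.symm,
      hbx.symm, hby.symm, hcx.symm, hcy.symm, hdx.symm, hdy.symm, hpx.symm, hpy.symm,
      hqx.symm, hqy.symm, hab.symm, hac.symm, had.symm, hpa.symm, hqa.symm, hbc.symm,
      hbd.symm, hpb.symm, hqb.symm, hcd.symm, hpc.symm, hqc.symm, hpd.symm, hqd.symm,
      hpq.symm]
  rcases main with h | h | h | h | h | h <;> obtain ⟨h5, h6, h7, h8, h9, h10⟩ := h <;>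
    obtain ⟨k5, E5, j5⟩ := pk h5 <;> obtain ⟨k6, E6, j6⟩ := pk h6 <;>
    obtain ⟨k7, E7, j7⟩ := pk h7 <;> obtain ⟨k8, E8, j8⟩ := pk h8 <;>
    obtain ⟨k9, E9, j9⟩ := pk h9 <;> obtain ⟨k10, E10, j10⟩ := pk h10
  · -- P = {a,b}
    have := typeA P hK (hlab a b c d p q nd1)
      (by simp [he0, E1, E2, E3, E4, E5, E6, E7, E8, E9, E10, E11])
      j0 j1 j2 j3 j4 j5.symm j6.symm j7 j8.symm j9.symm j10 j11 hev
    exact absurd (this.trans_lt hcon) (by clear * - hgh; omega)
  · have := typeA P hK (hlab a b c d q p nd2)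
      (by simp [he0, E1, E2, E3, E4, E5, E6, E7, E8, E9, E10, E11])
      j0 j1 j2 j3 j4 j8.symm j9.symm j10 j5.symm j6.symm j7 j11.symm hev
    exact absurd (this.trans_lt hcon) (by clear * - hgh; omega)
  · -- P = {a,c}
    have := typeB P hK (hlab a b c d p q nd1)
      (by simp [he0, E1, E2, E3, E4, E5, E6, E7, E8, E9, E10, E11])
      j0 j1 j2 j3 j4 j5.symm j6.symm j7 j8.symm j9.symm j10 j11 hev
    exact absurd (this.trans_lt hcon) (by clear * - hgh; omega)
  · have := typeB P hK (hlab a b c d q p nd2)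
      (by simp [he0, E1, E2, E3, E4, E5, E6, E7, E8, E9, E10, E11])
      j0 j1 j2 j3 j4 j8.symm j9.symm j10 j5.symm j6.symm j7 j11.symm hev
    exact absurd (this.trans_lt hcon) (by clear * - hgh; omega)
  · -- P = {a,d}
    have := typeB P hK (hlab a b d c p q nd3)
      (by simp [he0, E1, E2, E3, E4, E5, E6, E7, E8, E9, E10, E11])
      j0 j1 j2 j4 j3 j5.symm j6.symm j7 j8.symm j9.symm j10 j11 hev
    exact absurd (this.trans_lt hcon) (by clear * - hgh; omega)
  · have := typeB P hK (hlab a b d c q p nd4)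
      (by simp [he0, E1, E2, E3, E4, E5, E6, E7, E8, E9, E10, E11])
      j0 j1 j2 j4 j3 j8.symm j9.symm j10 j5.symm j6.symm j7 j11.symm hev
    exact absurd (this.trans_lt hcon) (by clear * - hgh; omega)

end MG
end Pool.H82.SC
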