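import Pool.Agent.H82.SC.ThreeD

set_option linter.unusedSimpArgs false
set_option linter.unusedVariables false

namespace Pool.H82.SC

open Finset

namespace MG

variable {K : MG}

/-- an even loop -/
lemma loop_even {h g : ℕ} (P : Par2 h g) (hK : K.Cyc h) (hD : ∀ X ⊆ K.V, 3 ≤ K.D X)
    {e : ℕ} (he : e ∈ K.E) (hst : K.s e = K.t e) : 2 * g + h ≤ K.W := by
  classical
  have hwe : K.wt {e} = K.w e := by simp [wt]
  have hh : h ≤ K.w e := by
    rw [← hwe]; exact hK _ (K.loop_ev he hst) (singleton_nonempty e)
  rcases Nat.even_or_odd (K.w e) with hev | hod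
  · have h1 : 2 * g ≤ (K.sube (K.E.erase e) (erase_subset _ _)).W := by
      apply two_of_D P _ (hK.sube _ _)
      intro X hX
      have h2 := hD X hX
      unfold D at h2 ⊢
      rw [← add_sum_erase _ _ he] at h2
      have h3 : K.phi X e ≤ 1 := by
        unfold phi
        rw [if_pos hev]
        split_ifs <;> norm_num
      have h4 : ∑ f ∈ (K.sube (K.E.erase e) (erase_subset _ _)).E,
          (K.sube (K.E.erase e) (erase_subset _ _)).phi X f = ∑ f ∈ K.E.erase e, K.phi X f := rfl
      rw [h4]
      simp only [sube_V]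
      linarith
    have h2 := K.W_erase he
    omega
  · obtain ⟨S, hSV, hvS, hcl, hSc⟩ := K.grow closed_V (Y := {K.s e})
      (by simpa using K.hs e he)
    rw [card_singleton] at hSc
    have hs : K.s e ∈ S := hvS (by simp)
    apply block_cycle P hK hD hSV hcl hSc ⟨_, hs⟩
    have h1 : insert e (K.evin S) ⊆ (K.ind S).E := by
      apply insert_subset
      · rw [ind_E, mem_filter]
        exact ⟨he, hs, hst ▸ hs⟩
      · intro f hf
        simp only [evin, mem_filter] at hf
        rw [ind_E, mem_filter]
        exact ⟨hf.1, hf.2.2⟩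
    have h2 : e ∉ K.evin S := by
      intro hh
      simp only [evin, mem_filter] at hh
      exact Nat.not_even_iff_odd.2 hod hh.2.1
    have := card_le_card h1
    rw [card_insert_of_notMem h2] at this
    omega

theorem three_of_D {h g : ℕ} (P : Par2 h g) (K : MG) (hK : K.Cyc h)
    (hD : ∀ X ⊆ K.V, 3 ≤ K.D X) (hmin : ∀ v ∈ K.V, 2 ≤ K.deg v) (hE : #K.E ≤ #K.V + 4)
    (hp : Odd (#K.V + #K.ev)) : 2 * g + h ≤ K.W := by
  induction' hn : K.mu using Nat.strong_induction_on with n ih generalizing K
  by_cases hl : K.NoLoops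
  swap
  · unfold NoLoops at hl
    push Not at hl
    obtain ⟨e, he, hst⟩ := hl
    exact loop_even P hK hD he hst
  by_cases h2 : ∃ v ∈ K.V, K.deg v = 2
  · obtain ⟨v, hv, hd⟩ := h2
    obtain ⟨e1, e2, hS⟩ := exists_suppData hl hv hd
    have c1 := supp_cardV hS
    have c2 := supp_cardE hS
    have := ih _ (hn ▸ supp_mu_lt hS) (supp hS) (supp_Cyc hS hK) (supp_D_ge hS hD) (by
      intro u hu
      rw [supp_V, mem_erase] at hu
      rw [supp_deg hS hu.1]
      exact hmin u hu.2) (by omega) (supp_parity hS hp) rfl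
    rwa [supp_W] at this
  by_cases h3 : ∃ v ∈ K.V, 4 ≤ K.deg v
  · obtain ⟨v, hv, hd⟩ := h3
    obtain ⟨e1, e2, v', e0, hS⟩ := exists_splitData hl hv hd
    have c1 := split_cardV hS
    have c2 := split_cardE hS
    have := ih _ (hn ▸ split_mu_lt hS) (split hS) (split_Cyc hS hK) (split_D_ge hS hD) (by
      intro u hu
      by_cases h4 : u = v'
      · subst h4; rw [split_deg_v' hS]; norm_num
      · by_cases h5 : u = v
        · subst h5
          have := split_deg_v hS
          omega
        · rw [split_deg_other hS h5 h4]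
          rw [split_V, mem_insert] at hu
          exact hmin u (hu.resolve_left h4)) (by omega) (split_parity hS hp) rfl
    rwa [split_W] at this
  have hc : K.Cubic := by
    intro v hv
    push Not at h2 h3
    have a1 := hmin v hv
    have a2 := h2 v hv
    have a3 := h3 v hv
    omega
  have hcard := hc.card
  have h0 := hD ∅ (empty_subset _)
  rw [D_empty] at h0
  have h0' : #K.ev + 3 ≤ #K.V := by
    have : (#K.ev : ℤ) + 3 ≤ #K.V := by linarith
    exact_mod_cast this
  rw [Nat.odd_iff] at hp
  have hcase : #K.V = #K.ev + 3 ∨ #K.V = #K.ev + 5 ∨ (#K.V = 8 ∧ #K.ev = 1) := by omega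
  rcases hcase with h4 | h4 | h4
  · exact three_small P hK hD hl hc (by omega) (Or.inl h4)
  · exact three_small P hK hD hl hc (by omega) (Or.inr h4)
  · exact case_c P hK hD hl hc h4.1 h4.2

end MG
end Pool.H82.SC
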