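import Pool.Agent.H82.SC.ThreeE

set_option linter.unusedSimpArgs false
set_option linter.unusedVariables false

namespace Pool.H82.SC

open Finset

namespace MG

variable {K : MG}

/-- even sets avoid a vertex of degree at most one -/
lemma ev_avoid (hl : K.NoLoops) {v : ℕ} (hd : K.deg v ≤ 1) {z : Finset ℕ} (hz : K.Ev z) :
    (K.ind (K.V \ {v})).Ev z := by
  refine ⟨?_, hz.2⟩
  rw [ind_sdiff_singleton_E]
  intro e he
  rw [mem_sdiff]
  refine ⟨hz.1 he, fun hs => ?_⟩
  have hcard : #(K.star v) ≤ 1 := (K.card_star_le v).trans hd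
  have hone : ∀ f ∈ K.star v, f = e := by
    intro f hf
    exact card_le_one.1 hcard f hf e hs
  have hb := hz.2 v
  unfold bd at hb
  rw [← add_sum_erase _ _ he, sum_eq_zero (s := z.erase e), add_zero] at hb
  · rw [inc_self hl (hz.1 he) (mem_filter.1 hs).2] at hb
    exact one_ne_zero hb
  · intro f hf
    obtain ⟨hne, hfz⟩ := mem_erase.1 hf
    by_contra hinc
    apply hne
    apply hone f
    unfold star
    rw [mem_filter]
    refine ⟨hz.1 hfz, ?_⟩
    by_contra hno
    push Not at hno
    apply hinc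
    simp [MG.inc, hno.1, hno.2]

lemma wt_symmDiff_add (K : MG) (a b : Finset ℕ) :
    K.wt (symmDiff a b) + 2 * K.wt (a ∩ b) = K.wt a + K.wt b := by
  have h1 : symmDiff a b = (a \ b) ∪ (b \ a) := rfl
  have h2 : Disjoint (a \ b) (b \ a) := by
    rw [disjoint_left]; intro x hx hy
    simp only [mem_sdiff] at hx hy; exact hx.2 hy.1
  rw [h1, K.wt_union h2]
  have ha : K.wt (a \ b) + K.wt (a ∩ b) = K.wt a := by
    unfold wt
    rw [← sum_union, sdiff_union_inter]
    rw [disjoint_left]; intro x hx hy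
    simp only [mem_sdiff, mem_inter] at hx hy; exact hx.2 hy.2
  have hb : K.wt (b \ a) + K.wt (a ∩ b) = K.wt b := by
    unfold wt
    rw [inter_comm a b, ← sum_union, sdiff_union_inter]
    rw [disjoint_left]; intro x hx hy
    simp only [mem_sdiff, mem_inter] at hx hy; exact hx.2 hy.2
  omega

/-- tight excess two: everything is even -/
theorem tight_two {h : ℕ} (hh : Even h) (hpos : 0 < h) (K : MG) (hK : K.Cyc h)
    (hE : #K.V + 2 ≤ #K.E) (hW : K.W ≤ 2 * h) : ∀ z, K.Ev z → Even (K.wt z) := by
  classical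
  induction' hn : K.mu using Nat.strong_induction_on with n ih generalizing K
  have hV : K.V.Nonempty := V_nonempty_of_card (x := 1) K hE
  by_cases hlt : #K.V + 2 < #K.E
  · have := MB3 h K hK hV hlt
    omega
  have hEq : #K.E = #K.V + 2 := by omega
  by_cases hl : K.NoLoops
  swap
  · unfold NoLoops at hl
    push Not at hl
    obtain ⟨e, he, hst⟩ := hl
    have h1 := MB1 h (K.sube (K.E.erase e) (erase_subset _ _)) (hK.sube _ _) hV (by
      simp only [sube_V, sube_E, card_erase_of_mem he]; omega)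
    have h2 := hK _ (K.loop_ev he hst) (singleton_nonempty e)
    have h3 : K.wt {e} = K.w e := by simp [wt]
    have h4 := K.W_erase he
    omega
  by_cases h1 : ∃ v ∈ K.V, K.deg v ≤ 1
  · obtain ⟨v, hv, hd⟩ := h1
    have hc := K.card_ind_sdiff v
    have hs := K.card_star_le v
    have hVc := cardV_ind hv
    intro z hz
    exact ih _ (hn ▸ K.mu_ind_lt hv) _ (hK.ind _) (by omega) ((K.ind_W_le _).trans hW) rfl z
      (ev_avoid hl hd hz)
  by_cases h2 : ∃ v ∈ K.V, K.deg v = 2
  · obtain ⟨v, hv, hd⟩ := h2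
    obtain ⟨e1, e2, hS⟩ := exists_suppData hl hv hd
    have c1 := supp_cardV hS
    have c2 := supp_cardE hS
    intro z hz
    obtain ⟨z', hz', hw⟩ := supp_down hS hz
    rw [← hw]
    exact ih _ (hn ▸ supp_mu_lt hS) _ (supp_Cyc hS hK) (by omega) (by rw [supp_W]; exact hW)
      rfl z' hz'
  by_cases h3 : ∃ v ∈ K.V, 4 ≤ K.deg v
  · obtain ⟨v, hv, hd⟩ := h3
    obtain ⟨e1, e2, v', e0, hS⟩ := exists_splitData hl hv hd
    have c1 := split_cardV hS
    have c2 := split_cardE hS
    intro z hz
    obtain ⟨z', hz', hw⟩ := split_down hS hz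
    rw [← hw]
    exact ih _ (hn ▸ split_mu_lt hS) _ (split_Cyc hS hK) (by omega) (by rw [split_W]; exact hW)
      rfl z' hz'
  have hc : K.Cubic := by
    intro v hv
    push Not at h1 h2 h3
    have a1 := h1 v hv
    have a2 := h2 v hv
    have a3 := h3 v hv
    omega
  have hcard := hc.card
  have hV4 : #K.V = 4 := by omega
  have hsumW := K.sum_W_ind hl
  have hone : ∀ v ∈ K.V, h ≤ (K.ind (K.V \ {v})).W := by
    intro v hv
    have hstar : #(K.star v) = 3 := by rw [← K.deg_eq_card_star hl, hc v hv]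
    have hcd := K.card_ind_sdiff v
    have hVc := cardV_ind hv
    have := MB0 h _ (hK.ind (K.V \ {v})) (card_pos.1 (by omega)) (by omega)
    omega
  have hsum := sum_le_sum hone
  rw [sum_const, smul_eq_mul, hV4] at hsum
  rw [hV4] at hsumW
  have hWeq : K.W = 2 * h := by omega
  -- each vertex-deleted weight is exactly h
  have heq : ∀ v ∈ K.V, (K.ind (K.V \ {v})).W = h := by
    intro v hv
    apply le_antisymm _ (hone v hv)
    by_contra hgt
    push Not at hgt
    have : ∑ v ∈ K.V, h < ∑ v ∈ K.V, (K.ind (K.V \ {v})).W :=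
      sum_lt_sum hone ⟨v, hv, hgt⟩
    rw [sum_const, smul_eq_mul, hV4] at this
    omega
  intro z hz
  by_cases hze : z = ∅
  · subst hze; simp [wt]
  by_cases hcase : K.wt z = h
  · rw [hcase]; exact hh
  have key : ∀ v ∈ K.V, K.wt z ≤ 2 * K.wt (z ∩ K.star v) := by
    intro v hv
    have hstar : #(K.star v) = 3 := by rw [← K.deg_eq_card_star hl, hc v hv]
    have hcd := K.card_ind_sdiff v
    have hVc := cardV_ind hv
    obtain ⟨y, hy, hyne⟩ := (K.ind (K.V \ {v})).exists_even (card_pos.1 (by omega)) (by omega)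
    have hyK : K.Ev y := K.ind_ev hy
    have hwy : h ≤ K.wt y := hK y hyK hyne
    have hyE : y ⊆ K.E \ K.star v := by
      have := hy.1
      rwa [ind_sdiff_singleton_E] at this
    have hWv : K.wt (K.E \ K.star v) = h := by
      have := heq v hv
      unfold W at this
      rw [ind_sdiff_singleton_E] at this
      exact this
    -- z ∩ y versus z \ star
    have h5 : K.wt (z \ K.star v) ≤ K.wt (z ∩ y) := by
      have a1 : K.wt ((K.E \ K.star v) \ y) = 0 := by
        have : K.wt ((K.E \ K.star v) \ y) + K.wt y = K.wt (K.E \ K.star v) := sum_sdiff hyE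
        omega
      have a2 : z \ K.star v ⊆ (z ∩ y) ∪ ((K.E \ K.star v) \ y) := by
        intro e he
        rw [mem_sdiff] at he
        rw [mem_union, mem_inter, mem_sdiff, mem_sdiff]
        by_cases hey : e ∈ y
        · exact Or.inl ⟨he.1, hey⟩
        · exact Or.inr ⟨⟨hz.1 he.1, he.2⟩, hey⟩
      have a3 : K.wt ((z ∩ y) ∪ ((K.E \ K.star v) \ y)) ≤
          K.wt (z ∩ y) + K.wt ((K.E \ K.star v) \ y) := by
        have : Disjoint (z ∩ y) ((K.E \ K.star v) \ y) := by
          rw [disjoint_left]; intro x hx hx2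
          simp only [mem_sdiff, mem_inter] at hx hx2; exact hx2.2 hx.2
        rw [K.wt_union this]
      have := K.wt_mono a2
      omega
    have h6 : K.wt z = K.wt (z \ K.star v) + K.wt (z ∩ K.star v) := by
      unfold wt
      rw [← sum_union, sdiff_union_inter]
      rw [disjoint_left]; intro x hx hx2
      simp only [mem_sdiff, mem_inter] at hx hx2; exact hx.2 hx2.2
    have hsd : K.Ev (symmDiff z y) := hz.symmDiff hyK
    have hadd := K.wt_symmDiff_add z y
    have hyle : K.wt y ≤ K.wt (K.E \ K.star v) := K.wt_mono hyE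
    by_cases hne : symmDiff z y = ∅
    · have : z = y := symmDiff_eq_bot.1 hne
      exfalso
      apply hcase
      rw [this]
      omega
    · have h7 := hK _ hsd (nonempty_iff_ne_empty.2 hne)
      omega
  have hst := K.sum_wt_star hl z hz.1
  have hle := sum_le_sum key
  rw [sum_const, smul_eq_mul, hV4, ← mul_sum, hst] at hle
  -- equality everywhere
  obtain ⟨v, hv⟩ := hV
  have heqv : K.wt z = 2 * K.wt (z ∩ K.star v) := by
    apply le_antisymm (key v hv)
    by_contra hgt
    push Not at hgt
    have : ∑ v ∈ K.V, K.wt z < ∑ v ∈ K.V, 2 * K.wt (z ∩ K.star v) :=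
      sum_lt_sum key ⟨v, hv, hgt⟩
    rw [sum_const, smul_eq_mul, hV4, ← mul_sum, hst] at this
    omega
  rw [heqv]
  exact even_two_mul _

theorem tight_five {h g : ℕ} (P : Par2 h g) (hh : Even h) (K : MG) (hK : K.Cyc h)
    (hD : ∀ X ⊆ K.V, 3 ≤ K.D X) (hmin : ∀ v ∈ K.V, 2 ≤ K.deg v) (hE : #K.V + 5 ≤ #K.E) :
    3 * h + 1 ≤ K.W := by
  classical
  have h5 := P.h5
  have hgh := P.hg
  induction' hn : K.mu using Nat.strong_induction_on with n ih generalizing K
  have hV : K.V.Nonempty := V_nonempty_of_card (x := 4) K hE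
  by_cases hlt : #K.V + 5 < #K.E
  · have := MB6 h K hK hV hlt
    omega
  have hEq : #K.E = #K.V + 5 := by omega
  by_cases hl : K.NoLoops
  swap
  · unfold NoLoops at hl
    push Not at hl
    obtain ⟨e, he, hst⟩ := hl
    have h1 := MB4 h (K.sube (K.E.erase e) (erase_subset _ _)) (hK.sube _ _) hV (by
      simp only [sube_V, sube_E, card_erase_of_mem he]; omega)
    have h2 := hK _ (K.loop_ev he hst) (singleton_nonempty e)
    have h3 : K.wt {e} = K.w e := by simp [wt]
    have h4 := K.W_erase he
    omega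
  by_cases h2 : ∃ v ∈ K.V, K.deg v = 2
  · obtain ⟨v, hv, hd⟩ := h2
    obtain ⟨e1, e2, hS⟩ := exists_suppData hl hv hd
    have c1 := supp_cardV hS
    have c2 := supp_cardE hS
    have := ih _ (hn ▸ supp_mu_lt hS) (supp hS) (supp_Cyc hS hK) (supp_D_ge hS hD) (by
      intro u hu
      rw [supp_V, mem_erase] at hu
      rw [supp_deg hS hu.1]
      exact hmin u hu.2) (by omega) rfl
    rwa [supp_W] at this
  by_cases h3 : ∃ v ∈ K.V, 4 ≤ K.deg v
  · obtain ⟨v, hv, hd⟩ := h3
    obtain ⟨e1, e2, v', e0, hS⟩ := exists_splitData hl hv hd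
    have c1 := split_cardV hS
    have c2 := split_cardE hS
    have := ih _ (hn ▸ split_mu_lt hS) (split hS) (split_Cyc hS hK) (split_D_ge hS hD) (by
      intro u hu
      by_cases h4 : u = v'
      · subst h4; rw [split_deg_v' hS]; norm_num
      · by_cases h5 : u = v
        · subst h5
          have := split_deg_v hS
          omega
        · rw [split_deg_other hS h5 h4]
          rw [split_V, mem_insert] at hu
          exact hmin u (hu.resolve_left h4)) (by omega) rfl
    rwa [split_W] at this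
  have hc : K.Cubic := by
    intro v hv
    push Not at h2 h3
    have a1 := hmin v hv
    have a2 := h2 v hv
    have a3 := h3 v hv
    omega
  have hcard := hc.card
  by_contra hcon
  push Not at hcon
  by_cases hp : ∃ e ∈ K.E, ∃ f ∈ K.E, e ≠ f ∧ K.Par e f
  · obtain ⟨e, he, f, hf, hne, hp⟩ := hp
    obtain ⟨K', a1, a2, a3, a4⟩ := cubic_par (x := 3) hK hl hc (by omega) he hf hne hp
    have := MB3 h K' a1 (card_pos.1 (by omega)) a2
    omega
  push Not at hp
  have hsum := sum_W_pair hl hc hp
  have hle : ∀ e ∈ K.E, 2 * h ≤ (K.ind (K.V \ {K.s e, K.t e})).W := by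
    intro e he
    have b1 := K.card_ind_pair e
    have b2 := K.cardV_ind_pair hl he
    have b3 := card_nbE_simple hl hc hp he
    have := MB2 h _ (hK.ind (K.V \ {K.s e, K.t e})) (card_pos.1 (by omega)) (by omega)
    omega
  obtain ⟨e, he⟩ : K.E.Nonempty := card_pos.1 (by omega)
  have hE15 : #K.E = 15 := by omega
  have heq : (K.ind (K.V \ {K.s e, K.t e})).W ≤ 2 * h := by
    by_contra hgt
    push Not at hgt
    have : ∑ e ∈ K.E, 2 * h < ∑ e ∈ K.E, (K.ind (K.V \ {K.s e, K.t e})).W :=
      sum_lt_sum hle ⟨e, he, hgt⟩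
    rw [sum_const, smul_eq_mul, hE15] at this
    rw [hE15] at hsum
    omega
  have b1 := K.card_ind_pair e
  have b2 := K.cardV_ind_pair hl he
  have b3 := card_nbE_simple hl hc hp he
  have hev := tight_two hh (by omega) _ (hK.ind (K.V \ {K.s e, K.t e})) (by omega) heq
  have hbip := (K.ind (K.V \ {K.s e, K.t e})).bip_of_even hev
  obtain ⟨X, hX, hle2⟩ := K.exists_D_le (S := {K.s e, K.t e}) (by
    intro x hx
    simp only [mem_insert, mem_singleton] at hx
    rcases hx with rfl | rfl
    · exact K.hs e he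
    · exact K.ht e he) hbip
  rw [card_pair (hl e he)] at hle2
  have := hD X hX
  push_cast at hle2
  linarith

end MG
end Pool.H82.SC
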